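import Pool.Agent.L7h59.AR.Ord

/-!
# The action of an Artin group on the minimal coset representatives with labels
-/

set_option autoImplicit false
set_option linter.unusedSectionVars false

namespace Pool.Agent.L7h59.AR

open CoxeterSystem Pool.Agent.Helper703.Cox Pool.Agent.TH5.BD

/-- restriction of a Coxeter matrix to a set of generators -/
def rs {B : Type} (M : CoxeterMatrix B) (X : Set B) : CoxeterMatrix X where
  M := fun i j => M i j
  isSymm := by
    ext i j
    exact M.symmetric _ _
  diagonal i := M.diagonal i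
  off_diagonal i j h := M.off_diagonal i j fun h' => h (Subtype.ext h')

theorem rs_apply {B : Type} (M : CoxeterMatrix B) (X : Set B) (i j : X) :
    rs M X i j = M i j := rfl

section ra

variable {G : Type*} [Monoid G]

/-- alternating product, built from the right -/
def ra (a b : G) : ℕ → G
  | 0 => 1
  | k + 1 => (if Even k then a else b) * ra a b k

theorem ra_eq (a b : G) (k : ℕ) : ra a b k = if Even k then alt b a k else alt a b k := by
  induction k with
  | zero => simp [ra]
  | succ k ih =>
    rw [ra, ih]
    by_cases h : Even k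
    · have h' : ¬ Even (k + 1) := by simpa [Nat.even_add_one] using h
      rw [if_pos h, if_pos h, if_neg h', alt_succ]
    · have h' : Even (k + 1) := by simpa [Nat.even_add_one] using h
      rw [if_neg h, if_neg h, if_pos h', alt_succ]

theorem alt_of_ra {a b : G} {m : ℕ} (h : ra a b m = ra b a m) : alt a b m = alt b a m := by
  rw [ra_eq, ra_eq] at h
  by_cases hm : Even m
  · rw [if_pos hm, if_pos hm] at h
    exact h.symm
  · rw [if_neg hm, if_neg hm] at h
    exact h

theorem ra_of_alt {a b : G} {m : ℕ} (h : alt a b m = alt b a m) : ra a b m = ra b a m := by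
  rw [ra_eq, ra_eq]
  by_cases hm : Even m
  · rw [if_pos hm, if_pos hm]
    exact h.symm
  · rw [if_neg hm, if_neg hm]
    exact h

end ra

variable {B : Type} [Fintype B] [DecidableEq B] {M : CoxeterMatrix B} {W : Type} [Group W]
  (cs : CoxeterSystem M W)

theorem braid (i j : B) :
    alt (cs.simple i) (cs.simple j) (M i j) = alt (cs.simple j) (cs.simple i) (M i j) :=
  alt_comm_of_pow (cs.simple_mul_simple_self i) (cs.simple_mul_simple_self j)
    (cs.simple_mul_simple_pow i j)

/-- the projection of the Artin group to the Coxeter group -/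
def pr : Artin M →* W := Artin.lift cs.simple (braid cs)

/-- the projection of the Artin group of `X` to the Coxeter group -/
def prX (X : Set B) : Artin (rs M X) →* W :=
  Artin.lift (fun t => cs.simple t) (fun i j => braid cs i j)

@[simp] theorem pr_gen (i : B) : pr cs (Artin.gen M i) = cs.simple i := Artin.lift_gen _ _ _

@[simp] theorem prX_gen (X : Set B) (t : X) : prX cs X (Artin.gen _ t) = cs.simple t :=
  Artin.lift_gen _ _ _

theorem prX_mem (X : Set B) (x : Artin (rs M X)) : prX cs X x ∈ Par cs X := by
  induction x using Artin.induction with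
  | one => rw [map_one]; exact Subgroup.one_mem _
  | gen t => rw [prX_gen]; exact simple_mem_par t.2
  | mul x y hx hy => rw [map_mul]; exact Subgroup.mul_mem _ hx hy
  | inv x hx => rw [map_inv]; exact Subgroup.inv_mem _ hx

variable {cs}

theorem not_rmin {X : Set B} {w : W} (hw : RMin cs X w) {s t : B} (ht : t ∈ X)
    (h : cs.simple s * w = w * cs.simple t) : ¬ RMin cs X (cs.simple s * w) := by
  intro h1
  have h2 : w = cs.simple s * w := rmin_unique hw h1 (by
    rw [h, ← mul_assoc, inv_mul_cancel, one_mul]
    exact simple_mem_par ht)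
  apply simple_ne_one (cs := cs) s
  have h3 : cs.simple s * w = 1 * w := by rw [one_mul]; exact h2.symm
  exact mul_right_cancel h3

/-- the label of a step which stabilizes the coset -/
noncomputable def lab {X : Set B} {w : W} (hw : RMin cs X w) {s : B}
    (h : ¬ RMin cs X (cs.simple s * w)) : X :=
  ⟨((deo hw s).resolve_left h).choose, ((deo hw s).resolve_left h).choose_spec.1⟩

theorem lab_spec {X : Set B} {w : W} (hw : RMin cs X w) {s : B}
    (h : ¬ RMin cs X (cs.simple s * w)) : cs.simple s * w = w * cs.simple (lab hw h : B) :=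
  ((deo hw s).resolve_left h).choose_spec.2

theorem lab_eq {X : Set B} {w : W} (hw : RMin cs X w) {s : B}
    (h : ¬ RMin cs X (cs.simple s * w)) {t : X} (ht : cs.simple s * w = w * cs.simple (t : B)) :
    lab hw h = t := by
  apply Subtype.ext
  apply simple_injective cs
  have := lab_spec hw h
  rw [ht] at this
  exact (mul_left_cancel this).symm

variable (cs) in
/-- states -/
abbrev Sta (X : Set B) : Type := {w : W // RMin cs X w} × Artin (rs M X)

open Classical in
/-- one letter -/
noncomputable def opf (X : Set B) (s : B) (p : Sta cs X) : Sta cs X :=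
  if h : RMin cs X (cs.simple s * p.1.1) then (⟨cs.simple s * p.1.1, h⟩, p.2)
  else (p.1, Artin.gen _ (lab p.1.2 h) * p.2)

open Classical in
/-- the inverse -/
noncomputable def opi (X : Set B) (s : B) (p : Sta cs X) : Sta cs X :=
  if h : RMin cs X (cs.simple s * p.1.1) then (⟨cs.simple s * p.1.1, h⟩, p.2)
  else (p.1, (Artin.gen _ (lab p.1.2 h))⁻¹ * p.2)

theorem opf_min {X : Set B} {s : B} {w : W} (hw : RMin cs X w)
    (h : RMin cs X (cs.simple s * w)) (x : Artin (rs M X)) :
    opf X s (⟨w, hw⟩, x) = (⟨cs.simple s * w, h⟩, x) := by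
  unfold opf
  rw [dif_pos h]

theorem opf_out {X : Set B} {s : B} {w : W} (hw : RMin cs X w) {t : X}
    (h : cs.simple s * w = w * cs.simple (t : B)) (x : Artin (rs M X)) :
    opf X s (⟨w, hw⟩, x) = (⟨w, hw⟩, Artin.gen _ t * x) := by
  have h1 := not_rmin hw t.2 h
  unfold opf
  rw [dif_neg h1, lab_eq hw h1 h]

theorem opi_min {X : Set B} {s : B} {w : W} (hw : RMin cs X w)
    (h : RMin cs X (cs.simple s * w)) (x : Artin (rs M X)) :
    opi X s (⟨w, hw⟩, x) = (⟨cs.simple s * w, h⟩, x) := by
  unfold opi
  rw [dif_pos h]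

theorem opi_out {X : Set B} {s : B} {w : W} (hw : RMin cs X w) {t : X}
    (h : cs.simple s * w = w * cs.simple (t : B)) (x : Artin (rs M X)) :
    opi X s (⟨w, hw⟩, x) = (⟨w, hw⟩, (Artin.gen _ t)⁻¹ * x) := by
  have h1 := not_rmin hw t.2 h
  unfold opi
  rw [dif_neg h1, lab_eq hw h1 h]

theorem deo' {X : Set B} {w : W} (hw : RMin cs X w) (s : B) :
    RMin cs X (cs.simple s * w) ∨ ∃ t : X, cs.simple s * w = w * cs.simple (t : B) := by
  rcases deo hw s with h | ⟨t, ht, h⟩
  · exact Or.inl h
  · exact Or.inr ⟨⟨t, ht⟩, h⟩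

/-- one letter, as a permutation -/
noncomputable def op (X : Set B) (s : B) : Equiv.Perm (Sta cs X) where
  toFun := opf X s
  invFun := opi X s
  left_inv := by
    rintro ⟨⟨w, hw⟩, x⟩
    rcases deo' hw s with h | ⟨t, h⟩
    · rw [opf_min hw h, opi_min h (by rw [cs.simple_mul_simple_cancel_left]; exact hw)]
      exact Prod.ext (Subtype.ext (cs.simple_mul_simple_cancel_left s)) rfl
    · rw [opf_out hw h, opi_out hw h, inv_mul_cancel_left]
  right_inv := by
    rintro ⟨⟨w, hw⟩, x⟩
    rcases deo' hw s with h | ⟨t, h⟩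
    · rw [opi_min hw h, opf_min h (by rw [cs.simple_mul_simple_cancel_left]; exact hw)]
      exact Prod.ext (Subtype.ext (cs.simple_mul_simple_cancel_left s)) rfl
    · rw [opi_out hw h, opf_out hw h, mul_inv_cancel_left]

theorem op_apply (X : Set B) (s : B) (p : Sta cs X) : op X s p = opf X s p := rfl

/-- a parabolic subgroup of rank at most one has at most one nontrivial element -/
theorem small {c : W} {K : Finset B} (hK : K.card ≤ 1) {g g' : W} (hg : g ∈ Pb cs c K)
    (hg' : g' ∈ Pb cs c K) (h : g ≠ 1) (h' : g' ≠ 1) : g = g' := by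
  have key : ∀ y y' : W, y ∈ Par cs (K : Set B) → y' ∈ Par cs (K : Set B) → y ≠ 1 → y' ≠ 1 →
      y = y' := by
    intro y y' hy hy' h1 h1'
    obtain ⟨k, hk⟩ : ∃ k, K ⊆ {k} := by
      rcases K.eq_empty_or_nonempty with rfl | ⟨k, hk⟩
      · exfalso
        apply h1
        unfold Par at hy
        simpa using hy
      · exact ⟨k, fun z hz => Finset.mem_singleton.2 (Finset.card_le_one.1 hK z hz k hk)⟩
    have e : ∀ z ∈ Par cs (K : Set B), z = 1 ∨ z = cs.simple k := by
      intro z hz
      unfold Par at hz
      induction hz using Subgroup.closure_induction with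
      | mem z hz =>
        obtain ⟨i, hi, rfl⟩ := hz
        have := hk hi
        rw [Finset.mem_singleton] at this
        rw [this]
        exact Or.inr rfl
      | one => exact Or.inl rfl
      | mul a b _ _ ha hb =>
        rcases ha with rfl | rfl <;> rcases hb with rfl | rfl <;> simp
      | inv a _ ha =>
        rcases ha with rfl | rfl <;> simp
    rcases e y hy with h2 | h2
    · exact absurd h2 h1
    · rcases e y' hy' with h3 | h3
      · exact absurd h3 h1'
      · rw [h2, h3]
  rw [mem_Pb] at hg hg'
  have h2 := key _ _ hg hg' (by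
    intro h3
    apply h
    have : g = c * (c⁻¹ * g * c) * c⁻¹ := by group
    rw [this, h3]; group) (by
    intro h3
    apply h'
    have : g' = c * (c⁻¹ * g' * c) * c⁻¹ := by group
    rw [this, h3]; group)
  have h3 : g = c * (c⁻¹ * g * c) * c⁻¹ := by group
  have h4 : g' = c * (c⁻¹ * g' * c) * c⁻¹ := by group
  rw [h3, h2, ← h4]

theorem ra_succ {G : Type*} [Monoid G] (a b : G) (k : ℕ) :
    ra a b (k + 1) = (if Even k then a else b) * ra a b k := rfl

theorem rho_eq {a b : W} (ha : a * a = 1) (hb : b * b = 1) (k : ℕ) :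
    (ra a b k)⁻¹ * (if Even k then a else b) * ra a b k = (a * b) ^ k * a := by
  have h1 := alt_conj ha hb k
  have h2 : (ra a b k)⁻¹ = alt a b k := by
    have inv_alt : ∀ (k : ℕ) (a b : W), a * a = 1 → b * b = 1 →
        (alt a b k)⁻¹ = if Even k then alt b a k else alt a b k := by
      intro k
      induction k with
      | zero => intro a b _ _; simp
      | succ k ih =>
        intro a b ha hb
        have ea : a⁻¹ = a := inv_eq_of_mul_eq_one_left ha
        have eb : b⁻¹ = b := inv_eq_of_mul_eq_one_left hb
        have e0 : (alt a b (k + 1))⁻¹ = (if Even k then a else b)⁻¹ * (alt a b k)⁻¹ := by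
          rw [alt_succ' a b k, mul_inv_rev]
        rw [e0, ih a b ha hb]
        by_cases h : Even k
        · have h' : ¬ Even (k + 1) := by simpa [Nat.even_add_one] using h
          rw [if_pos h, if_pos h, if_neg h', ea, ← alt_succ]
        · have h' : Even (k + 1) := by simpa [Nat.even_add_one] using h
          rw [if_neg h, if_neg h, if_pos h', eb, ← alt_succ]
    rw [ra_eq]
    by_cases h : Even k
    · rw [if_pos h, inv_alt k b a hb ha, if_pos h]
    · rw [if_neg h, inv_alt k a b ha hb, if_neg h]
  rw [← h1, h2]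
  have h3 : ra a b k = (alt a b k)⁻¹ := by rw [← h2, inv_inv]
  rw [h3]

/-- **the main computation**: at most one label -/
theorem track {X : Set B} {i j : B} (hij : i ≠ j) {w : W} (hw : RMin cs X w)
    (hu : ∀ g g' : W, g ∈ Par cs {i, j} → g' ∈ Par cs {i, j} → w⁻¹ * g * w ∈ Par cs X →
      w⁻¹ * g' * w ∈ Par cs X → g ≠ 1 → g' ≠ 1 → g = g') (x : Artin (rs M X)) :
    ∀ k ≤ M i j, ∃ (w' : W) (hw' : RMin cs X w') (o : Artin (rs M X)),
      (ra (op (cs := cs) X i) (op (cs := cs) X j) k) (⟨w, hw⟩, x) = (⟨w', hw'⟩, o * x) ∧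
      w' * prX cs X o = ra (cs.simple i) (cs.simple j) k * w ∧
      (o = 1 ∨ ((∃ t, o = Artin.gen _ t) ∧ ∃ l < k,
        w⁻¹ * ((cs.simple i * cs.simple j) ^ l * cs.simple i) * w ∈ Par cs X)) := by
  have hi : cs.simple i * cs.simple i = 1 := cs.simple_mul_simple_self i
  have hj : cs.simple j * cs.simple j = 1 := cs.simple_mul_simple_self j
  intro k
  induction k with
  | zero =>
    intro _
    exact ⟨w, hw, 1, by simp [ra], by simp [ra], Or.inl rfl⟩
  | succ k ih =>
    intro hk
    obtain ⟨w', hw', o, h1, h2, h3⟩ := ih (by omega)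
    obtain ⟨s, hs, hs1, hs2⟩ : ∃ s : B, (s = i ∨ s = j) ∧
        (if Even k then op (cs := cs) X i else op X j) = op X s ∧
        (if Even k then cs.simple i else cs.simple j) = cs.simple s := by
      by_cases h : Even k
      · exact ⟨i, Or.inl rfl, by rw [if_pos h], by rw [if_pos h]⟩
      · exact ⟨j, Or.inr rfl, by rw [if_neg h], by rw [if_neg h]⟩
    rw [ra_succ, Equiv.Perm.mul_apply, h1, hs1, ra_succ, hs2, op_apply]
    rcases deo' hw' s with h4 | ⟨t, h4⟩
    · refine ⟨_, h4, o, opf_min hw' h4 _, ?_, ?_⟩
      · rw [mul_assoc, h2, mul_assoc]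
      · rcases h3 with h3 | ⟨h3, l, hl, h5⟩
        · exact Or.inl h3
        · exact Or.inr ⟨h3, l, by omega, h5⟩
    · have hmem : w⁻¹ * ((cs.simple i * cs.simple j) ^ k * cs.simple i) * w ∈ Par cs X := by
        rw [← rho_eq hi hj k, hs2]
        have e1 : ra (cs.simple i) (cs.simple j) k * w = w' * prX cs X o := h2.symm
        have e2 : w⁻¹ * ((ra (cs.simple i) (cs.simple j) k)⁻¹ * cs.simple s *
            ra (cs.simple i) (cs.simple j) k) * w =
            (ra (cs.simple i) (cs.simple j) k * w)⁻¹ * cs.simple s *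
              (ra (cs.simple i) (cs.simple j) k * w) := by group
        rw [e2, e1]
        have e3 : (w' * prX cs X o)⁻¹ * cs.simple s * (w' * prX cs X o) =
            (prX cs X o)⁻¹ * (w'⁻¹ * (cs.simple s * w')) * prX cs X o := by group
        rw [e3, h4, ← mul_assoc w'⁻¹, inv_mul_cancel, one_mul]
        exact Subgroup.mul_mem _ (Subgroup.mul_mem _ (Subgroup.inv_mem _ (prX_mem cs X o))
          (simple_mem_par t.2)) (prX_mem cs X o)
      have ho : o = 1 := by
        rcases h3 with h3 | ⟨-, l, hl, h5⟩
        · exact h3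
        exfalso
        have hPi : cs.simple i ∈ Par cs ({i, j} : Set B) := simple_mem_par (by simp)
        have hPj : cs.simple j ∈ Par cs ({i, j} : Set B) := simple_mem_par (by simp)
        have hP : ∀ n : ℕ, (cs.simple i * cs.simple j) ^ n * cs.simple i ∈
            Par cs ({i, j} : Set B) := fun n =>
          Subgroup.mul_mem _ (Subgroup.pow_mem _ (Subgroup.mul_mem _ hPi hPj) n) hPi
        have hne : ∀ n : ℕ, (cs.simple i * cs.simple j) ^ n * cs.simple i ≠ 1 := by
          intro n hn
          have h6 : cs.lengthParity ((cs.simple i * cs.simple j) ^ n * cs.simple i) = 1 := by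
            rw [hn, map_one]
          rw [map_mul, map_pow, map_mul, cs.lengthParity_simple, cs.lengthParity_simple,
            ← ofAdd_add, ← ofAdd_nsmul, ← ofAdd_add] at h6
          have h7 : (n • ((1 : ZMod 2) + 1) + 1 : ZMod 2) = 0 := by
            exact Multiplicative.ofAdd.injective h6
          have h8 : ((1 : ZMod 2) + 1) = 0 := by decide
          rw [h8, smul_zero, zero_add] at h7
          exact absurd h7 (by decide)
        have h6 := hu _ _ (hP k) (hP l) hmem h5 (hne k) (hne l)
        have h7 : (cs.simple i * cs.simple j) ^ (k - l) = 1 := by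
          have h8 : (cs.simple i * cs.simple j) ^ k = (cs.simple i * cs.simple j) ^ l :=
            mul_right_cancel h6
          have h9 : (cs.simple i * cs.simple j) ^ k =
              (cs.simple i * cs.simple j) ^ l * (cs.simple i * cs.simple j) ^ (k - l) := by
            rw [← pow_add]; congr 1; omega
          rw [h8] at h9
          exact (mul_right_eq_self₀' h9.symm)
        have h10 := ord_dvd (cs := cs) hij h7
        have h11 := Nat.le_of_dvd (by omega) h10
        omega
      refine ⟨w', hw', Artin.gen _ t * o, ?_, ?_, ?_⟩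
      · rw [opf_out hw' h4, mul_assoc]
      · rw [map_mul, prX_gen, ← mul_assoc, ← h4, mul_assoc, h2, mul_assoc]
      · exact Or.inr ⟨⟨t, by rw [ho, mul_one]⟩, k, by omega, hmem⟩
where
  mul_right_eq_self₀' {a b : W} (h : a * b = a) : b = 1 := by
    have := congrArg (a⁻¹ * ·) h
    simpa using this

end Pool.Agent.L7h59.AR
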