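import Pool.Agent.L7h59.AR.Act

/-!
# The action of an Artin group on the minimal coset representatives with labels, continued
-/

set_option autoImplicit false
set_option linter.unusedSectionVars false

namespace Pool.Agent.L7h59.AR

open CoxeterSystem Pool.Agent.Helper703.Cox Pool.Agent.TH5.BD

variable {B : Type} [Fintype B] [DecidableEq B] {M : CoxeterMatrix B} {W : Type} [Group W]
  {cs : CoxeterSystem M W}

theorem braid_op (X : Set B) (i j : B) :
    alt (op (cs := cs) X i) (op (cs := cs) X j) (M i j) =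
      alt (op (cs := cs) X j) (op (cs := cs) X i) (M i j) := by
  classical
  by_cases hij : i = j
  · rw [hij]
  apply alt_of_ra
  apply Equiv.ext
  rintro ⟨⟨w, hw⟩, x⟩
  obtain ⟨c, K, h1, h2⟩ := inter (cs := cs) w 1 X.toFinite.toFinset ({i, j} : Finset B)
  have hXs : (X.toFinite.toFinset : Set B) = X := Set.Finite.coe_toFinset _
  have hmX : ∀ {g : W}, g ∈ Pb cs w X.toFinite.toFinset ↔ w⁻¹ * g * w ∈ Par cs X := by
    intro g
    rw [mem_Pb, hXs]
  have hm1 : ∀ {g : W}, g ∈ Pb cs 1 ({i, j} : Finset B) ↔ g ∈ Par cs ({i, j} : Set B) := by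
    intro g
    rw [mem_Pb, inv_one, one_mul, mul_one]
    norm_num
  have hcard : ({i, j} : Finset B).card = 2 := Finset.card_pair hij
  rcases h2 with h2 | h2
  · -- at most one label
    have hu : ∀ g g' : W, g ∈ Par cs {i, j} → g' ∈ Par cs {i, j} → w⁻¹ * g * w ∈ Par cs X →
        w⁻¹ * g' * w ∈ Par cs X → g ≠ 1 → g' ≠ 1 → g = g' := by
      intro g g' hg hg' hgw hgw' h h'
      have hK : K.card ≤ 1 := by omega
      refine small (cs := cs) (c := c) hK ?_ ?_ h h'
      · rw [← h1]
        exact ⟨hmX.2 hgw, hm1.2 hg⟩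
      · rw [← h1]
        exact ⟨hmX.2 hgw', hm1.2 hg'⟩
    have hu' : ∀ g g' : W, g ∈ Par cs {j, i} → g' ∈ Par cs {j, i} → w⁻¹ * g * w ∈ Par cs X →
        w⁻¹ * g' * w ∈ Par cs X → g ≠ 1 → g' ≠ 1 → g = g' := by
      rw [Set.pair_comm]
      exact hu
    obtain ⟨w1, hw1, o1, k1, k2, k3⟩ := track hij hw hu x (M i j) le_rfl
    obtain ⟨w2, hw2, o2, l1, l2, l3⟩ := track (Ne.symm hij) hw hu' x (M i j)
      (by rw [M.symmetric i j])
    have hg : ra (cs.simple i) (cs.simple j) (M i j) = ra (cs.simple j) (cs.simple i) (M i j) :=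
      ra_of_alt (braid cs i j)
    rw [hg, ← l2] at k2
    have hww : w1 = w2 := by
      apply rmin_unique hw1 hw2
      have : w1⁻¹ * w2 = prX cs X o1 * (prX cs X o2)⁻¹ := by
        have h3 : w2 = w1 * prX cs X o1 * (prX cs X o2)⁻¹ := by rw [k2]; group
        rw [h3]; group
      rw [this]
      exact Subgroup.mul_mem _ (prX_mem cs X o1) (Subgroup.inv_mem _ (prX_mem cs X o2))
    subst hww
    have hoo : prX cs X o1 = prX cs X o2 := mul_left_cancel k2
    have ho : o1 = o2 := by
      rcases k3 with rfl | ⟨⟨t, rfl⟩, -⟩ <;> rcases l3 with rfl | ⟨⟨t', rfl⟩, -⟩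
      · rfl
      · rw [map_one, prX_gen] at hoo
        exact absurd hoo.symm (simple_ne_one (cs := cs) _)
      · rw [map_one, prX_gen] at hoo
        exact absurd hoo (simple_ne_one (cs := cs) _)
      · rw [prX_gen, prX_gen] at hoo
        have : t = t' := Subtype.ext (simple_injective cs hoo)
        rw [this]
    rw [k1, l1, ho]
  · -- both letters stabilize the coset
    have hst : ∀ s ∈ ({i, j} : Set B), ∃ t ∈ X, cs.simple s * w = w * cs.simple t := by
      intro s hs
      apply stab_simple hw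
      rw [← mul_assoc]
      exact hmX.1 (h2 (hm1.2 (simple_mem_par hs)))
    obtain ⟨s, hs, hs'⟩ := hst i (by simp)
    obtain ⟨t, ht, ht'⟩ := hst j (by simp)
    have hsne : s ≠ t := by
      rintro rfl
      rw [← ht'] at hs'
      exact hij (simple_injective cs (mul_right_cancel hs'))
    have hlab : M s t = M i j := label_eq (cs := cs) hij hsne hs' ht'
    have key : ∀ (a b : B) (a' b' : X), cs.simple a * w = w * cs.simple (a' : B) →
        cs.simple b * w = w * cs.simple (b' : B) → ∀ k : ℕ,
        (ra (op (cs := cs) X a) (op (cs := cs) X b) k) (⟨w, hw⟩, x) =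
          (⟨w, hw⟩, ra (Artin.gen (rs M X) a') (Artin.gen (rs M X) b') k * x) := by
      intro a b a' b' ha hb k
      induction k with
      | zero => simp [ra]
      | succ k ih =>
        rw [ra_succ, Equiv.Perm.mul_apply, ih, ra_succ]
        by_cases h : Even k
        · rw [if_pos h, if_pos h, op_apply, opf_out hw ha, mul_assoc]
        · rw [if_neg h, if_neg h, op_apply, opf_out hw hb, mul_assoc]
    rw [key i j ⟨s, hs⟩ ⟨t, ht⟩ hs' ht', key j i ⟨t, ht⟩ ⟨s, hs⟩ ht' hs']
    have hrel := Artin.rel (M := rs M X) ⟨s, hs⟩ ⟨t, ht⟩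
    rw [rs_apply] at hrel
    change alt _ _ (M s t) = alt _ _ (M s t) at hrel
    rw [hlab] at hrel
    rw [ra_of_alt hrel]

/-- **the action** -/
noncomputable def Ac (X : Set B) : Artin M →* Equiv.Perm (Sta cs X) :=
  Artin.lift (op (cs := cs) X) (braid_op X)

theorem Ac_gen (X : Set B) (s : B) : Ac (cs := cs) X (Artin.gen M s) = op X s :=
  Artin.lift_gen _ _ _

variable (cs) in
/-- the base representative -/
def e1 (X : Set B) : {w : W // RMin cs X w} := ⟨1, fun t _ => by
  rw [one_mul, cs.length_one, cs.length_simple]; norm_num⟩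

/-- the action on the representatives -/
noncomputable def st (X : Set B) (g : Artin M) (w : {w : W // RMin cs X w}) :
    {w : W // RMin cs X w} := (Ac X g (w, 1)).1

/-- the labels -/
noncomputable def ka (X : Set B) (g : Artin M) (w : {w : W // RMin cs X w}) : Artin (rs M X) :=
  (Ac X g (w, 1)).2

/-- multiplication on the right -/
def rm (X : Set B) (y : Artin (rs M X)) (p : Sta cs X) : Sta cs X := (p.1, p.2 * y)

theorem op_rm (X : Set B) (s : B) (y : Artin (rs M X)) (p : Sta cs X) :
    op X s (rm X y p) = rm X y (op X s p) := by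
  obtain ⟨⟨w, hw⟩, x⟩ := p
  rw [op_apply, op_apply]
  unfold rm
  rcases deo' hw s with h | ⟨t, h⟩
  · rw [opf_min hw h, opf_min hw h]
  · rw [opf_out hw h, opf_out hw h, mul_assoc]

theorem Ac_rm (X : Set B) (g : Artin M) (y : Artin (rs M X)) : ∀ p : Sta cs X,
    Ac X g (rm X y p) = rm X y (Ac X g p) := by
  induction g using Artin.induction with
  | one => intro p; simp
  | gen s => intro p; rw [Ac_gen]; exact op_rm X s y p
  | mul g h hg hh =>
    intro p
    rw [map_mul, Equiv.Perm.mul_apply, hh, hg, Equiv.Perm.mul_apply]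
  | inv g hg =>
    intro p
    have h : ∀ q, Ac (cs := cs) X g ((Ac X g)⁻¹ q) = q := fun q => Equiv.apply_symm_apply _ q
    rw [map_inv]
    apply (Ac X g).injective
    rw [h]
    refine Eq.trans ?_ (hg _).symm
    rw [h]

theorem Ac_apply (X : Set B) (g : Artin M) (w : {w : W // RMin cs X w}) (x : Artin (rs M X)) :
    Ac X g (w, x) = (st X g w, ka X g w * x) := by
  have h := Ac_rm X g x (w, 1)
  unfold rm at h
  rw [one_mul] at h
  exact h

@[simp] theorem st_one (X : Set B) (w : {w : W // RMin cs X w}) : st X (1 : Artin M) w = w := by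
  simp [st]

@[simp] theorem ka_one (X : Set B) (w : {w : W // RMin cs X w}) : ka X (1 : Artin M) w = 1 := by
  simp [ka]

theorem Ac_mul (X : Set B) (g h : Artin M) (w : {w : W // RMin cs X w}) :
    Ac X (g * h) (w, 1) = (st X g (st X h w), ka X g (st X h w) * ka X h w) := by
  rw [map_mul, Equiv.Perm.mul_apply]
  exact Ac_apply X g (st X h w) (ka X h w)

theorem st_mul (X : Set B) (g h : Artin M) (w : {w : W // RMin cs X w}) :
    st X (g * h) w = st X g (st X h w) := by
  have h1 := Ac_mul X g h w
  exact (Prod.ext_iff.1 h1).1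

theorem ka_mul (X : Set B) (g h : Artin M) (w : {w : W // RMin cs X w}) :
    ka X (g * h) w = ka X g (st X h w) * ka X h w := by
  have h1 := Ac_mul X g h w
  exact (Prod.ext_iff.1 h1).2

/-- compatibility with the projection -/
theorem th (X : Set B) (g : Artin M) : ∀ w : {w : W // RMin cs X w},
    ((st X g w : {w : W // RMin cs X w}) : W) * prX cs X (ka X g w) = pr cs g * w := by
  induction g using Artin.induction with
  | one => intro w; simp
  | gen s =>
    rintro ⟨w, hw⟩
    rw [pr_gen]
    unfold st ka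
    rw [Ac_gen, op_apply]
    rcases deo' hw s with h | ⟨t, h⟩
    · rw [opf_min hw h]; simp
    · rw [opf_out hw h]; simp [h]
  | mul g h hg hh =>
    intro w
    rw [st_mul, ka_mul, map_mul, ← mul_assoc, hg, map_mul, mul_assoc, hh, mul_assoc]
  | inv g hg =>
    intro w
    have h1 := hg (st X g⁻¹ w)
    have h2 : st X g (st X g⁻¹ w) = w := by rw [← st_mul, mul_inv_cancel, st_one]
    have h3 : ka X g (st X g⁻¹ w) * ka X g⁻¹ w = 1 := by
      rw [← ka_mul, mul_inv_cancel, ka_one]
    rw [h2] at h1
    have h4 : ka X g (st X g⁻¹ w) = (ka X g⁻¹ w)⁻¹ := eq_inv_of_mul_eq_one_left h3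
    rw [h4, map_inv] at h1
    rw [map_inv]
    have h5 : (w : W) = pr cs g * (st X g⁻¹ w : {w : W // RMin cs X w}) *
        prX cs X (ka X g⁻¹ w) := by
      rw [← h1]; group
    have h6 : (pr cs g)⁻¹ * (w : W) = (st X g⁻¹ w : {w : W // RMin cs X w}) *
        prX cs X (ka X g⁻¹ w) := by
      conv_lhs => rw [h5]
      group
    exact h6.symm

/-- the state is determined by the coset -/
theorem st_eq (X : Set B) (g : Artin M) (w w' : {w : W // RMin cs X w})
    (h : (w' : W)⁻¹ * (pr cs g * w) ∈ Par cs X) : st X g w = w' := by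
  apply Subtype.ext
  symm
  apply rmin_unique w'.2 (st X g w).2
  have h1 := th X g w
  have h2 : ((st X g w : {w : W // RMin cs X w}) : W) = pr cs g * w * (prX cs X (ka X g w))⁻¹ := by
    rw [← h1]; group
  rw [h2]
  have h3 : (w' : W)⁻¹ * (pr cs g * w * (prX cs X (ka X g w))⁻¹) =
      (w' : W)⁻¹ * (pr cs g * w) * (prX cs X (ka X g w))⁻¹ := by group
  rw [h3]
  exact Subgroup.mul_mem _ h (Subgroup.inv_mem _ (prX_mem cs X _))

theorem st_eq_iff (X : Set B) (g : Artin M) (w w' : {w : W // RMin cs X w}) :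
    st X g w = w' ↔ (w' : W)⁻¹ * (pr cs g * w) ∈ Par cs X := by
  refine ⟨fun h => ?_, st_eq X g w w'⟩
  rw [← th X g w, ← h, ← mul_assoc, inv_mul_cancel, one_mul]
  exact prX_mem cs X _

/-- the pure Artin group -/
abbrev Pu (cs : CoxeterSystem M W) : Subgroup (Artin M) := (pr cs).ker

theorem st_pure (X : Set B) {g : Artin M} (hg : g ∈ Pu cs) (w : {w : W // RMin cs X w}) :
    st X g w = w := by
  apply st_eq
  have : pr cs g = 1 := hg
  rw [this, one_mul, inv_mul_cancel]
  exact Subgroup.one_mem _

/-- the inclusion of a standard parabolic subgroup -/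
def io (M : CoxeterMatrix B) (X : Set B) : Artin (rs M X) →* Artin M :=
  Artin.lift (fun t => Artin.gen M t) (fun i j => Artin.rel (M := M) (i : B) (j : B))

@[simp] theorem io_gen (X : Set B) (t : X) : io M X (Artin.gen _ t) = Artin.gen M t :=
  Artin.lift_gen _ _ _

theorem Ac_io (X : Set B) (a : Artin (rs M X)) :
    ∀ x, Ac (cs := cs) X (io M X a) (e1 cs X, x) = (e1 cs X, a * x) := by
  induction a using Artin.induction with
  | one => intro x; simp
  | gen t =>
    intro x
    rw [io_gen, Ac_gen, op_apply]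
    exact opf_out (e1 cs X).2 (by simp [e1]) x
  | mul a b ha hb =>
    intro x
    rw [map_mul, map_mul, Equiv.Perm.mul_apply, hb, ha, mul_assoc]
  | inv a ha =>
    intro x
    have h : ∀ q, Ac (cs := cs) X (io M X a) ((Ac X (io M X a))⁻¹ q) = q :=
      fun q => Equiv.apply_symm_apply _ q
    rw [map_inv, map_inv]
    apply (Ac (cs := cs) X (io M X a)).injective
    rw [h, ha, mul_inv_cancel_left]

theorem ka_io (X : Set B) (a : Artin (rs M X)) : ka X (io M X a) (e1 cs X) = a := by
  unfold ka
  rw [Ac_io]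
  simp

theorem st_io (X : Set B) (a : Artin (rs M X)) : st X (io M X a) (e1 cs X) = e1 cs X := by
  unfold st
  rw [Ac_io]

/-- **van der Lek's theorem** -/
theorem io_injective (cs : CoxeterSystem M W) (X : Set B) : Function.Injective (io M X) := by
  intro a b h
  rw [← ka_io (cs := cs) X a, h, ka_io]

theorem pr_io (X : Set B) (a : Artin (rs M X)) : pr cs (io M X a) = prX cs X a := by
  have h : (pr cs).comp (io M X) = prX cs X := by
    apply Artin.hom_ext
    intro t
    simp
  exact DFunLike.congr_fun h a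

end Pool.Agent.L7h59.AR
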