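import Pool.Agent.L7h59.AR.Stm2

/-!
# Amalgam structures of Artin groups and Coxeter groups
-/

set_option autoImplicit false
set_option linter.unusedSectionVars false

namespace Pool.Agent.L7h59.AR

open CoxeterSystem Pool.Agent.Helper703.Cox Pool.Agent.TH5.BD
open Pool.Agent.Y110.FJ

theorem amg_of {G B : Type} [Group G] (M : CoxeterMatrix B) (s : B → G)
    (R : ∀ (H : Type) [Group H], H → H → ℕ → Prop)
    (hR0 : ∀ (H : Type) [Group H] (a b : H), R H a b 0)
    (hRm : ∀ (H H' : Type) [Group H] [Group H'] (f : H →* H') (a b : H) (m : ℕ),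
      R H a b m → R H' (f a) (f b) m)
    (hRi : ∀ (H H' : Type) [Group H] [Group H'] (f : H →* H') (a b : H) (m : ℕ),
      Function.Injective f → R H' (f a) (f b) m → R H a b m)
    (hs : ∀ i j, R G (s i) (s j) (M i j))
    (hgen : Subgroup.closure (Set.range s) = ⊤)
    (huniv : ∀ (H : Type) [Group H] (F : B → H), (∀ i j, R H (F i) (F j) (M i j)) →
      ∃ h : G →* H, ∀ i, h (s i) = F i)
    (v v' : B) (hv : M v v' = 0) :
    Amg (Subgroup.closure (s '' {v}ᶜ)) (Subgroup.closure (s '' {v'}ᶜ))
      (Subgroup.closure (s '' ({v}ᶜ ∩ {v'}ᶜ))) := by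
  classical
  have hvv : v ≠ v' := by
    rintro rfl
    rw [M.diagonal] at hv
    exact one_ne_zero hv
  have hA : ∀ i, i ≠ v → s i ∈ Subgroup.closure (s '' {v}ᶜ) := fun i hi =>
    Subgroup.subset_closure ⟨i, hi, rfl⟩
  have hB : ∀ i, i ≠ v' → s i ∈ Subgroup.closure (s '' {v'}ᶜ) := fun i hi =>
    Subgroup.subset_closure ⟨i, hi, rfl⟩
  refine ⟨Subgroup.closure_mono (Set.image_mono Set.inter_subset_left),
    Subgroup.closure_mono (Set.image_mono Set.inter_subset_right), ?_, ?_⟩
  · rw [eq_top_iff, ← hgen, Subgroup.closure_le]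
    rintro _ ⟨i, rfl⟩
    by_cases hi : i = v
    · exact Subgroup.mem_sup_right (hB i (by rw [hi]; exact hvv))
    · exact Subgroup.mem_sup_left (hA i hi)
  · intro H _ f g hfg
    obtain ⟨F, hF⟩ : ∃ F : B → H, F = fun i => if hi : i = v then
      g ⟨s i, hB i (by rw [hi]; exact hvv)⟩ else f ⟨s i, hA i hi⟩ := ⟨_, rfl⟩
    have hFA : ∀ i (hi : i ≠ v), F i = f ⟨s i, hA i hi⟩ := by
      intro i hi
      rw [hF]
      exact dif_neg hi
    have hFB : ∀ i (hi : i ≠ v'), F i = g ⟨s i, hB i hi⟩ := by
      intro i hi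
      by_cases hiv : i = v
      · rw [hF]
        exact dif_pos hiv
      · rw [hFA i hiv]
        exact hfg (s i) (Subgroup.subset_closure ⟨i, ⟨hiv, hi⟩, rfl⟩)
    have hrel : ∀ i j, R H (F i) (F j) (M i j) := by
      intro i j
      have both1 : i ≠ v → j ≠ v → R H (F i) (F j) (M i j) := by
        intro hi hj
        rw [hFA i hi, hFA j hj]
        exact hRm _ _ f _ _ _ (hRi _ _ (Subgroup.subtype _) ⟨s i, hA i hi⟩ ⟨s j, hA j hj⟩ _
          Subtype.val_injective (hs i j))
      have both2 : i ≠ v' → j ≠ v' → R H (F i) (F j) (M i j) := by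
        intro hi hj
        rw [hFB i hi, hFB j hj]
        exact hRm _ _ g _ _ _ (hRi _ _ (Subgroup.subtype _) ⟨s i, hB i hi⟩ ⟨s j, hB j hj⟩ _
          Subtype.val_injective (hs i j))
      by_cases hi : i = v
      · by_cases hj : j = v'
        · rw [hi, hj, hv]
          exact hR0 _ _ _
        · exact both2 (by rw [hi]; exact hvv) hj
      · by_cases hj : j = v
        · by_cases hi' : i = v'
          · rw [hi', hj, M.symmetric, hv]
            exact hR0 _ _ _
          · exact both2 hi' (by rw [hj]; exact hvv)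
        · exact both1 hi hj
    obtain ⟨h, hh⟩ := huniv H F hrel
    refine ⟨h, ?_, ?_⟩
    · have h1 : h.comp (Subgroup.subtype _) = f := by
        apply MonoidHom.eq_of_eqOn_dense (s := {x | ∃ i, ∃ hi : i ≠ v, x = ⟨s i, hA i hi⟩})
        · rw [eq_top_iff]
          rintro ⟨x, hx⟩ _
          induction hx using Subgroup.closure_induction with
          | mem x hx =>
            obtain ⟨i, hi, rfl⟩ := hx
            exact Subgroup.subset_closure ⟨i, hi, rfl⟩
          | one => exact Subgroup.one_mem _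
          | mul x y _ _ hx hy => exact Subgroup.mul_mem _ (hx trivial) (hy trivial)
          | inv x _ hx => exact Subgroup.inv_mem _ (hx trivial)
        · rintro _ ⟨i, hi, rfl⟩
          rw [← hFA i hi]
          exact hh i
      exact fun a => DFunLike.congr_fun h1 a
    · have h1 : h.comp (Subgroup.subtype _) = g := by
        apply MonoidHom.eq_of_eqOn_dense (s := {x | ∃ i, ∃ hi : i ≠ v', x = ⟨s i, hB i hi⟩})
        · rw [eq_top_iff]
          rintro ⟨x, hx⟩ _
          induction hx using Subgroup.closure_induction with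
          | mem x hx =>
            obtain ⟨i, hi, rfl⟩ := hx
            exact Subgroup.subset_closure ⟨i, hi, rfl⟩
          | one => exact Subgroup.one_mem _
          | mul x y _ _ hx hy => exact Subgroup.mul_mem _ (hx trivial) (hy trivial)
          | inv x _ hx => exact Subgroup.inv_mem _ (hx trivial)
        · rintro _ ⟨i, hi, rfl⟩
          rw [← hFB i hi]
          exact hh i
      exact fun a => DFunLike.congr_fun h1 a

theorem range_io {B : Type} [Fintype B] [DecidableEq B] (M : CoxeterMatrix B) (X : Set B) :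
    (io M X).range = Subgroup.closure (Artin.gen M '' X) := by
  rw [MonoidHom.range_eq_map, ← Artin.closure_range_gen, MonoidHom.map_closure]
  congr 1
  ext x
  constructor
  · rintro ⟨_, ⟨t, rfl⟩, rfl⟩
    exact ⟨t, t.2, (io_gen X t).symm⟩
  · rintro ⟨t, ht, rfl⟩
    exact ⟨_, ⟨⟨t, ht⟩, rfl⟩, io_gen X ⟨t, ht⟩⟩

theorem s_ama : S_AMA := by
  intro B _ _ M v v' hv
  rw [range_io, range_io, range_io]
  refine amg_of M (Artin.gen M) (fun H _ a b m => alt a b m = alt b a m) ?_ ?_ ?_ ?_ ?_ ?_ v v' hv
  · intro H _ a b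
    simp
  · intro H H' _ _ f a b m h
    show alt (f a) (f b) m = alt (f b) (f a) m
    rw [← map_alt, ← map_alt, h]
  · intro H H' _ _ f a b m hf h
    apply hf
    rw [map_alt, map_alt]
    exact h
  · exact fun i j => Artin.rel i j
  · exact Artin.closure_range_gen
  · intro H _ F hF
    exact ⟨Artin.lift F hF, fun i => Artin.lift_gen _ _ _⟩

theorem s_amw : S_AMW := by
  intro B W _ M cs v v' hv
  refine amg_of M cs.simple (fun H _ a b m => (a * b) ^ m = 1) ?_ ?_ ?_ ?_ ?_ ?_ v v' hv
  · intro H _ a b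
    simp
  · intro H H' _ _ f a b m h
    show (f a * f b) ^ m = 1
    rw [← map_mul, ← map_pow, h, map_one]
  · intro H H' _ _ f a b m hf h
    apply hf
    rw [map_pow, map_mul, map_one]
    exact h
  · exact fun i j => cs.simple_mul_simple_pow i j
  · exact cs.subgroup_closure_range_simple
  · intro H _ F hF
    exact ⟨cs.lift ⟨F, hF⟩, fun i => cs.lift_apply_simple hF i⟩

end Pool.Agent.L7h59.AR
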