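import Pool.Agent.L7h59.AR.Stm2

/-!
# Artin groups of any rank are colimits of Artin groups of finite rank
-/

set_option autoImplicit false

namespace Pool.Agent.L7h59.AR

open Pool.Agent.Y110.FJ
open Pool.Agent.Y462.SS (Closed)
open Pool.Agent.Helper703.Cox Pool.Agent.TH5.BD

variable {B : Type} (M : CoxeterMatrix B)

/-- inclusions -/
def jo (X Y : Set B) (h : X ⊆ Y) : Artin (rs M X) →* Artin (rs M Y) :=
  Artin.lift (fun t => Artin.gen (rs M Y) ⟨t, h t.2⟩)
    (fun i j => Artin.rel (M := rs M Y) ⟨i, h i.2⟩ ⟨j, h j.2⟩)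

/-- the inclusion in the whole group -/
def ko (X : Set B) : Artin (rs M X) →* Artin M :=
  Artin.lift (fun t => Artin.gen M t) (fun i j => Artin.rel (M := M) (i : B) (j : B))

@[simp] theorem jo_gen (X Y : Set B) (h : X ⊆ Y) (t : X) :
    jo M X Y h (Artin.gen _ t) = Artin.gen (rs M Y) ⟨t, h t.2⟩ := Artin.lift_gen _ _ _

@[simp] theorem ko_gen (X : Set B) (t : X) : ko M X (Artin.gen _ t) = Artin.gen M t :=
  Artin.lift_gen _ _ _

open Classical in
/-- the generators outside of `Y` are killed -/
noncomputable def ry (Y : Set B) : FreeGroup B →* Artin (rs M Y) :=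
  FreeGroup.lift (fun b => if h : b ∈ Y then Artin.gen (rs M Y) ⟨b, h⟩ else 1)

theorem ry_of {Y : Set B} {b : B} (h : b ∈ Y) :
    ry M Y (FreeGroup.of b) = Artin.gen (rs M Y) ⟨b, h⟩ := by
  unfold ry
  rw [FreeGroup.lift_apply_of, dif_pos h]

/-- the elements which die for all large `Y` -/
def dead : Subgroup (FreeGroup B) where
  carrier := {y | ∃ Y0 : Finset B, ∀ Y : Set B, (Y0 : Set B) ⊆ Y → ry M Y y = 1}
  one_mem' := ⟨∅, fun Y _ => map_one _⟩
  mul_mem' := by
    classical
    rintro a b ⟨Y0, h0⟩ ⟨Y1, h1⟩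
    refine ⟨Y0 ∪ Y1, fun Y hY => ?_⟩
    rw [Finset.coe_union, Set.union_subset_iff] at hY
    rw [map_mul, h0 Y hY.1, h1 Y hY.2, one_mul]
  inv_mem' := by
    rintro a ⟨Y0, h0⟩
    exact ⟨Y0, fun Y hY => by rw [map_inv, h0 Y hY, inv_one]⟩

theorem dead_normal : (dead M).Normal where
  conj_mem := by
    rintro a ⟨Y0, h0⟩ g
    exact ⟨Y0, fun Y hY => by rw [map_mul, map_mul, h0 Y hY, mul_one, ← map_mul, mul_inv_cancel,
      map_one]⟩

theorem dead_rel (i j : B) : alt (FreeGroup.of i) (FreeGroup.of j) (M i j) *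
    (alt (FreeGroup.of j) (FreeGroup.of i) (M i j))⁻¹ ∈ dead M := by
  classical
  refine ⟨{i, j}, fun Y hY => ?_⟩
  have hi : i ∈ Y := hY (by simp)
  have hj : j ∈ Y := hY (by simp)
  rw [map_mul, map_inv, map_alt, map_alt, ry_of M hi, ry_of M hj, mul_inv_eq_one]
  exact Artin.rel (M := rs M Y) ⟨i, hi⟩ ⟨j, hj⟩

theorem dead_of {y : FreeGroup B} (h : PresentedGroup.mk (Set.range (fun p : B × B =>
      ((List.range (M p.1 p.2)).map
          (fun t => if Even t then FreeGroup.of p.1 else FreeGroup.of p.2)).prod *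
      (((List.range (M p.1 p.2)).map
          (fun t => if Even t then FreeGroup.of p.2 else FreeGroup.of p.1)).prod)⁻¹)) y = 1) :
    y ∈ dead M := by
  have h1 : y ∈ Subgroup.normalClosure (Set.range (fun p : B × B =>
      ((List.range (M p.1 p.2)).map
          (fun t => if Even t then FreeGroup.of p.1 else FreeGroup.of p.2)).prod *
      (((List.range (M p.1 p.2)).map
          (fun t => if Even t then FreeGroup.of p.2 else FreeGroup.of p.1)).prod)⁻¹)) :=
    (QuotientGroup.eq_one_iff y).1 h
  have hn := dead_normal M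
  refine Subgroup.normalClosure_le_normal (N := dead M) ?_ h1
  rintro _ ⟨⟨i, j⟩, rfl⟩
  exact dead_rel M i j

theorem ko_ker (X : Finset B) (x : Artin (rs M (X : Set B))) (h : ko M X x = 1) :
    ∃ (Y : Finset B) (hXY : X ⊆ Y), jo M X Y (by exact_mod_cast hXY) x = 1 := by
  classical
  obtain ⟨y, rfl⟩ : ∃ y : FreeGroup ((X : Set B) : Type), PresentedGroup.mk _ y = x :=
    QuotientGroup.mk_surjective x
  have h1 : FreeGroup.map (fun t : (X : Set B) => (t : B)) y ∈ dead M := by
    apply dead_of
    have h2 : (PresentedGroup.mk (Set.range (fun p : B × B =>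
      ((List.range (M p.1 p.2)).map
          (fun t => if Even t then FreeGroup.of p.1 else FreeGroup.of p.2)).prod *
      (((List.range (M p.1 p.2)).map
          (fun t => if Even t then FreeGroup.of p.2 else FreeGroup.of p.1)).prod)⁻¹))).comp
        (FreeGroup.map (fun t : (X : Set B) => (t : B))) = (ko M X).comp (PresentedGroup.mk _) := by
      apply FreeGroup.ext_hom
      intro t
      have h3 : ko M X (Artin.gen _ t) = Artin.gen M t := ko_gen M X t
      rw [MonoidHom.comp_apply, MonoidHom.comp_apply, FreeGroup.map.of]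
      exact h3.symm
    have h3 := DFunLike.congr_fun h2 y
    rw [MonoidHom.comp_apply, MonoidHom.comp_apply] at h3
    rw [h3]
    exact h
  obtain ⟨Y0, hY0⟩ := h1
  refine ⟨X ∪ Y0, Finset.subset_union_left, ?_⟩
  have h4 := hY0 ((X ∪ Y0 : Finset B) : Set B) (by exact_mod_cast Finset.subset_union_right)
  have h5 : (ry M ((X ∪ Y0 : Finset B) : Set B)).comp
      (FreeGroup.map (fun t : (X : Set B) => (t : B))) =
      (jo M X ((X ∪ Y0 : Finset B) : Set B)
        (by exact_mod_cast Finset.subset_union_left)).comp (PresentedGroup.mk _) := by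
    apply FreeGroup.ext_hom
    intro t
    have h6 : (t : B) ∈ ((X ∪ Y0 : Finset B) : Set B) := by
      have := t.2
      rw [Finset.coe_union]
      exact Or.inl this
    have h7 := jo_gen M X ((X ∪ Y0 : Finset B) : Set B)
      (by exact_mod_cast Finset.subset_union_left) t
    rw [MonoidHom.comp_apply, MonoidHom.comp_apply, FreeGroup.map.of, ry_of M h6]
    exact h7.symm
  have h6 := DFunLike.congr_fun h5 y
  rw [MonoidHom.comp_apply, MonoidHom.comp_apply, h4] at h6
  exact h6.symm

theorem s_any : S_ANY := by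
  classical
  intro C hC B M hX
  refine hC.colim (Finset B) (fun i j => ⟨i ∪ j, Finset.subset_union_left,
    Finset.subset_union_right⟩) (fun X => Artin (rs M (X : Set B)))
    (fun X Y h => jo M X Y (by exact_mod_cast h)) (Artin M) (fun X => ko M X) ?_ ?_ ?_ ?_ ?_ ?_
  · intro X h x
    have : jo M X X (by exact_mod_cast h) = MonoidHom.id _ := by
      apply Artin.hom_ext
      intro t
      rw [jo_gen]
      rfl
    exact DFunLike.congr_fun this x
  · intro X Y Z h h' x
    have : (jo M Y Z (by exact_mod_cast h')).comp (jo M X Y (by exact_mod_cast h)) =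
        jo M X Z (by exact_mod_cast h.trans h') := by
      apply Artin.hom_ext
      intro t
      rw [MonoidHom.comp_apply, jo_gen, jo_gen, jo_gen]
    exact DFunLike.congr_fun this x
  · intro X Y h x
    have : (ko M Y).comp (jo M X Y (by exact_mod_cast h)) = ko M X := by
      apply Artin.hom_ext
      intro t
      rw [MonoidHom.comp_apply, jo_gen, ko_gen, ko_gen]
    exact DFunLike.congr_fun this x
  · intro y
    have hmono : ∀ (X Y : Finset B) (h : X ⊆ Y) (x : Artin (rs M (X : Set B))),
        ∃ x' : Artin (rs M (Y : Set B)), ko M Y x' = ko M X x := by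
      intro X Y h x
      refine ⟨jo M X Y (by exact_mod_cast h) x, ?_⟩
      have : (ko M Y).comp (jo M X Y (by exact_mod_cast h)) = ko M X := by
        apply Artin.hom_ext
        intro t
        rw [MonoidHom.comp_apply, jo_gen, ko_gen, ko_gen]
      exact DFunLike.congr_fun this x
    induction y using Artin.induction with
    | one => exact ⟨∅, 1, map_one _⟩
    | gen s => exact ⟨{s}, Artin.gen _ ⟨s, by simp⟩, ko_gen M _ _⟩
    | mul a b ha hb =>
      obtain ⟨X, x, hx⟩ := ha
      obtain ⟨Y, y, hy⟩ := hb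
      obtain ⟨x', hx'⟩ := hmono X (X ∪ Y) Finset.subset_union_left x
      obtain ⟨y', hy'⟩ := hmono Y (X ∪ Y) Finset.subset_union_right y
      exact ⟨X ∪ Y, x' * y', by rw [map_mul, hx', hy', hx, hy]⟩
    | inv a ha =>
      obtain ⟨X, x, hx⟩ := ha
      exact ⟨X, x⁻¹, by rw [map_inv, hx]⟩
  · intro X x hx
    obtain ⟨Y, h, hY⟩ := ko_ker M X x hx
    exact ⟨Y, h, hY⟩
  · intro X
    exact hX X X.finite_toSet

end Pool.Agent.L7h59.AR
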