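import Pool.Agent.TH5.BD.Para

/-!
# Parabolic subgroups of Coxeter groups: intersections, ranks
-/

set_option autoImplicit false
set_option linter.unusedSectionVars false

namespace Pool.Agent.L7h59.AR

open CoxeterSystem Pool.Agent.Helper703.Cox Pool.Agent.TH5.BD

variable {B : Type} [Fintype B] [DecidableEq B] {M : CoxeterMatrix B} {W : Type} [Group W]
  {cs : CoxeterSystem M W}

/-- Deodhar's lemma -/
theorem deo {X : Set B} {w : W} (hw : RMin cs X w) (s : B) :
    RMin cs X (cs.simple s * w) ∨ ∃ t ∈ X, cs.simple s * w = w * cs.simple t := by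
  by_contra hcon
  push Not at hcon
  obtain ⟨h1, h2⟩ := hcon
  unfold RMin at h1
  push Not at h1
  obtain ⟨t, ht, h3⟩ := h1
  apply h2 t ht
  have h4 : cs.length (cs.simple s * w * cs.simple t) < cs.length (cs.simple s * w) := by
    rcases rlen_cases (cs := cs) t (cs.simple s * w) with h | h
    · omega
    · exact h
  have h5 : 0 ≤ geo cs w (ee t) := Pool.Agent.Helper703.Cox.geo_nonneg cs w t (hw t ht)
  have h6 := geo_nonpos cs (cs.simple s * w) t h4
  rw [map_mul, Module.End.mul_apply, geo_simple] at h6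
  have hr : IsRoot cs (geo cs w (ee t)) := ⟨w, t, rfl⟩
  have h7 : geo cs w (ee t) = ee s := by
    by_contra hne
    have h8 := hr.simple_pos h5 hne
    exact (hr.sg s).not_nonpos h8 h6
  apply geo_injective cs
  apply LinearMap.ext
  intro v
  rw [map_mul, map_mul, Module.End.mul_apply, Module.End.mul_apply, geo_simple, geo_simple,
    sg_apply, sg_apply, map_sub, map_smul, h7, ← bf_ee, ← bf_ee, ← bf_geo cs w (ee t) v, h7]

/-- uniqueness of minimal representatives -/
theorem rmin_unique {X : Set B} {w w' : W} (hw : RMin cs X w) (hw' : RMin cs X w')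
    (h : w⁻¹ * w' ∈ Par cs X) : w = w' := by
  obtain ⟨x, hx⟩ : ∃ x, x = w⁻¹ * w' := ⟨_, rfl⟩
  rw [← hx] at h
  have e1 : w' = w * x := by rw [hx]; group
  have e2 : w = w' * x⁻¹ := by rw [hx]; group
  have h1 := hw.mul h
  have h2 := hw'.mul (Subgroup.inv_mem _ h)
  rw [← e1] at h1
  rw [← e2] at h2
  have h3 : cs.length x = 0 := by omega
  rw [cs.length_eq_zero_iff] at h3
  rw [e1, h3, mul_one]

theorem simple_ne_one (s : B) : cs.simple s ≠ 1 := by
  intro h
  have h1 := cs.length_simple s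
  rw [h, cs.length_one] at h1
  exact absurd h1 (by norm_num)

/-- a simple reflection which stabilizes the coset `w W_X` -/
theorem stab_simple {X : Set B} {w : W} (hw : RMin cs X w) {s : B}
    (h : w⁻¹ * (cs.simple s * w) ∈ Par cs X) : ∃ t ∈ X, cs.simple s * w = w * cs.simple t := by
  rcases deo hw s with h1 | h1
  · exfalso
    have h2 := rmin_unique hw h1 h
    exact simple_ne_one (cs := cs) s (by
      have h3 : cs.simple s * w = 1 * w := by rw [one_mul]; exact h2.symm
      exact mul_right_cancel h3)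
  · exact h1

/-- double cosets -/
theorem dbl (X Y : Set B) (w : W) : ∃ y d x, w = y * d * x ∧ y ∈ Par cs Y ∧ x ∈ Par cs X ∧
    RMin cs X d ∧ LMin cs Y d := by
  obtain ⟨w', x, e, hw', hx, hl⟩ := exists_rdec (cs := cs) X _ w rfl
  obtain ⟨y, d, e', hd, hy, hl'⟩ := exists_ldec (cs := cs) Y w'
  refine ⟨y, d, x, by rw [e, e'], hy, hx, ?_, hd⟩
  intro t ht
  by_contra hcon
  have h1 : cs.length (d * cs.simple t) < cs.length d := by
    rcases rlen_cases (cs := cs) t d with h | h
    · exact absurd h hcon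
    · exact h
  have h2 := hw' t ht
  have h3 := cs.length_mul_le y (d * cs.simple t)
  rw [← mul_assoc, ← e'] at h3
  omega

/-- Kilmoyer: the intersection of standard parabolic subgroups for a minimal double coset
representative -/
theorem kil {X Y : Set B} {d : W} (hd : RMin cs X d) (hd' : LMin cs Y d) :
    ∀ (n : ℕ) (u : W), cs.length u = n → u ∈ Par cs Y → ∃ d' x', u * d = d' * x' ∧
      RMin cs X d' ∧ x' ∈ Par cs X ∧ cs.length d ≤ cs.length d' ∧
      (cs.length d' = cs.length d → d' = d ∧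
        u ∈ Par cs {s | s ∈ Y ∧ ∃ t ∈ X, cs.simple s * d = d * cs.simple t}) := by
  intro n
  induction n with
  | zero =>
    intro u hu _
    rw [cs.length_eq_zero_iff] at hu
    subst hu
    exact ⟨d, 1, by simp, hd, Subgroup.one_mem _, le_rfl, fun _ => ⟨rfl, Subgroup.one_mem _⟩⟩
  | succ n ih =>
    intro u hu huY
    have hu1 : u ≠ 1 := by
      rintro rfl
      rw [cs.length_one] at hu
      omega
    obtain ⟨s, hs, hlt⟩ := par_ldescent huY hu1
    obtain ⟨u', hu'⟩ : ∃ u', u' = cs.simple s * u := ⟨_, rfl⟩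
    have e : u = cs.simple s * u' := by rw [hu', cs.simple_mul_simple_cancel_left]
    have hu'Y : u' ∈ Par cs Y := by rw [hu']; exact Subgroup.mul_mem _ (simple_mem_par hs) huY
    have hl' : cs.length u' = n := by
      rw [← hu'] at hlt
      rw [e] at hu hlt
      rcases cs.length_simple_mul u' s with h | h <;> omega
    obtain ⟨d', x', e1, h1, h2, h3, h4⟩ := ih u' hl' hu'Y
    have k1 := hd'.mul hu'Y
    have k2 := hd'.mul huY
    have k3 := h1.mul h2
    rcases deo h1 s with h5 | ⟨t, ht, h5⟩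
    · refine ⟨cs.simple s * d', x', ?_, h5, h2, ?_, ?_⟩
      · rw [e, mul_assoc, e1, mul_assoc]
      · have k4 := h5.mul h2
        have e2 : cs.simple s * d' * x' = u * d := by rw [e, mul_assoc, ← e1, mul_assoc]
        rw [e2] at k4
        rw [← e1] at k3
        omega
      · have k4 := h5.mul h2
        have e2 : cs.simple s * d' * x' = u * d := by rw [e, mul_assoc, ← e1, mul_assoc]
        rw [e2] at k4
        rw [← e1] at k3
        intro hh
        omega
    · refine ⟨d', cs.simple t * x', ?_, h1, Subgroup.mul_mem _ (simple_mem_par ht) h2, h3, ?_⟩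
      · rw [e, mul_assoc, e1, ← mul_assoc, h5, mul_assoc]
      · intro hh
        obtain ⟨h6, h7⟩ := h4 hh
        refine ⟨h6, ?_⟩
        rw [e]
        rw [h6] at h5
        exact Subgroup.mul_mem _ (simple_mem_par ⟨hs, t, ht, h5⟩) h7

variable (cs) in
/-- the parabolic subgroup `a W_X a⁻¹` -/
def Pb (a : W) (X : Finset B) : Subgroup W :=
  (Par cs (X : Set B)).map (MulAut.conj a).toMonoidHom

theorem mem_Pb {a g : W} {X : Finset B} : g ∈ Pb cs a X ↔ a⁻¹ * g * a ∈ Par cs (X : Set B) := by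
  constructor
  · rintro ⟨y, hy, rfl⟩
    have : a⁻¹ * ((MulAut.conj a).toMonoidHom y) * a = y := by
      simp [MulAut.conj_apply, mul_assoc]
    rw [this]
    exact hy
  · intro h
    refine ⟨_, h, ?_⟩
    simp [MulAut.conj_apply, mul_assoc]

theorem Pb_mul_right {a x : W} {X : Finset B} (hx : x ∈ Par cs (X : Set B)) :
    Pb cs (a * x) X = Pb cs a X := by
  ext g
  rw [mem_Pb, mem_Pb]
  have : (a * x)⁻¹ * g * (a * x) = x⁻¹ * (a⁻¹ * g * a) * x := by group
  rw [this]
  constructor
  · intro h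
    have h1 := Subgroup.mul_mem _ (Subgroup.mul_mem _ hx h) (Subgroup.inv_mem _ hx)
    have h2 : x * (x⁻¹ * (a⁻¹ * g * a) * x) * x⁻¹ = a⁻¹ * g * a := by group
    rwa [h2] at h1
  · intro h
    exact Subgroup.mul_mem _ (Subgroup.mul_mem _ (Subgroup.inv_mem _ hx) h) hx

/-- **the intersection of two parabolic subgroups is parabolic** -/
theorem inter (a b : W) (X Y : Finset B) : ∃ (c : W) (K : Finset B),
    Pb cs a X ⊓ Pb cs b Y = Pb cs c K ∧ (K.card < Y.card ∨ Pb cs b Y ≤ Pb cs a X) := by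
  classical
  obtain ⟨y, d, x, e, hy, hx, hd, hd'⟩ := dbl (cs := cs) (X : Set B) (Y : Set B) (b⁻¹ * a)
  have ea : a = b * y * d * x := by
    have : a = b * (b⁻¹ * a) := by group
    rw [this, e]
    group
  have h1 : Pb cs a X = Pb cs (b * y * d) X := by rw [ea]; exact Pb_mul_right hx
  have h2 : Pb cs b Y = Pb cs (b * y) Y := (Pb_mul_right hy).symm
  obtain ⟨K, hK⟩ : ∃ K : Finset B, K = Y.filter (fun s => ∃ t ∈ X, cs.simple s * d =
    d * cs.simple t) := ⟨_, rfl⟩
  have hKs : (K : Set B) = {s | s ∈ (Y : Set B) ∧ ∃ t ∈ (X : Set B), cs.simple s * d =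
      d * cs.simple t} := by
    rw [hK]
    ext s
    simp
  have hKle : Par cs (K : Set B) ≤ Pb cs d X := by
    unfold Par
    rw [Subgroup.closure_le]
    rintro _ ⟨s, hs, rfl⟩
    rw [SetLike.mem_coe, mem_Pb]
    rw [hKs] at hs
    obtain ⟨_, t, ht, h⟩ := hs
    have : d⁻¹ * cs.simple s * d = cs.simple t := by rw [mul_assoc, h]; group
    rw [this]
    exact simple_mem_par ht
  refine ⟨b * y, K, ?_, ?_⟩
  · rw [h1, h2]
    ext g
    rw [Subgroup.mem_inf, mem_Pb, mem_Pb, mem_Pb]
    have eg : (b * y * d)⁻¹ * g * (b * y * d) = d⁻¹ * ((b * y)⁻¹ * g * (b * y)) * d := by group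
    rw [eg]
    obtain ⟨u, hu⟩ : ∃ u, u = (b * y)⁻¹ * g * (b * y) := ⟨_, rfl⟩
    rw [← hu]
    constructor
    · rintro ⟨h3, h4⟩
      obtain ⟨d', x', e1, k1, k2, k3, k4⟩ := kil hd hd' _ u rfl h4
      have h5 : d = d' := by
        apply rmin_unique hd k1
        have e2 : d⁻¹ * d' = (d⁻¹ * u * d) * x'⁻¹ := by
          have : d' = u * d * x'⁻¹ := by rw [e1]; group
          rw [this]; group
        rw [e2]
        exact Subgroup.mul_mem _ h3 (Subgroup.inv_mem _ k2)
      rw [hKs]
      exact (k4 (by rw [h5])).2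
    · intro h3
      exact ⟨mem_Pb.1 (hKle h3), par_mono (by rw [hK]; exact_mod_cast Finset.filter_subset _ _) h3⟩
  · have hsub : K ⊆ Y := by rw [hK]; exact Finset.filter_subset _ _
    rcases (Finset.card_le_card hsub).lt_or_eq with h | h
    · exact Or.inl h
    · right
      have h3 : K = Y := Finset.eq_of_subset_of_card_le hsub h.ge
      rw [h1, h2]
      intro g hg
      rw [mem_Pb] at hg ⊢
      have eg : (b * y * d)⁻¹ * g * (b * y * d) = d⁻¹ * ((b * y)⁻¹ * g * (b * y)) * d := by group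
      rw [eg]
      rw [← h3] at hg
      exact mem_Pb.1 (hKle hg)

/-- ranks -/
theorem rank_le {c c' : W} {Z K : Finset B} (h : Pb cs c Z ≤ Pb cs c' K) :
    Z.card ≤ K.card ∧ (Z.card = K.card → Pb cs c Z = Pb cs c' K) := by
  classical
  -- `u W_Z u⁻¹ ≤ W_K` with `u = c'⁻¹ c`
  obtain ⟨y, d, x, e, hy, hx, hd, hd'⟩ := dbl (cs := cs) (Z : Set B) (K : Set B) (c'⁻¹ * c)
  have ec : c = c' * y * d * x := by
    have : c = c' * (c'⁻¹ * c) := by group
    rw [this, e]
    group
  have h1 : Pb cs c Z = Pb cs (c' * y * d) Z := by rw [ec]; exact Pb_mul_right hx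
  have h2 : Pb cs c' K = Pb cs (c' * y) K := (Pb_mul_right hy).symm
  have h3 : ∀ z ∈ Z, ∃ k ∈ K, d * cs.simple z = cs.simple k * d := by
    intro z hz
    have h4 : c' * y * d * cs.simple z * (c' * y * d)⁻¹ ∈ Pb cs (c' * y) K := by
      rw [← h2]
      apply h
      rw [h1, mem_Pb]
      have : (c' * y * d)⁻¹ * (c' * y * d * cs.simple z * (c' * y * d)⁻¹) * (c' * y * d) =
          cs.simple z := by group
      rw [this]
      exact simple_mem_par hz
    rw [mem_Pb] at h4
    have e1 : (c' * y)⁻¹ * (c' * y * d * cs.simple z * (c' * y * d)⁻¹) * (c' * y) =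
        d * cs.simple z * d⁻¹ := by group
    rw [e1] at h4
    have h5 := hd'.mul h4
    have e2 : d * cs.simple z * d⁻¹ * d = d * cs.simple z := by group
    rw [e2] at h5
    have h6 := hd z hz
    have h7 := cs.length_mul_le d (cs.simple z)
    rw [cs.length_simple] at h7
    have h8 : cs.length (d * cs.simple z * d⁻¹) = 1 := by omega
    obtain ⟨k, hk⟩ := cs.length_eq_one_iff.1 h8
    rw [hk] at h4
    have hkK : k ∈ K := by
      have := par_rdescent_mem (J := (K : Set B)) h4 (i := k) (by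
        rw [cs.simple_mul_simple_self, cs.length_one, cs.length_simple]; norm_num)
      exact this
    exact ⟨k, hkK, by rw [← hk]; group⟩
  choose! φ hφ hφ' using h3
  have hinj : Set.InjOn φ Z := by
    intro z hz z' hz' hzz
    have h4 := hφ' z hz
    have h5 := hφ' z' hz'
    rw [hzz, ← h5] at h4
    exact simple_injective cs (mul_left_cancel h4)
  have himg : Z.image φ ⊆ K := by
    intro k hk
    obtain ⟨z, hz, rfl⟩ := Finset.mem_image.1 hk
    exact hφ z hz
  have hcard : (Z.image φ).card = Z.card := Finset.card_image_of_injOn hinj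
  refine ⟨hcard ▸ Finset.card_le_card himg, fun hZK => le_antisymm h ?_⟩
  have h4 : Z.image φ = K := Finset.eq_of_subset_of_card_le himg (by rw [hcard, hZK])
  rw [h1, h2]
  intro g hg
  rw [mem_Pb] at hg ⊢
  have eg : (c' * y * d)⁻¹ * g * (c' * y * d) = d⁻¹ * ((c' * y)⁻¹ * g * (c' * y)) * d := by group
  rw [eg]
  have h5 : Par cs (K : Set B) ≤ Pb cs d Z := by
    unfold Par
    rw [Subgroup.closure_le]
    rintro _ ⟨k, hk, rfl⟩
    have hk' : k ∈ Z.image φ := by rw [h4]; exact hk
    obtain ⟨z, hz, rfl⟩ := Finset.mem_image.1 hk'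
    rw [SetLike.mem_coe, mem_Pb]
    have : d⁻¹ * cs.simple (φ z) * d = cs.simple z := by
      rw [mul_assoc, ← hφ' z hz]; group
    rw [this]
    exact simple_mem_par hz
  exact mem_Pb.1 (h5 hg)

variable (cs) in
/-- parabolic subgroups -/
def IsPb (P : Subgroup W) : Prop := ∃ (c : W) (Z : Finset B), P = Pb cs c Z

theorem IsPb.inf {P Q : Subgroup W} (hP : IsPb cs P) (hQ : IsPb cs Q) : IsPb cs (P ⊓ Q) := by
  obtain ⟨a, X, rfl⟩ := hP
  obtain ⟨b, Y, rfl⟩ := hQ
  obtain ⟨c, K, h, _⟩ := inter (cs := cs) a b X Y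
  exact ⟨c, K, h⟩

/-- **infinite intersections** -/
theorem chain {ι : Type} [Nonempty ι] (Q : ι → Subgroup W) (hQ : ∀ i, IsPb cs (Q i)) :
    IsPb cs (⨅ i, Q i) := by
  classical
  have hfin : ∀ S : Finset ι, S.Nonempty → IsPb cs (S.inf Q) := by
    intro S hS
    induction hS using Finset.Nonempty.cons_induction with
    | singleton i => simpa using hQ i
    | cons i S hi hS ih =>
      rw [Finset.inf_cons]
      exact (hQ i).inf ih
  have hex : ∃ n, ∃ (S : Finset ι) (c : W) (Z : Finset B), S.Nonempty ∧ S.inf Q = Pb cs c Z ∧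
      Z.card = n := by
    obtain ⟨i⟩ := ‹Nonempty ι›
    obtain ⟨c, Z, h⟩ := hQ i
    exact ⟨_, {i}, c, Z, Finset.singleton_nonempty i, by simpa using h, rfl⟩
  obtain ⟨S, c, Z, hS, h1, h2⟩ := Nat.find_spec hex
  have hmin : ∀ (S' : Finset ι) (c' : W) (Z' : Finset B), S'.Nonempty → S'.inf Q = Pb cs c' Z' →
      Z.card ≤ Z'.card := by
    intro S' c' Z' hS' h'
    rw [h2]
    exact Nat.find_min' hex ⟨S', c', Z', hS', h', rfl⟩
  refine ⟨c, Z, le_antisymm ?_ ?_⟩
  · rw [← h1]
    exact Finset.le_inf fun i _ => iInf_le _ i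
  · refine le_iInf fun i => ?_
    obtain ⟨a, X, hX⟩ := hQ i
    obtain ⟨c', K, h3, h4⟩ := inter (cs := cs) a c X Z
    rcases h4 with h4 | h4
    · exfalso
      have h5 : (insert i S).inf Q = Pb cs c' K := by
        rw [Finset.inf_insert, h1, hX, h3]
      have := hmin _ _ _ (Finset.insert_nonempty i S) h5
      omega
    · rw [hX]
      exact h4

theorem IsPb.eq_of_conj {P : Subgroup W} (hP : IsPb cs P) (w : W)
    (h : P ≤ P.map (MulAut.conj w).toMonoidHom) : P = P.map (MulAut.conj w).toMonoidHom := by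
  obtain ⟨c, Z, rfl⟩ := hP
  have e : (Pb cs c Z).map (MulAut.conj w).toMonoidHom = Pb cs (w * c) Z := by
    unfold Pb
    rw [Subgroup.map_map]
    congr 1
    ext x
    simp [MulAut.conj_apply, mul_assoc]
  rw [e] at h ⊢
  exact (rank_le h).2 rfl

end Pool.Agent.L7h59.AR
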