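import Pool.Agent.L7h59.AR.Eppa

/-!
# Extension of partial automorphisms of finite Coxeter matrices, faithful for cliques

The theorem of Hodkinson and Otto for finite graphs with labels, by the valuation construction of
Hubička, Konečný and Nešetřil: every complete set of the large matrix is isomorphic to a complete set
of the small one.
-/

set_option autoImplicit false
set_option linter.unusedSectionVars false

namespace Pool.Agent.L7h59.AR

section val

variable {S T : Type} [Finite T] (M : CoxeterMatrix T) (ι : S → T) (τ : Equiv.Perm T)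

/-- complete sets which cannot be moved into the small structure -/
def Bad (Y : Finset T) : Prop :=
  (∀ i ∈ Y, ∀ j ∈ Y, M i j ≠ 0) ∧ ∀ k : ℤ, ∃ y ∈ Y, (τ ^ k) y ∉ Set.range ι

variable {M ι τ}

theorem mem_map_iff (Y : Finset T) (x : T) : τ x ∈ Y.map τ.toEmbedding ↔ x ∈ Y := by
  constructor
  · intro h
    obtain ⟨y, hy, h4⟩ := Finset.mem_map.1 h
    have : y = x := τ.injective h4
    rwa [← this]
  · intro h
    exact Finset.mem_map.2 ⟨x, h, rfl⟩

theorem map_symm_map (Y : Finset T) : (Y.map τ.symm.toEmbedding).map τ.toEmbedding = Y := by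
  ext x
  simp

theorem map_map_symm (Y : Finset T) : (Y.map τ.toEmbedding).map τ.symm.toEmbedding = Y := by
  ext x
  simp

theorem bad_map (hτ : ∀ x y, M (τ x) (τ y) = M x y) {Y : Finset T} :
    Bad M ι τ (Y.map τ.toEmbedding) ↔ Bad M ι τ Y := by
  constructor
  · rintro ⟨h1, h2⟩
    refine ⟨fun i hi j hj => ?_, fun k => ?_⟩
    · rw [← hτ]
      exact h1 _ ((mem_map_iff Y i).2 hi) _ ((mem_map_iff Y j).2 hj)
    · obtain ⟨y, hy, h3⟩ := h2 (k - 1)
      obtain ⟨z, hz, rfl⟩ := Finset.mem_map.1 hy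
      refine ⟨z, hz, ?_⟩
      have e : (τ ^ (k - 1)) (τ z) = (τ ^ k) z := by
        have h4 : τ ^ k = τ ^ (k - 1) * τ := by
          rw [← zpow_add_one, sub_add_cancel]
        rw [h4]
        rfl
      rw [← e]
      exact h3
  · rintro ⟨h1, h2⟩
    refine ⟨fun i hi j hj => ?_, fun k => ?_⟩
    · obtain ⟨i', hi', rfl⟩ := Finset.mem_map.1 hi
      obtain ⟨j', hj', rfl⟩ := Finset.mem_map.1 hj
      show M (τ i') (τ j') ≠ 0
      rw [hτ]
      exact h1 i' hi' j' hj'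
    · obtain ⟨y, hy, h3⟩ := h2 (k + 1)
      refine ⟨τ y, (mem_map_iff Y y).2 hy, ?_⟩
      have e : (τ ^ k) (τ y) = (τ ^ (k + 1)) y := by
        rw [zpow_add_one]
        rfl
      rw [e]
      exact h3

variable (M ι τ) in
/-- admissible valuations -/
def Adm (b : Finset T → T) (p : T × (Finset T → T)) : Prop :=
  ∀ Y : Finset T, (Bad M ι τ Y → p.2 Y ∈ Y ∧ (p.2 Y = b Y ↔ p.1 ∉ Y)) ∧
    (¬ Bad M ι τ Y → p.2 Y = p.1)

variable (M ι τ) in
/-- compatible pairs -/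
def Cmp (p q : T × (Finset T → T)) : Prop :=
  p.1 ≠ q.1 ∧ ∀ Y : Finset T, Bad M ι τ Y → p.1 ∈ Y → q.1 ∈ Y → p.2 Y ≠ q.2 Y

theorem Cmp.symm {p q : T × (Finset T → T)} (h : Cmp M ι τ p q) : Cmp M ι τ q p :=
  ⟨h.1.symm, fun Y hY hq hp => (h.2 Y hY hp hq).symm⟩

open Classical in
variable (M ι τ) in
/-- the matrix with valuations -/
noncomputable def valM (b : Finset T → T) : CoxeterMatrix {p // Adm M ι τ b p} where
  M := Matrix.of fun p q => if p = q then 1 else if Cmp M ι τ p.1 q.1 then M p.1.1 q.1.1 else 0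
  isSymm := by
    ext p q
    simp only [Matrix.transpose_apply, Matrix.of_apply]
    by_cases h : p = q
    · simp [h]
    · by_cases h1 : Cmp M ι τ p.1 q.1
      · rw [if_neg (fun h2 => h h2.symm), if_neg h, if_pos h1.symm, if_pos h1, M.symmetric]
      · rw [if_neg (fun h2 => h h2.symm), if_neg h, if_neg (fun h2 => h1 h2.symm), if_neg h1]
  diagonal := by simp
  off_diagonal := by
    intro p q h
    simp only [Matrix.of_apply, if_neg h]
    split_ifs with h1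
    · exact M.off_diagonal _ _ h1.1
    · norm_num

theorem valM_pos {b : Finset T → T} {p q : {p // Adm M ι τ b p}} (h : Cmp M ι τ p.1 q.1) :
    valM M ι τ b p q = M p.1.1 q.1.1 := by
  classical
  show (if p = q then 1 else if Cmp M ι τ p.1 q.1 then M p.1.1 q.1.1 else 0) = _
  rw [if_neg (fun h2 => h.1 (by rw [h2])), if_pos h]

theorem valM_neg {b : Finset T → T} {p q : {p // Adm M ι τ b p}} (h : ¬ Cmp M ι τ p.1 q.1)
    (hne : p ≠ q) : valM M ι τ b p q = 0 := by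
  classical
  show (if p = q then 1 else if Cmp M ι τ p.1 q.1 then M p.1.1 q.1.1 else 0) = _
  rw [if_neg hne, if_neg h]

theorem valM_cmp {b : Finset T → T} {p q : {p // Adm M ι τ b p}} (h : valM M ι τ b p q ≠ 0)
    (hne : p ≠ q) : Cmp M ι τ p.1 q.1 := by
  by_contra h1
  exact h (valM_neg h1 hne)

/-- **complete sets are good** -/
theorem val_clique {b : Finset T → T} (hb : ∀ Y, Bad M ι τ Y → b Y ∈ Y)
    (X : Set {p // Adm M ι τ b p})
    (hX : ∀ i ∈ X, ∀ j ∈ X, valM M ι τ b i j ≠ 0) :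
    (∀ i ∈ X, ∀ j ∈ X, i.1.1 = j.1.1 → i = j) ∧
      ∃ k : ℤ, ∀ i ∈ X, (τ ^ k) i.1.1 ∈ Set.range ι := by
  classical
  have hinj : ∀ i ∈ X, ∀ j ∈ X, i.1.1 = j.1.1 → i = j := by
    intro i hi j hj hij
    by_contra hne
    exact (valM_cmp (hX i hi j hj) hne).1 hij
  refine ⟨hinj, ?_⟩
  have hXf : X.Finite := Set.toFinite X
  obtain ⟨X', hX'⟩ : ∃ X' : Finset {p // Adm M ι τ b p}, ∀ x, x ∈ X' ↔ x ∈ X :=
    ⟨hXf.toFinset, fun x => hXf.mem_toFinset⟩
  obtain ⟨Y, hY⟩ : ∃ Y : Finset T, Y = X'.image fun p => p.1.1 := ⟨_, rfl⟩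
  by_contra hcon
  push Not at hcon
  have hbad : Bad M ι τ Y := by
    refine ⟨?_, fun k => ?_⟩
    · intro i hi j hj
      rw [hY, Finset.mem_image] at hi hj
      obtain ⟨p, hp, rfl⟩ := hi
      obtain ⟨q, hq, rfl⟩ := hj
      rw [hX'] at hp hq
      by_cases hpq : p = q
      · rw [hpq, M.diagonal]
        exact one_ne_zero
      · have h1 := hX p hp q hq
        rwa [valM_pos (valM_cmp h1 hpq)] at h1
    · obtain ⟨i, hi, h1⟩ := hcon k
      refine ⟨i.1.1, ?_, h1⟩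
      rw [hY, Finset.mem_image]
      exact ⟨i, (hX' i).2 hi, rfl⟩
  have hmem : ∀ p ∈ X', p.1.1 ∈ Y := fun p hp => by
    rw [hY]
    exact Finset.mem_image_of_mem _ hp
  -- counting
  have h1 : X'.card ≤ (Y.erase (b Y)).card := by
    refine Finset.card_le_card_of_injOn (fun p => p.1.2 Y) ?_ ?_
    · intro p hp
      have h2 := (p.2 Y).1 hbad
      rw [Finset.mem_coe, Finset.mem_erase]
      exact ⟨fun h3 => (h2.2.1 h3) (hmem p hp), h2.1⟩
    · intro p hp q hq hpq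
      by_contra hne
      have h3 := valM_cmp (hX p ((hX' p).1 hp) q ((hX' q).1 hq)) hne
      exact h3.2 Y hbad (hmem p hp) (hmem q hq) hpq
  have h2 : Y.card = X'.card := by
    rw [hY]
    refine Finset.card_image_of_injOn fun p hp q hq h => ?_
    exact hinj p ((hX' p).1 hp) q ((hX' q).1 hq) h
  have h3 := Finset.card_erase_lt_of_mem (hb Y hbad)
  omega

open Classical in
variable (M ι τ) in
/-- the change of the values -/
noncomputable def piv (b : Finset T → T) (Y : Finset T) : Equiv.Perm T :=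
  if Bad M ι τ Y then τ.trans (Equiv.swap (τ (b Y)) (b (Y.map τ.toEmbedding))) else τ

theorem piv_neg (b : Finset T → T) {Y : Finset T} (hY : ¬ Bad M ι τ Y) : piv M ι τ b Y = τ := by
  unfold piv
  rw [if_neg hY]

open Classical in
theorem piv_pos (b : Finset T → T) {Y : Finset T} (hY : Bad M ι τ Y) (x : T) :
    piv M ι τ b Y x = Equiv.swap (τ (b Y)) (b (Y.map τ.toEmbedding)) (τ x) := by
  unfold piv
  rw [if_pos hY]
  rfl

theorem piv_b (b : Finset T → T) {Y : Finset T} (hY : Bad M ι τ Y) :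
    piv M ι τ b Y (b Y) = b (Y.map τ.toEmbedding) := by
  classical
  rw [piv_pos b hY]
  exact Equiv.swap_apply_left _ _

theorem piv_mem (hτ : ∀ x y, M (τ x) (τ y) = M x y) {b : Finset T → T}
    (hb : ∀ Y, Bad M ι τ Y → b Y ∈ Y) {Y : Finset T} (hY : Bad M ι τ Y) (x : T) :
    piv M ι τ b Y x ∈ Y.map τ.toEmbedding ↔ x ∈ Y := by
  classical
  have h1 : τ (b Y) ∈ Y.map τ.toEmbedding := (mem_map_iff Y _).2 (hb Y hY)
  have h2 : b (Y.map τ.toEmbedding) ∈ Y.map τ.toEmbedding := hb _ ((bad_map hτ).2 hY)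
  rw [piv_pos b hY]
  by_cases e1 : τ x = τ (b Y)
  · have e2 : x = b Y := τ.injective e1
    rw [e1, Equiv.swap_apply_left, e2]
    exact ⟨fun _ => hb Y hY, fun _ => h2⟩
  · by_cases e2 : τ x = b (Y.map τ.toEmbedding)
    · rw [e2, Equiv.swap_apply_right]
      refine ⟨fun _ => (mem_map_iff Y x).1 (by rw [e2]; exact h2), fun _ => h1⟩
    · rw [Equiv.swap_apply_of_ne_of_ne e1 e2]
      exact mem_map_iff Y x

variable (M ι τ) in
/-- the automorphism of all pairs -/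
noncomputable def ext0 (b : Finset T → T) : Equiv.Perm (T × (Finset T → T)) where
  toFun p := (τ p.1, fun Y => piv M ι τ b (Y.map τ.symm.toEmbedding)
    (p.2 (Y.map τ.symm.toEmbedding)))
  invFun p := (τ.symm p.1, fun Y => (piv M ι τ b Y).symm (p.2 (Y.map τ.toEmbedding)))
  left_inv p := by
    refine Prod.ext (τ.symm_apply_apply _) ?_
    funext Y
    show (piv M ι τ b Y).symm (piv M ι τ b ((Y.map τ.toEmbedding).map τ.symm.toEmbedding)
      (p.2 ((Y.map τ.toEmbedding).map τ.symm.toEmbedding))) = p.2 Y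
    rw [map_map_symm, Equiv.symm_apply_apply]
  right_inv p := by
    refine Prod.ext (τ.apply_symm_apply _) ?_
    funext Y
    show piv M ι τ b (Y.map τ.symm.toEmbedding) ((piv M ι τ b (Y.map τ.symm.toEmbedding)).symm
      (p.2 ((Y.map τ.symm.toEmbedding).map τ.toEmbedding))) = p.2 Y
    rw [Equiv.apply_symm_apply, map_symm_map]

theorem ext0_fst (b : Finset T → T) (p : T × (Finset T → T)) : (ext0 M ι τ b p).1 = τ p.1 := rfl

theorem ext0_snd (b : Finset T → T) (p : T × (Finset T → T)) (Y : Finset T) :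
    (ext0 M ι τ b p).2 (Y.map τ.toEmbedding) = piv M ι τ b Y (p.2 Y) := by
  show piv M ι τ b ((Y.map τ.toEmbedding).map τ.symm.toEmbedding)
      (p.2 ((Y.map τ.toEmbedding).map τ.symm.toEmbedding)) = _
  rw [map_map_symm]

theorem ex_map (Y : Finset T) : ∃ Z : Finset T, Y = Z.map τ.toEmbedding :=
  ⟨Y.map τ.symm.toEmbedding, (map_symm_map Y).symm⟩

theorem ext0_adm (hτ : ∀ x y, M (τ x) (τ y) = M x y) {b : Finset T → T}
    (hb : ∀ Y, Bad M ι τ Y → b Y ∈ Y) (p : T × (Finset T → T)) :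
    Adm M ι τ b (ext0 M ι τ b p) ↔ Adm M ι τ b p := by
  have key : ∀ Z : Finset T, (((Bad M ι τ (Z.map τ.toEmbedding) →
      (ext0 M ι τ b p).2 (Z.map τ.toEmbedding) ∈ Z.map τ.toEmbedding ∧
      ((ext0 M ι τ b p).2 (Z.map τ.toEmbedding) = b (Z.map τ.toEmbedding) ↔
        (ext0 M ι τ b p).1 ∉ Z.map τ.toEmbedding)) ∧
      (¬ Bad M ι τ (Z.map τ.toEmbedding) → (ext0 M ι τ b p).2 (Z.map τ.toEmbedding) =
        (ext0 M ι τ b p).1)) ↔
      ((Bad M ι τ Z → p.2 Z ∈ Z ∧ (p.2 Z = b Z ↔ p.1 ∉ Z)) ∧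
        (¬ Bad M ι τ Z → p.2 Z = p.1))) := by
    intro Z
    rw [bad_map hτ, ext0_snd, ext0_fst, mem_map_iff]
    by_cases hZ : Bad M ι τ Z
    · rw [piv_mem hτ hb hZ, ← piv_b b hZ, (piv M ι τ b Z).injective.eq_iff]
      constructor
      · rintro ⟨h1, -⟩
        exact ⟨h1, fun h => absurd hZ h⟩
      · rintro ⟨h1, -⟩
        exact ⟨h1, fun h => absurd hZ h⟩
    · rw [piv_neg b hZ, τ.injective.eq_iff]
      constructor
      · rintro ⟨-, h2⟩
        exact ⟨fun h => absurd h hZ, h2⟩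
      · rintro ⟨-, h2⟩
        exact ⟨fun h => absurd h hZ, h2⟩
  constructor
  · intro h Y
    exact (key Y).1 (h _)
  · intro h Y
    obtain ⟨Z, rfl⟩ := ex_map (τ := τ) Y
    exact (key Z).2 (h Z)

theorem ext0_cmp (hτ : ∀ x y, M (τ x) (τ y) = M x y) {b : Finset T → T}
    (p q : T × (Finset T → T)) :
    Cmp M ι τ (ext0 M ι τ b p) (ext0 M ι τ b q) ↔ Cmp M ι τ p q := by
  constructor
  · rintro ⟨h1, h2⟩
    refine ⟨fun h => h1 (congrArg τ h), fun Y hY hp hq hpq => ?_⟩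
    refine h2 _ ((bad_map hτ).2 hY) ((mem_map_iff Y p.1).2 hp) ((mem_map_iff Y q.1).2 hq) ?_
    rw [ext0_snd, ext0_snd, hpq]
  · rintro ⟨h1, h2⟩
    refine ⟨fun h => h1 (τ.injective h), fun Y hY hp hq hpq => ?_⟩
    obtain ⟨Z, rfl⟩ := ex_map (τ := τ) Y
    rw [bad_map hτ] at hY
    rw [ext0_snd, ext0_snd] at hpq
    exact h2 Z hY ((mem_map_iff Z p.1).1 hp) ((mem_map_iff Z q.1).1 hq)
      ((piv M ι τ b Z).injective hpq)

/-- the automorphism -/
noncomputable def ext1 (hτ : ∀ x y, M (τ x) (τ y) = M x y) {b : Finset T → T}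
    (hb : ∀ Y, Bad M ι τ Y → b Y ∈ Y) : Equiv.Perm {p // Adm M ι τ b p} :=
  (ext0 M ι τ b).subtypePerm fun p => ext0_adm hτ hb p

theorem ext1_val (hτ : ∀ x y, M (τ x) (τ y) = M x y) {b : Finset T → T}
    (hb : ∀ Y, Bad M ι τ Y → b Y ∈ Y) (p : {p // Adm M ι τ b p}) :
    (ext1 hτ hb p).1 = ext0 M ι τ b p.1 := rfl

theorem ext1_valM (hτ : ∀ x y, M (τ x) (τ y) = M x y) {b : Finset T → T}
    (hb : ∀ Y, Bad M ι τ Y → b Y ∈ Y) (p q : {p // Adm M ι τ b p}) :
    valM M ι τ b (ext1 hτ hb p) (ext1 hτ hb q) = valM M ι τ b p q := by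
  by_cases hpq : p = q
  · rw [hpq, (valM M ι τ b).diagonal, (valM M ι τ b).diagonal]
  · by_cases h : Cmp M ι τ p.1 q.1
    · rw [valM_pos h, valM_pos ((ext0_cmp hτ p.1 q.1).2 h)]
      exact hτ _ _
    · rw [valM_neg h hpq, valM_neg (fun h' => h ((ext0_cmp hτ p.1 q.1).1 h'))
        (fun h' => hpq ((ext1 hτ hb).injective h'))]

open Classical in
variable (M ι τ) in
/-- the embedding -/
noncomputable def emb0 (b : Finset T → T) (s : S) : T × (Finset T → T) :=
  (ι s, fun Y => if Bad M ι τ Y ∧ ι s ∉ Y then b Y else ι s)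

theorem emb0_pos {b : Finset T → T} {s : S} {Y : Finset T} (h : Bad M ι τ Y ∧ ι s ∉ Y) :
    (emb0 M ι τ b s).2 Y = b Y := by
  classical
  exact if_pos h

theorem emb0_neg {b : Finset T → T} {s : S} {Y : Finset T} (h : ¬ (Bad M ι τ Y ∧ ι s ∉ Y)) :
    (emb0 M ι τ b s).2 Y = ι s := by
  classical
  exact if_neg h

theorem emb0_adm {b : Finset T → T} (hb : ∀ Y, Bad M ι τ Y → b Y ∈ Y)
    (hb' : ∀ Y, Bad M ι τ Y → b Y ∉ Set.range ι) (s : S) : Adm M ι τ b (emb0 M ι τ b s) := by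
  intro Y
  refine ⟨fun hY => ?_, fun hY => emb0_neg fun h => hY h.1⟩
  by_cases h : ι s ∈ Y
  · rw [emb0_neg (fun h1 => h1.2 h)]
    refine ⟨h, fun h1 => absurd ⟨s, h1⟩ (hb' Y hY), fun h1 => absurd h h1⟩
  · rw [emb0_pos ⟨hY, h⟩]
    exact ⟨hb Y hY, fun _ => h, fun _ => rfl⟩

theorem emb0_cmp {b : Finset T → T} {s t : S} (h : ι s ≠ ι t) :
    Cmp M ι τ (emb0 M ι τ b s) (emb0 M ι τ b t) := by
  refine ⟨h, fun Y _ hs ht => ?_⟩
  have hs' : ι s ∈ Y := hs
  have ht' : ι t ∈ Y := ht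
  rw [emb0_neg (fun h1 => h1.2 hs'), emb0_neg (fun h1 => h1.2 ht')]
  exact h

theorem ext0_emb0 (hτ : ∀ x y, M (τ x) (τ y) = M x y) {b : Finset T → T} {s t : S}
    (h : τ (ι s) = ι t) (hb' : ∀ Y, Bad M ι τ Y → b Y ∉ Set.range ι) :
    ext0 M ι τ b (emb0 M ι τ b s) = emb0 M ι τ b t := by
  classical
  refine Prod.ext h ?_
  funext Y
  obtain ⟨Z, rfl⟩ := ex_map (τ := τ) Y
  rw [ext0_snd]
  have hmem : ι t ∈ Z.map τ.toEmbedding ↔ ι s ∈ Z := by
    rw [← h]
    exact mem_map_iff Z _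
  by_cases hZ : Bad M ι τ Z
  · have hZ' := (bad_map (ι := ι) hτ).2 hZ
    by_cases hs : ι s ∈ Z
    · rw [emb0_neg (fun h1 => h1.2 hs), emb0_neg (fun h1 => h1.2 (hmem.2 hs)), piv_pos b hZ, h]
      apply Equiv.swap_apply_of_ne_of_ne
      · intro h1
        rw [← h] at h1
        exact hb' Z hZ ⟨s, τ.injective h1⟩
      · intro h1
        exact hb' _ hZ' ⟨t, h1⟩
    · rw [emb0_pos ⟨hZ, hs⟩, emb0_pos ⟨hZ', fun h1 => hs (hmem.1 h1)⟩, piv_b b hZ]
  · have hZ' : ¬ Bad M ι τ (Z.map τ.toEmbedding) := fun h1 => hZ ((bad_map hτ).1 h1)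
    rw [emb0_neg (fun h1 => hZ h1.1), emb0_neg (fun h1 => hZ' h1.1), piv_neg b hZ, h]

end val

/-- **extension of partial automorphisms, faithful for complete sets** -/
theorem eppa2 (S : Type) [Finite S] (M : CoxeterMatrix S) (D : Set S) (f : D → S)
    (hinj : Function.Injective f) (hadj : ∀ x y : D, M (f x) (f y) = M x y) :
    ∃ (T : Type) (_ : Finite T) (M' : CoxeterMatrix T) (ι : S → T) (τ : Equiv.Perm T),
      Function.Injective ι ∧ (∀ x y, M' (ι x) (ι y) = M x y) ∧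
      (∀ x y, M' (τ x) (τ y) = M' x y) ∧ (∀ x : D, τ (ι x) = ι (f x)) ∧
      ∀ X : Set T, (∀ i ∈ X, ∀ j ∈ X, M' i j ≠ 0) →
        ∃ h : X → S, Function.Injective h ∧ ∀ i j, M (h i) (h j) = M' i j := by
  classical
  obtain ⟨T, hT, M', ι, τ, hι, hιM, hτ, hτι, -⟩ := eppa S M D f hinj hadj
  have hτk : ∀ (k : ℤ) (x y : T), M' ((τ ^ k) x) ((τ ^ k) y) = M' x y := by
    intro k
    induction k using Int.induction_on with
    | zero => intro x y; simp
    | succ k ih =>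
      intro x y
      rw [zpow_add_one]
      show M' ((τ ^ (k : ℤ)) (τ x)) ((τ ^ (k : ℤ)) (τ y)) = _
      rw [ih, hτ]
    | pred k ih =>
      intro x y
      rw [zpow_sub_one]
      show M' ((τ ^ (-(k : ℤ))) (τ⁻¹ x)) ((τ ^ (-(k : ℤ))) (τ⁻¹ y)) = _
      rw [ih, ← hτ]
      have h1 : ∀ z, τ (τ⁻¹ z) = z := fun z => Equiv.apply_symm_apply τ z
      rw [h1, h1]
  rcases isEmpty_or_nonempty T with hE | hE
  · refine ⟨T, hT, M', ι, τ, hι, hιM, hτ, hτι, fun X _ => ⟨fun x => (hE.false x.1).elim, ?_, ?_⟩⟩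
    · intro x
      exact (hE.false x.1).elim
    · intro x
      exact (hE.false x.1).elim
  obtain ⟨b, hb⟩ : ∃ b : Finset T → T, ∀ Y, Bad M' ι τ Y → b Y ∈ Y ∧ b Y ∉ Set.range ι := by
    have : ∀ Y : Finset T, ∃ y : T, Bad M' ι τ Y → y ∈ Y ∧ y ∉ Set.range ι := by
      intro Y
      by_cases hY : Bad M' ι τ Y
      · obtain ⟨y, hy, h1⟩ := hY.2 0
        exact ⟨y, fun _ => ⟨hy, by simpa using h1⟩⟩
      · exact ⟨Classical.arbitrary T, fun h => absurd h hY⟩
    choose b hb using this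
    exact ⟨b, hb⟩
  have hb1 : ∀ Y, Bad M' ι τ Y → b Y ∈ Y := fun Y hY => (hb Y hY).1
  have hb2 : ∀ Y, Bad M' ι τ Y → b Y ∉ Set.range ι := fun Y hY => (hb Y hY).2
  refine ⟨{p // Adm M' ι τ b p}, inferInstance, valM M' ι τ b,
    fun s => ⟨emb0 M' ι τ b s, emb0_adm hb1 hb2 s⟩, ext1 hτ hb1, ?_, ?_, ?_, ?_, ?_⟩
  · intro x y hxy
    have h1 : (emb0 M' ι τ b x).1 = (emb0 M' ι τ b y).1 := congrArg (fun p => p.1.1) hxy
    exact hι h1
  · intro x y
    by_cases hxy : x = y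
    · rw [hxy, (valM M' ι τ b).diagonal, M.diagonal]
    · rw [valM_pos (emb0_cmp fun h => hxy (hι h))]
      exact hιM x y
  · exact fun x y => ext1_valM hτ hb1 x y
  · intro x
    apply Subtype.ext
    rw [ext1_val]
    exact ext0_emb0 hτ (hτι x) hb2
  · intro X hX
    obtain ⟨h1, k, h2⟩ := val_clique hb1 X hX
    have h3 : ∀ i : X, ∃ s, ι s = (τ ^ k) i.1.1.1 := fun i => h2 i.1 i.2
    choose h h3 using h3
    refine ⟨h, ?_, ?_⟩
    · intro i j hij
      have h4 := h3 i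
      rw [hij, h3 j] at h4
      exact (Subtype.ext (h1 j.1 j.2 i.1 i.2 ((τ ^ k).injective h4))).symm
    · intro i j
      rw [← hιM, h3, h3, hτk]
      by_cases hij : i = j
      · rw [hij, M'.diagonal, (valM M' ι τ b).diagonal]
      · have hij' : (i : {p // Adm M' ι τ b p}) ≠ j := fun h5 => hij (Subtype.ext h5)
        exact (valM_pos (valM_cmp (hX i.1 i.2 j.1 j.2) hij')).symm

end Pool.Agent.L7h59.AR
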