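import Pool.Agent.L7h59.AR.Kern
import Pool.Agent.L7h59.AR.Ama

/-!
# The Farrell–Jones conjecture for Artin groups and for extensions by Artin groups
-/

set_option autoImplicit false

namespace Pool.Agent.L7h59.AR

open Pool.Agent.Helper703.Cox
open Pool.Agent.Y110.FJ

variable {C : ∀ (G : Type) [Group G], Prop}

/-- **Artin groups** -/
theorem artin (hC : ClosedE C) (hmet : ∀ (G : Type) [Group G], derivedSeries G 2 = ⊥ → C G)
    (hcox : ∀ (S : Type) (_ : Finite S) (A : CoxeterMatrix S), C A.Group)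
    {B : Type} (M : CoxeterMatrix B) :
    C (Artin M) ↔
      ∀ X : Set B, X.Finite → (∀ i ∈ X, ∀ j ∈ X, M i j ≠ 0) → C (Artin (rs M X)) :=
  artin_main' s_ama s_amw hC hmet hcox M

/-- **extensions by Artin groups** -/
theorem kern (hC : ClosedE C) (hmet : ∀ (G : Type) [Group G], derivedSeries G 2 = ⊥ → C G)
    (hcox : ∀ (S : Type) (_ : Finite S) (A : CoxeterMatrix S), C A.Group)
    (D : Set ℕ) (hD : ∀ (S : Type) (_ : Finite S) (A : CoxeterMatrix S),
      (∀ i j, i ≠ j → A i j ∈ D ∧ A i j ≠ 0) → C (Artin A))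
    {G B : Type} [Group G] {M : CoxeterMatrix B} {N : Subgroup G} [N.Normal]
    (e : Artin M →* G) (he : Function.Injective e) (heN : e.range = N)
    (hMD : ∀ i j, i ≠ j → M i j ≠ 0 → M i j ∈ D)
    (hperm : ∀ g : G, ∃ n ∈ N, ∃ (π : Equiv.Perm B) (ε : ℤˣ), (∀ b b', M (π b) (π b') = M b b') ∧
      ∀ b, n * g * e (Artin.gen M b) * (n * g)⁻¹ = e (Artin.gen M (π b)) ^ (ε : ℤ))
    (hQ : C (G ⧸ N)) : C G :=
  kern' e s_ama s_amw hC hmet hcox D hD he heN hMD hperm hQ

end Pool.Agent.L7h59.AR
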