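import Pool.Agent.L7h59.AR.Kern2
import Pool.Agent.L7h59.AR.Final

/-!
# Extensions by Artin groups of arbitrary rank
-/

set_option autoImplicit false

namespace Pool.Agent.L7h59.AR

open Pool.Agent.Helper703.Cox
open Pool.Agent.Y110.FJ

variable {C : ∀ (G : Type) [Group G], Prop}

/-- **extensions by Artin groups** -/
theorem ext (hC : ClosedE C) (hmet : ∀ (G : Type) [Group G], derivedSeries G 2 = ⊥ → C G)
    (hcox : ∀ (S : Type) (_ : Finite S) (A : CoxeterMatrix S), C A.Group)
    {G B : Type} [Group G] {M : CoxeterMatrix B} {N : Subgroup G} [N.Normal]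
    (e : Artin M →* G) (he : Function.Injective e) (heN : e.range = N)
    (hperm : ∀ g : G, ∃ n ∈ N, ∃ (π : Equiv.Perm B) (ε : ℤˣ), (∀ b b', M (π b) (π b') = M b b') ∧
      ∀ b, n * g * e (Artin.gen M b) * (n * g)⁻¹ = e (Artin.gen M (π b)) ^ (ε : ℤ))
    (hQ : C (G ⧸ N)) :
    C G ↔ ∀ X : Set B, X.Finite → (∀ i ∈ X, ∀ j ∈ X, M i j ≠ 0) → C (Artin (rs M X)) := by
  constructor
  · intro h X hX _
    exact hC.base.of_injective _ _ (e.comp (ko M X)) (he.comp (ko_injective M X hX)) h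
  · intro hX
    exact kern2' e s_ama s_amw hC hmet hcox he heN hX hperm hQ

end Pool.Agent.L7h59.AR
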