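import Pool.Agent.L7h59.AR.Main
import Pool.Agent.L7h59.AR.Eppa
import Pool.Agent.N77.CX.Main

/-!
# Extensions by Artin groups of arbitrary rank whose generators are permuted
-/

set_option autoImplicit false
set_option linter.unusedSectionVars false

namespace Pool.Agent.L7h59.AR

open Pool.Agent.Helper703.Cox
open Pool.Agent.Y110.FJ
open Pool.Agent.Y462.SS (Closed)
open Pool.Agent.N77.GP (MT il tt mt_pow mt_one tt_conj)

variable {C : ∀ (G : Type) [Group G], Prop}

section amap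

variable {S T : Type} {M : CoxeterMatrix S} {M' : CoxeterMatrix T}

/-- the homomorphism given by a map of the generators -/
def amap (ι : S → T) (h : ∀ x y, M' (ι x) (ι y) = M x y) : Artin M →* Artin M' :=
  Artin.lift (fun x => Artin.gen M' (ι x)) (fun i j => by
    have := Artin.rel (M := M') (ι i) (ι j)
    rw [h] at this
    exact this)

@[simp] theorem amap_gen (ι : S → T) (h : ∀ x y, M' (ι x) (ι y) = M x y) (x : S) :
    amap ι h (Artin.gen M x) = Artin.gen M' (ι x) := Artin.lift_gen _ _ _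

theorem amap_injective [Finite S] (ι : S → T) (h : ∀ x y, M' (ι x) (ι y) = M x y)
    (hι : Function.Injective ι) : Function.Injective (amap ι h) := by
  obtain ⟨X, hX⟩ : ∃ X : Set T, X = Set.range ι := ⟨_, rfl⟩
  have hXf : X.Finite := by rw [hX]; exact Set.finite_range ι
  have hm : ∀ s, ι s ∈ X := fun s => by rw [hX]; exact ⟨s, rfl⟩
  have hb : ∀ t : X, ∃ s, ι s = t := by
    rintro ⟨t, ht⟩
    rw [hX] at ht
    exact ht
  choose b hb using hb
  let e : Artin M →* Artin (rs M' X) := amap (fun s => ⟨ι s, hm s⟩) h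
  let e' : Artin (rs M' X) →* Artin M := amap b (fun x y => by
    rw [← h, hb, hb]; rfl)
  have e1 : ∀ t, e (Artin.gen M t) = Artin.gen (rs M' X) ⟨ι t, hm t⟩ := fun t =>
    Artin.lift_gen _ _ _
  have e2 : ∀ t, e' (Artin.gen (rs M' X) t) = Artin.gen M (b t) := fun t =>
    Artin.lift_gen _ _ _
  have h1 : e'.comp e = MonoidHom.id _ := by
    apply Artin.hom_ext
    intro t
    rw [MonoidHom.comp_apply, e1, e2]
    have : b ⟨ι t, hm t⟩ = t := hι (hb _)
    rw [this]
    rfl
  have h2 : (ko M' X).comp e = amap ι h := by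
    apply Artin.hom_ext
    intro t
    rw [MonoidHom.comp_apply, e1, ko_gen, amap_gen]
  have h3 : ∀ z, e' (e z) = z := fun z => DFunLike.congr_fun h1 z
  have h4 : Function.Injective e := fun x y hxy => by
    have := congrArg e' hxy
    rwa [h3, h3] at this
  have h5 := (ko_injective M' X hXf).comp h4
  intro x y hxy
  rw [← h2] at hxy
  exact h5 hxy

theorem alt_inv {G : Type*} [Group G] (k : ℕ) : ∀ a b : G,
    (alt a b k)⁻¹ = if Even k then alt b⁻¹ a⁻¹ k else alt a⁻¹ b⁻¹ k := by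
  induction k with
  | zero => intro a b; simp
  | succ k ih =>
    intro a b
    rw [alt_succ' a b k, mul_inv_rev, ih a b]
    by_cases h : Even k
    · have h' : ¬ Even (k + 1) := by simpa [Nat.even_add_one] using h
      rw [if_pos h, if_pos h, if_neg h', ← alt_succ]
    · have h' : Even (k + 1) := by simpa [Nat.even_add_one] using h
      rw [if_neg h, if_neg h, if_pos h', ← alt_succ]

theorem alt_sgn {G : Type*} [Group G] {a b : G} {k : ℕ} (h : alt a b k = alt b a k) (ε : ℤˣ) :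
    alt (a ^ (ε : ℤ)) (b ^ (ε : ℤ)) k = alt (b ^ (ε : ℤ)) (a ^ (ε : ℤ)) k := by
  rcases Int.units_eq_one_or ε with rfl | rfl
  · simpa using h
  · have h1 := congrArg (·⁻¹) h
    simp only [alt_inv] at h1
    simp only [Units.val_neg, Units.val_one, zpow_neg, zpow_one]
    by_cases hk : Even k
    · rw [if_pos hk, if_pos hk] at h1
      exact h1.symm
    · rw [if_neg hk, if_neg hk] at h1
      exact h1

/-- the homomorphism given by a map of the generators and a sign -/
def smap (ι : S → T) (h : ∀ x y, M' (ι x) (ι y) = M x y) (ε : ℤˣ) : Artin M →* Artin M' :=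
  Artin.lift (fun x => Artin.gen M' (ι x) ^ (ε : ℤ)) (fun i j => by
    have := Artin.rel (M := M') (ι i) (ι j)
    rw [h] at this
    exact alt_sgn this ε)

@[simp] theorem smap_gen (ι : S → T) (h : ∀ x y, M' (ι x) (ι y) = M x y) (ε : ℤˣ) (x : S) :
    smap ι h ε (Artin.gen M x) = Artin.gen M' (ι x) ^ (ε : ℤ) := Artin.lift_gen _ _ _

theorem sgn_sq (ε : ℤˣ) : (ε : ℤ) * (ε : ℤ) = 1 := by
  rcases Int.units_eq_one_or ε with rfl | rfl <;> simp

/-- the automorphism given by a permutation of the generators and a sign -/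
def taut (τ : Equiv.Perm T) (hτ : ∀ x y, M' (τ x) (τ y) = M' x y) (ε : ℤˣ) : MulAut (Artin M') :=
  MonoidHom.toMulEquiv (smap (M := M') (M' := M') τ hτ ε)
    (smap (M := M') (M' := M') τ.symm (fun x y => by
      rw [← hτ, τ.apply_symm_apply, τ.apply_symm_apply]) ε)
    (Artin.hom_ext fun i => by
      rw [MonoidHom.comp_apply, smap_gen, map_zpow, smap_gen, τ.symm_apply_apply, ← zpow_mul,
        sgn_sq, zpow_one]
      rfl)
    (Artin.hom_ext fun i => by
      rw [MonoidHom.comp_apply, smap_gen, map_zpow, smap_gen, τ.apply_symm_apply, ← zpow_mul,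
        sgn_sq, zpow_one]
      rfl)

theorem taut_gen (τ : Equiv.Perm T) (hτ : ∀ x y, M' (τ x) (τ y) = M' x y) (ε : ℤˣ) (i : T) :
    taut τ hτ ε (Artin.gen M' i) = Artin.gen M' (τ i) ^ (ε : ℤ) :=
  smap_gen _ hτ _ _

theorem taut_pow_gen (τ : Equiv.Perm T) (hτ : ∀ x y, M' (τ x) (τ y) = M' x y) (ε : ℤˣ) (k : ℕ)
    (i : T) : (taut τ hτ ε ^ k) (Artin.gen M' i) = Artin.gen M' ((τ ^ k) i) ^ ((ε ^ k : ℤˣ) : ℤ) := by
  induction k with
  | zero => simp
  | succ k ih =>
    rw [pow_succ', MulAut.mul_apply, ih, map_zpow, taut_gen, pow_succ', pow_succ', ← zpow_mul]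
    rfl

theorem taut_pow (τ : Equiv.Perm T) (hτ : ∀ x y, M' (τ x) (τ y) = M' x y) (ε : ℤˣ) (k : ℕ)
    (hk : τ ^ k = 1) (hk' : ε ^ k = 1) : taut τ hτ ε ^ k = 1 := by
  apply MulEquiv.toMonoidHom_injective
  apply Artin.hom_ext
  intro i
  have h := taut_pow_gen τ hτ ε k i
  rw [hk, hk', Units.val_one, zpow_one] at h
  exact h

theorem C_taut (hC : ClosedE C) [Finite T] (hW : C (Artin M')) (τ : Equiv.Perm T)
    (hτ : ∀ x y, M' (τ x) (τ y) = M' x y) (ε : ℤˣ) : C (MT (Artin M') (taut τ hτ ε)) := by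
  have hfin : IsOfFinOrder τ := isOfFinOrder_of_finite τ
  refine mt_pow hC.base (k := orderOf τ * 2) (Nat.mul_pos hfin.orderOf_pos (by norm_num)) ?_
  rw [taut_pow τ hτ ε _ (by rw [pow_mul, pow_orderOf_eq_one τ, one_pow])
    (by rw [mul_comm, pow_mul, Int.units_sq, one_pow])]
  exact mt_one hC.base hW

end amap

section main

variable {G B : Type} [Group G] {N : Subgroup G} {M : CoxeterMatrix B} (e : Artin M →* G)

/-- the subgroup generated by some generators -/
def AJ (J : Set B) : Subgroup G := Subgroup.closure ((fun b => e (Artin.gen M b)) '' J)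

theorem AJ_mono {J J' : Set B} (h : J ⊆ J') : AJ e J ≤ AJ e J' :=
  Subgroup.closure_mono (Set.image_mono h)

theorem aj_supp (x : Artin M) : ∃ J : Set B, J.Finite ∧ e x ∈ AJ e J := by
  induction x using Artin.induction with
  | one => exact ⟨∅, Set.finite_empty, by rw [map_one]; exact one_mem _⟩
  | gen i => exact ⟨{i}, Set.finite_singleton i, Subgroup.subset_closure ⟨i, rfl, rfl⟩⟩
  | mul x y hx hy =>
    obtain ⟨J, hJ, h1⟩ := hx
    obtain ⟨J', hJ', h2⟩ := hy
    refine ⟨J ∪ J', hJ.union hJ', ?_⟩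
    rw [map_mul]
    exact mul_mem (AJ_mono e Set.subset_union_left h1) (AJ_mono e Set.subset_union_right h2)
  | inv x hx =>
    obtain ⟨J, hJ, h1⟩ := hx
    exact ⟨J, hJ, by rw [map_inv]; exact inv_mem h1⟩

theorem aj_supp_fin {E : Set G} (hE : E.Finite) (hEN : ∀ x ∈ E, ∃ y, e y = x) :
    ∃ J : Set B, J.Finite ∧ ∀ x ∈ E, x ∈ AJ e J := by
  induction E, hE using Set.Finite.induction_on with
  | empty => exact ⟨∅, Set.finite_empty, fun x hx => absurd hx (Set.notMem_empty x)⟩
  | @insert a s _ _ ih =>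
    obtain ⟨S, hS, h1⟩ := ih (fun x hx => hEN x (Set.mem_insert_of_mem _ hx))
    obtain ⟨y, hy⟩ := hEN a (Set.mem_insert _ _)
    obtain ⟨S', hS', h2⟩ := aj_supp e y
    refine ⟨S ∪ S', hS.union hS', fun x hx => ?_⟩
    rcases hx with rfl | hx
    · rw [hy] at h2
      exact AJ_mono e (Set.subset_union_right : S' ⊆ S ∪ S') h2
    · exact AJ_mono e (Set.subset_union_left : S ⊆ S ∪ S') (h1 x hx)

/-- **extensions by Artin groups** -/
theorem kern' (hAma : S_AMA) (hAmw : S_AMW) (hC : ClosedE C)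
    (hmet : ∀ (G : Type) [Group G], derivedSeries G 2 = ⊥ → C G)
    (hcox : ∀ (S : Type) (_ : Finite S) (A : CoxeterMatrix S), C A.Group)
    (D : Set ℕ) (hD : ∀ (S : Type) (_ : Finite S) (A : CoxeterMatrix S),
      (∀ i j, i ≠ j → A i j ∈ D ∧ A i j ≠ 0) → C (Artin A))
    [N.Normal] (he : Function.Injective e) (heN : e.range = N)
    (hMD : ∀ i j, i ≠ j → M i j ≠ 0 → M i j ∈ D)
    (hperm : ∀ g : G, ∃ n ∈ N, ∃ (π : Equiv.Perm B) (ε : ℤˣ), (∀ b b', M (π b) (π b') = M b b') ∧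
      ∀ b, n * g * e (Artin.gen M b) * (n * g)⁻¹ = e (Artin.gen M (π b)) ^ (ε : ℤ))
    (hQ : C (G ⧸ N)) : C G := by
  refine Pool.Agent.R779.FJ.t_crit Pool.Agent.Y529.FJ.t_ext
    (Pool.Agent.Y961.FJ.t_perm Pool.Agent.Y529.FJ.t_ext) C hC G N hQ fun g E hE hEN => ?_
  obtain ⟨n0, hn0, π, ε, hM, hconj⟩ := hperm g
  obtain ⟨m, hm⟩ : ∃ m, m = n0 * g := ⟨_, rfl⟩
  obtain ⟨n, hn'⟩ : ∃ n, n = n0⁻¹ := ⟨_, rfl⟩
  have hn : n ∈ N := by rw [hn']; exact inv_mem hn0
  have hnm : n * m = g := by rw [hn', hm]; group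
  rw [← hm] at hconj
  have hrange : ∀ x ∈ insert n E, ∃ y, e y = x := by
    intro x hx
    have hxN : x ∈ N := by
      rcases hx with rfl | hx
      · exact hn
      · exact hEN hx
    rw [← heN] at hxN
    exact hxN
  obtain ⟨J, hJ, hJE⟩ := aj_supp_fin e (hE.insert n) hrange
  obtain ⟨J', hJ'⟩ : ∃ J' : Set B, J' = J ∪ π '' J := ⟨_, rfl⟩
  have hfin : Finite J' := by
    rw [hJ']
    exact hJ.union (hJ.image _)
  have hJJ' : ∀ b ∈ J, b ∈ J' := fun b hb => by rw [hJ']; exact Or.inl hb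
  have hmJ : ∀ b ∈ J, π b ∈ J' := fun b hb => by
    rw [hJ']
    exact Or.inr ⟨b, hb, rfl⟩
  obtain ⟨T, _, M', ι, τ, hι, hιM, hτ, hτι, hlab⟩ := eppa J' (rs M J')
    {x | π x.1 ∈ J'} (fun x => ⟨π x.1.1, x.2⟩)
    (fun x y hxy => Subtype.ext (Subtype.ext (π.injective (congrArg Subtype.val hxy))))
    (fun x y => hM x.1.1 y.1.1)
  -- the Artin group of the large matrix
  have hCM' : C (Artin M') := by
    rw [artin_main' hAma hAmw hC hmet hcox]
    intro X hX hcomp
    refine hD X hX.to_subtype (rs M' X) fun i j hij => ?_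
    have hij' : (i : T) ≠ j := fun h => hij (Subtype.ext h)
    refine ⟨?_, hcomp i i.2 j j.2⟩
    rcases hlab i j hij' with h | ⟨a, b, hab, h⟩
    · exact absurd h (hcomp i i.2 j j.2)
    · show M' i j ∈ D
      have h0 : M a b ≠ 0 := by
        intro h0
        apply hcomp i i.2 j j.2
        rw [h]
        exact h0
      rw [h]
      exact hMD a b (fun h => hab (Subtype.ext h)) h0
  -- the embeddings
  obtain ⟨a, ha⟩ : ∃ a : Artin (rs M J') →* G, a = e.comp (ko M J') := ⟨_, rfl⟩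
  have hainj : Function.Injective a := by
    rw [ha]
    exact he.comp (ko_injective M J' (Set.toFinite J'))
  have has : ∀ b : J', a (Artin.gen _ b) = e (Artin.gen M b.1) := by
    intro b
    rw [ha, MonoidHom.comp_apply, ko_gen]
  obtain ⟨β, hβ⟩ : ∃ β : Artin (rs M J') →* Artin M', β = amap ι hιM := ⟨_, rfl⟩
  have hβinj : Function.Injective β := by
    rw [hβ]
    exact amap_injective ι hιM hι
  have hβs : ∀ b : J', β (Artin.gen _ b) = Artin.gen M' (ι b) := by
    intro b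
    rw [hβ, amap_gen]
  -- conjugation by `m`
  have key : ∀ x ∈ AJ e J, ∃ w w' : Artin (rs M J'), a w = x ∧ a w' = m * x * m⁻¹ ∧
      β w' = taut τ hτ ε (β w) := by
    intro x hx
    induction hx using Subgroup.closure_induction with
    | mem x hx =>
      obtain ⟨b, hb, rfl⟩ := hx
      refine ⟨Artin.gen _ ⟨b, hJJ' b hb⟩,
        Artin.gen _ ⟨π b, hmJ b hb⟩ ^ (ε : ℤ), has _, ?_, ?_⟩
      · rw [map_zpow, has]
        exact (hconj b).symm
      · rw [map_zpow, hβs, hβs, taut_gen]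
        congr 2
        exact (hτι ⟨⟨b, hJJ' b hb⟩, hmJ b hb⟩).symm
    | one => exact ⟨1, 1, by simp, by simp, by simp⟩
    | mul x y _ _ hx hy =>
      obtain ⟨w, w', h1, h2, h3⟩ := hx
      obtain ⟨v, v', h4, h5, h6⟩ := hy
      refine ⟨w * v, w' * v', by rw [map_mul, h1, h4], ?_, by rw [map_mul, map_mul, map_mul, h3, h6]⟩
      rw [map_mul, h2, h5]
      group
    | inv x _ hx =>
      obtain ⟨w, w', h1, h2, h3⟩ := hx
      refine ⟨w⁻¹, w'⁻¹, by rw [map_inv, h1], ?_, by rw [map_inv, map_inv, map_inv, h3]⟩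
      rw [map_inv, h2]
      group
  have hES : E ⊆ (a.range : Set G) := by
    intro x hx
    obtain ⟨w, -, h1, -⟩ := key x (hJE x (Set.mem_insert_of_mem n hx))
    exact ⟨w, h1⟩
  have hnS : n ∈ a.range := by
    obtain ⟨w, -, h1, -⟩ := key n (hJE n (Set.mem_insert n E))
    exact ⟨w, h1⟩
  have hmE : ∀ x ∈ E, m * x * m⁻¹ ∈ a.range := by
    intro x hx
    obtain ⟨w, w', h1, h2, -⟩ := key x (hJE x (Set.mem_insert_of_mem n hx))
    exact ⟨w', h2⟩
  have hsymm : ∀ (w : Artin (rs M J')) (x : G) (hx : x ∈ a.range), a w = x →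
      (MonoidHom.ofInjective hainj).symm ⟨x, hx⟩ = w := by
    intro w x hx hw
    rw [MulEquiv.symm_apply_eq]
    apply Subtype.ext
    exact hw.symm
  refine Pool.Agent.N77.CX.realized_of a.range hnm.symm hES hnS hmE (C_taut hC hCM' τ hτ ε)
    ((il (taut τ hτ ε)).comp (β.comp (MonoidHom.ofInjective hainj).symm.toMonoidHom)) ?_
    (tt (taut τ hτ ε)) ?_
  · exact SemidirectProduct.inl_injective.comp
      (hβinj.comp (MonoidHom.ofInjective hainj).symm.injective)
  · intro x hx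
    obtain ⟨w, w', h1, h2, h3⟩ := key x (hJE x (Set.mem_insert_of_mem n hx))
    show il _ (β ((MonoidHom.ofInjective hainj).symm _)) =
      tt _ * il _ (β ((MonoidHom.ofInjective hainj).symm _)) * (tt _)⁻¹
    rw [hsymm w x _ h1, hsymm w' _ _ h2, tt_conj, h3]

end main

end Pool.Agent.L7h59.AR
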