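import Pool.Agent.L7h59.AR.Kern
import Pool.Agent.L7h59.AR.Eppa2

/-!
# Extensions by Artin groups of arbitrary rank, second version
-/

set_option autoImplicit false
set_option linter.unusedSectionVars false

namespace Pool.Agent.L7h59.AR

open Pool.Agent.Helper703.Cox
open Pool.Agent.Y110.FJ
open Pool.Agent.Y462.SS (Closed)
open Pool.Agent.N77.GP (MT il tt mt_pow mt_one tt_conj)

variable {C : ∀ (G : Type) [Group G], Prop}

section main

variable {G B : Type} [Group G] {N : Subgroup G} {M : CoxeterMatrix B} (e : Artin M →* G)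

/-- **extensions by Artin groups** -/
theorem kern2' (hAma : S_AMA) (hAmw : S_AMW) (hC : ClosedE C)
    (hmet : ∀ (G : Type) [Group G], derivedSeries G 2 = ⊥ → C G)
    (hcox : ∀ (S : Type) (_ : Finite S) (A : CoxeterMatrix S), C A.Group)
    [N.Normal] (he : Function.Injective e) (heN : e.range = N)
    (hX : ∀ X : Set B, X.Finite → (∀ i ∈ X, ∀ j ∈ X, M i j ≠ 0) → C (Artin (rs M X)))
    (hperm : ∀ g : G, ∃ n ∈ N, ∃ (π : Equiv.Perm B) (ε : ℤˣ), (∀ b b', M (π b) (π b') = M b b') ∧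
      ∀ b, n * g * e (Artin.gen M b) * (n * g)⁻¹ = e (Artin.gen M (π b)) ^ (ε : ℤ))
    (hQ : C (G ⧸ N)) : C G := by
  refine Pool.Agent.R779.FJ.t_crit Pool.Agent.Y529.FJ.t_ext
    (Pool.Agent.Y961.FJ.t_perm Pool.Agent.Y529.FJ.t_ext) C hC G N hQ fun g E hE hEN => ?_
  obtain ⟨n0, hn0, π, ε, hM, hconj⟩ := hperm g
  obtain ⟨m, hm⟩ : ∃ m, m = n0 * g := ⟨_, rfl⟩
  obtain ⟨n, hn'⟩ : ∃ n, n = n0⁻¹ := ⟨_, rfl⟩
  have hn : n ∈ N := by rw [hn']; exact inv_mem hn0
  have hnm : n * m = g := by rw [hn', hm]; group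
  rw [← hm] at hconj
  have hrange : ∀ x ∈ insert n E, ∃ y, e y = x := by
    intro x hx
    have hxN : x ∈ N := by
      rcases hx with rfl | hx
      · exact hn
      · exact hEN hx
    rw [← heN] at hxN
    exact hxN
  obtain ⟨J, hJ, hJE⟩ := aj_supp_fin e (hE.insert n) hrange
  obtain ⟨J', hJ'⟩ : ∃ J' : Set B, J' = J ∪ π '' J := ⟨_, rfl⟩
  have hfin : Finite J' := by
    rw [hJ']
    exact hJ.union (hJ.image _)
  have hJJ' : ∀ b ∈ J, b ∈ J' := fun b hb => by rw [hJ']; exact Or.inl hb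
  have hmJ : ∀ b ∈ J, π b ∈ J' := fun b hb => by
    rw [hJ']
    exact Or.inr ⟨b, hb, rfl⟩
  obtain ⟨T, _, M', ι, τ, hι, hιM, hτ, hτι, hlab⟩ := eppa2 J' (rs M J')
    {x | π x.1 ∈ J'} (fun x => ⟨π x.1.1, x.2⟩)
    (fun x y hxy => Subtype.ext (Subtype.ext (π.injective (congrArg Subtype.val hxy))))
    (fun x y => hM x.1.1 y.1.1)
  -- the Artin group of the large matrix
  have hCM' : C (Artin M') := by
    rw [artin_main' hAma hAmw hC hmet hcox]
    intro X hXf hcomp
    obtain ⟨h, hinj, hh⟩ := hlab X hcomp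
    obtain ⟨Z, hZ⟩ : ∃ Z : Set B, Z = Set.range fun x : X => (h x : B) := ⟨_, rfl⟩
    have hXfin : Finite X := hXf.to_subtype
    have hZf : Z.Finite := by rw [hZ]; exact Set.finite_range _
    have hm : ∀ x : X, (h x : B) ∈ Z := fun x => by rw [hZ]; exact ⟨x, rfl⟩
    have hinj' : Function.Injective fun x : X => (⟨(h x : B), hm x⟩ : Z) := fun x y hxy =>
      hinj (Subtype.ext (congrArg (fun z : Z => (z : B)) hxy))
    refine hC.base.of_injective _ _ (amap (M := rs M' X) (M' := rs M Z)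
      (fun x => ⟨(h x : B), hm x⟩) (fun x y => hh x y)) (amap_injective _ _ hinj') ?_
    refine hX Z hZf fun i hi j hj => ?_
    rw [hZ] at hi hj
    obtain ⟨x, rfl⟩ := hi
    obtain ⟨y, rfl⟩ := hj
    have h1 := hcomp x x.2 y y.2
    rw [← hh] at h1
    exact h1
  -- the embeddings
  obtain ⟨a, ha⟩ : ∃ a : Artin (rs M J') →* G, a = e.comp (ko M J') := ⟨_, rfl⟩
  have hainj : Function.Injective a := by
    rw [ha]
    exact he.comp (ko_injective M J' (Set.toFinite J'))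
  have has : ∀ b : J', a (Artin.gen _ b) = e (Artin.gen M b.1) := by
    intro b
    rw [ha, MonoidHom.comp_apply, ko_gen]
  obtain ⟨β, hβ⟩ : ∃ β : Artin (rs M J') →* Artin M', β = amap ι hιM := ⟨_, rfl⟩
  have hβinj : Function.Injective β := by
    rw [hβ]
    exact amap_injective ι hιM hι
  have hβs : ∀ b : J', β (Artin.gen _ b) = Artin.gen M' (ι b) := by
    intro b
    rw [hβ, amap_gen]
  -- conjugation by `m`
  have key : ∀ x ∈ AJ e J, ∃ w w' : Artin (rs M J'), a w = x ∧ a w' = m * x * m⁻¹ ∧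
      β w' = taut τ hτ ε (β w) := by
    intro x hx
    induction hx using Subgroup.closure_induction with
    | mem x hx =>
      obtain ⟨b, hb, rfl⟩ := hx
      refine ⟨Artin.gen _ ⟨b, hJJ' b hb⟩,
        Artin.gen _ ⟨π b, hmJ b hb⟩ ^ (ε : ℤ), has _, ?_, ?_⟩
      · rw [map_zpow, has]
        exact (hconj b).symm
      · rw [map_zpow, hβs, hβs, taut_gen]
        congr 2
        exact (hτι ⟨⟨b, hJJ' b hb⟩, hmJ b hb⟩).symm
    | one => exact ⟨1, 1, by simp, by simp, by simp⟩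
    | mul x y _ _ hx hy =>
      obtain ⟨w, w', h1, h2, h3⟩ := hx
      obtain ⟨v, v', h4, h5, h6⟩ := hy
      refine ⟨w * v, w' * v', by rw [map_mul, h1, h4], ?_, by rw [map_mul, map_mul, map_mul, h3, h6]⟩
      rw [map_mul, h2, h5]
      group
    | inv x _ hx =>
      obtain ⟨w, w', h1, h2, h3⟩ := hx
      refine ⟨w⁻¹, w'⁻¹, by rw [map_inv, h1], ?_, by rw [map_inv, map_inv, map_inv, h3]⟩
      rw [map_inv, h2]
      group
  have hES : E ⊆ (a.range : Set G) := by
    intro x hx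
    obtain ⟨w, -, h1, -⟩ := key x (hJE x (Set.mem_insert_of_mem n hx))
    exact ⟨w, h1⟩
  have hnS : n ∈ a.range := by
    obtain ⟨w, -, h1, -⟩ := key n (hJE n (Set.mem_insert n E))
    exact ⟨w, h1⟩
  have hmE : ∀ x ∈ E, m * x * m⁻¹ ∈ a.range := by
    intro x hx
    obtain ⟨w, w', h1, h2, -⟩ := key x (hJE x (Set.mem_insert_of_mem n hx))
    exact ⟨w', h2⟩
  have hsymm : ∀ (w : Artin (rs M J')) (x : G) (hx : x ∈ a.range), a w = x →
      (MonoidHom.ofInjective hainj).symm ⟨x, hx⟩ = w := by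
    intro w x hx hw
    rw [MulEquiv.symm_apply_eq]
    apply Subtype.ext
    exact hw.symm
  refine Pool.Agent.N77.CX.realized_of a.range hnm.symm hES hnS hmE (C_taut hC hCM' τ hτ ε)
    ((il (taut τ hτ ε)).comp (β.comp (MonoidHom.ofInjective hainj).symm.toMonoidHom)) ?_
    (tt (taut τ hτ ε)) ?_
  · exact SemidirectProduct.inl_injective.comp
      (hβinj.comp (MonoidHom.ofInjective hainj).symm.injective)
  · intro x hx
    obtain ⟨w, w', h1, h2, h3⟩ := key x (hJE x (Set.mem_insert_of_mem n hx))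
    show il _ (β ((MonoidHom.ofInjective hainj).symm _)) =
      tt _ * il _ (β ((MonoidHom.ofInjective hainj).symm _)) * (tt _)⁻¹
    rw [hsymm w x _ h1, hsymm w' _ _ h2, tt_conj, h3]

end main

end Pool.Agent.L7h59.AR
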