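import Pool.Agent.L7h59.AR.StepE
import Pool.Agent.L7h59.AR.Any
import Pool.Agent.L7h97.AR.Tree
import Pool.Agent.L7h97.AR.Ctr
import Pool.Agent.L7h97.AR.Ell
import Pool.Agent.L7h97.AR.Dyn
import Pool.Agent.L7h82.AR.Shift

/-!
# The Farrell–Jones conjecture for Artin groups
-/

set_option autoImplicit false
set_option linter.unusedSectionVars false

namespace Pool.Agent.L7h59.AR

open CoxeterSystem Pool.Agent.Helper703.Cox Pool.Agent.TH5.BD
open Pool.Agent.Y110.FJ
open Pool.Agent.Y462.SS (Closed)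

/-- inclusions of finite rank are injective -/
theorem jo_injective {B : Type} (M : CoxeterMatrix B) (X Y : Set B) (h : X ⊆ Y) (hY : Y.Finite) :
    Function.Injective (jo M X Y h) := by
  classical
  have hF : Fintype Y := hY.fintype
  obtain ⟨X', hX'⟩ : ∃ X' : Set Y, X' = {y : Y | (y : B) ∈ X} := ⟨_, rfl⟩
  have hm : ∀ t : X, (⟨(t : B), h t.2⟩ : Y) ∈ X' := fun t => by rw [hX']; exact t.2
  have hmm : ∀ y : Y, y ∈ X' → (y : B) ∈ X := by
    intro y hy
    rw [hX'] at hy
    exact hy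
  have hm' : ∀ t : X', ((t : Y) : B) ∈ X := fun t => hmm t t.2
  let e : Artin (rs M X) →* Artin (rs (rs M Y) X') :=
    Artin.lift (fun t => Artin.gen (rs (rs M Y) X') ⟨⟨(t : B), h t.2⟩, hm t⟩)
      (fun i j => Artin.rel (M := rs (rs M Y) X') ⟨⟨(i : B), h i.2⟩, hm i⟩ ⟨⟨(j : B), h j.2⟩, hm j⟩)
  let e' : Artin (rs (rs M Y) X') →* Artin (rs M X) :=
    Artin.lift (fun t => Artin.gen (rs M X) ⟨((t : Y) : B), hm' t⟩)
      (fun i j => Artin.rel (M := rs M X) ⟨((i : Y) : B), hm' i⟩ ⟨((j : Y) : B), hm' j⟩)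
  have h1 : e'.comp e = MonoidHom.id _ := by
    apply Artin.hom_ext
    intro t
    rw [MonoidHom.comp_apply]
    have e1 : e (Artin.gen _ t) = Artin.gen _ ⟨⟨(t : B), h t.2⟩, hm t⟩ := Artin.lift_gen _ _ _
    rw [e1]
    have e2 : e' (Artin.gen _ ⟨⟨(t : B), h t.2⟩, hm t⟩) = Artin.gen _ t := Artin.lift_gen _ _ _
    rw [e2]
    rfl
  have h2 : (io (rs M Y) X').comp e = jo M X Y h := by
    apply Artin.hom_ext
    intro t
    rw [MonoidHom.comp_apply, jo_gen]
    have e1 : e (Artin.gen _ t) = Artin.gen _ ⟨⟨(t : B), h t.2⟩, hm t⟩ := Artin.lift_gen _ _ _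
    rw [e1, io_gen]
  have h3 : ∀ z, e' (e z) = z := fun z => DFunLike.congr_fun h1 z
  have h4 : Function.Injective e := fun x y hxy => by
    have := congrArg e' hxy
    rwa [h3, h3] at this
  have h5 := (io_injective (rs M Y).toCoxeterSystem X').comp h4
  intro x y hxy
  rw [← h2] at hxy
  exact h5 hxy

/-- **van der Lek's theorem for finite sets of generators in any rank** -/
theorem ko_injective {B : Type} (M : CoxeterMatrix B) (X : Set B) (hX : X.Finite) :
    Function.Injective (ko M X) := by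
  obtain ⟨X, rfl⟩ := hX.exists_finset_coe
  rw [injective_iff_map_eq_one]
  intro x hx
  obtain ⟨Y, hXY, h⟩ := ko_ker M X x hx
  apply jo_injective M (X : Set B) (Y : Set B) (by exact_mod_cast hXY) Y.finite_toSet
  rw [h, map_one]

theorem artin_main' (hAma : S_AMA) (hAmw : S_AMW) {C : ∀ (G : Type) [Group G], Prop}
    (hC : ClosedE C) (hM : ∀ (G : Type) [Group G], derivedSeries G 2 = ⊥ → C G)
    (hCox : ∀ (S : Type) (_ : Finite S) (A : CoxeterMatrix S), C A.Group)
    {B : Type} (M : CoxeterMatrix B) :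
    C (Artin M) ↔
      ∀ X : Set B, X.Finite → (∀ i ∈ X, ∀ j ∈ X, M i j ≠ 0) → C (Artin (rs M X)) := by
  constructor
  · intro h X hX _
    exact hC.base.of_injective _ _ (ko M X) (ko_injective M X hX) h
  · intro hX
    refine s_any C hC.base B M fun X hXf => ?_
    exact finite_rank Pool.Agent.L7h97.AR.s_tree Pool.Agent.L7h97.AR.s_ctr
      Pool.Agent.L7h82.AR.s_shift Pool.Agent.L7h97.AR.s_ell Pool.Agent.L7h97.AR.s_hyl
      Pool.Agent.L7h97.AR.s_dyn hAma hAmw hC hM (fun S A hS => hCox S hS A) M hX X.ncard X hXf rfl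

end Pool.Agent.L7h59.AR
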