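import Pool.Agent.L7h59.AR.Cox

/-!
# The order of the product of two simple reflections
-/

set_option autoImplicit false
set_option linter.unusedSectionVars false

namespace Pool.Agent.L7h59.AR

open CoxeterSystem Pool.Agent.Helper703.Cox Pool.Agent.TH5.BD Real

variable {B : Type} [Fintype B] [DecidableEq B] {M : CoxeterMatrix B} {W : Type} [Group W]
  {cs : CoxeterSystem M W}

theorem ord_dvd {i j : B} (hij : i ≠ j) {k : ℕ} (hk : (cs.simple i * cs.simple j) ^ k = 1) :
    M i j ∣ k := by
  have h1 : geo cs ((cs.simple i * cs.simple j) ^ k) (ee i) = ee i := by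
    rw [hk, map_one, Module.End.one_apply]
  rw [map_pow, map_mul, geo_simple, geo_simple, ← prod_alt_eq_pow (sg M) i j k, prod_alt_ee] at h1
  rw [if_pos (even_two_mul k)] at h1
  have h2 := congrFun h1 i
  have h3 := congrFun h1 j
  simp only [Pi.add_apply, Pi.smul_apply, ee, Pi.single_eq_same, smul_eq_mul, mul_one,
    Pi.single_eq_of_ne hij, Pi.single_eq_of_ne hij.symm, mul_zero, add_zero, zero_add] at h2 h3
  by_cases h0 : M i j = 0
  · rw [cc_of_zero M h0, qs_of_one] at h3
    have : k = 0 := by
      have h4 : ((2 * k : ℕ) : ℝ) = 0 := h3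
      have h5 : 2 * k = 0 := by exact_mod_cast h4
      omega
    rw [this]
    exact dvd_zero _
  have hm : (0 : ℝ) < (M i j : ℝ) := by
    have := two_le_of_ne M hij h0
    exact_mod_cast (by omega : 0 < M i j)
  have hs := sin_pos_of_ne M hij h0
  have h4 := qs_sin (π / (M i j : ℝ)) (2 * k)
  have h5 := qs_sin (π / (M i j : ℝ)) (2 * k + 1)
  change qs (cc M i j) (2 * k) * _ = _ at h4
  change qs (cc M i j) (2 * k + 1) * _ = _ at h5
  rw [h3, zero_mul] at h4
  rw [h2, one_mul] at h5
  obtain ⟨n, hn⟩ := sin_eq_zero_iff.1 h4.symm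
  have h6 : ((2 * k : ℕ) : ℝ) = n * M i j := by
    field_simp at hn
    push_cast at hn ⊢
    linarith
  have h7 : (2 * k : ℤ) = n * M i j := by exact_mod_cast h6
  have h8 : ((2 * k + 1 : ℕ) : ℝ) * (π / (M i j : ℝ)) = π / (M i j : ℝ) + n * π := by
    push_cast at h6 ⊢
    rw [h6]
    field_simp
    ring
  rw [h8, sin_add_int_mul_pi] at h5
  rcases Int.even_or_odd n with ⟨l, hl⟩ | hodd
  · have h9 : (k : ℤ) = l * M i j := by
      rw [hl] at h7
      linarith
    have h10 : ((M i j : ℕ) : ℤ) ∣ ((k : ℕ) : ℤ) := ⟨l, by rw [h9]; ring⟩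
    exact Int.natCast_dvd_natCast.1 h10
  · exfalso
    rw [hodd.neg_one_zpow] at h5
    linarith

/-- the label is determined by the two reflections up to conjugation -/
theorem label_eq {i j s t : B} (hij : i ≠ j) (hst : s ≠ t) {d : W}
    (hi : cs.simple i * d = d * cs.simple s) (hj : cs.simple j * d = d * cs.simple t) :
    M s t = M i j := by
  have e : ∀ k : ℕ, (cs.simple i * cs.simple j) ^ k * d = d * (cs.simple s * cs.simple t) ^ k := by
    intro k
    induction k with
    | zero => simp
    | succ k ih =>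
      rw [pow_succ', mul_assoc, ih, pow_succ', mul_assoc, ← mul_assoc (cs.simple j) d, hj,
        mul_assoc d, ← mul_assoc (cs.simple i) d, hi, mul_assoc d, mul_assoc]
  apply Nat.dvd_antisymm
  · apply ord_dvd (cs := cs) hst
    have h1 := e (M i j)
    rw [cs.simple_mul_simple_pow i j, one_mul] at h1
    exact mul_left_cancel (a := d) (by rw [← h1, mul_one])
  · apply ord_dvd (cs := cs) hij
    have h1 := e (M s t)
    rw [cs.simple_mul_simple_pow s t, mul_one] at h1
    exact mul_right_cancel (b := d) (by rw [h1, one_mul])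

end Pool.Agent.L7h59.AR
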