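import Pool.Agent.L7h59.AR.Vert
import Pool.Agent.Y812.SS.Wr

/-!
# Elements which fix a vertex of the tree of the Coxeter group
-/

set_option autoImplicit false
set_option linter.unusedSectionVars false

namespace Pool.Agent.L7h59.AR

open CoxeterSystem Pool.Agent.Helper703.Cox Pool.Agent.TH5.BD
open Pool.Agent.Y110.FJ
open Pool.Agent.Helper270.Tree
open Pool.Agent.Y462.SS (Closed Wr)

variable {B : Type} [Fintype B] [DecidableEq B] {M : CoxeterMatrix B} {W : Type} [Group W]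
  (cs : CoxeterSystem M W)

/-- the homomorphism to the wreath product for a finite orbit of states -/
theorem exists_wr {C : ∀ (G : Type) [Group G], Prop} (hC : Closed C) (X : Set B)
    (hX : C (Artin (rs M X))) (E : Subgroup (Artin M)) (u : {w : W // RMin cs X w})
    (hfin : {u' | ∃ h ∈ E, st X h u = u'}.Finite) :
    ∃ (P : Type) (_ : Group P) (f : E →* P), C P ∧
      ∀ h : E, f h = 1 → ka X (h : Artin M) u = 1 := by
  obtain ⟨O, hO⟩ : ∃ O : Set {w : W // RMin cs X w}, O = {u' | ∃ h ∈ E, st X h u = u'} := ⟨_, rfl⟩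
  rw [← hO] at hfin
  have hinv : ∀ h ∈ E, ∀ o ∈ O, st X h o ∈ O := by
    intro h hh o ho
    rw [hO] at ho ⊢
    obtain ⟨k, hk, rfl⟩ := ho
    exact ⟨h * k, E.mul_mem hh hk, st_mul _ _ _ _⟩
  have hu : u ∈ O := by
    rw [hO]
    exact ⟨1, E.one_mem, st_one _ _⟩
  have hF : Finite O := hfin.to_subtype
  refine ⟨Wr O (Artin (rs M X)), inferInstance,
    { toFun := fun h => ⟨fun o => ka X (h : Artin M) o.1,
        { toFun := fun o => ⟨st X (h : Artin M) o.1, hinv h h.2 o.1 o.2⟩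
          invFun := fun o => ⟨st X (h : Artin M)⁻¹ o.1, hinv _ (E.inv_mem h.2) o.1 o.2⟩
          left_inv := fun o => Subtype.ext (by
            show st X (h : Artin M)⁻¹ (st X (h : Artin M) o.1) = o.1
            rw [← st_mul, inv_mul_cancel, st_one])
          right_inv := fun o => Subtype.ext (by
            show st X (h : Artin M) (st X (h : Artin M)⁻¹ o.1) = o.1
            rw [← st_mul, mul_inv_cancel, st_one]) }⟩
      map_one' := ?_
      map_mul' := fun a b => ?_ }, Pool.Agent.Y812.SS.t_wr C hC O (Artin (rs M X)) hF hX, ?_⟩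
  · refine Wr.ext (funext fun o => ?_) (Equiv.ext fun o => Subtype.ext ?_)
    · exact ka_one X o.1
    · exact st_one X o.1
  · refine Wr.ext (funext fun o => ?_) (Equiv.ext fun o => Subtype.ext ?_)
    · exact ka_mul X (a : Artin M) (b : Artin M) o.1
    · exact st_mul X (a : Artin M) (b : Artin M) o.1
  · intro h hh
    exact congrFun (congrArg Wr.s hh) ⟨u, hu⟩

/-- elements of `N ⟨g⟩` -/
theorem mem_pz {g h : Artin M} (hh : h ∈ Pu cs ⊔ Subgroup.zpowers g) :
    ∃ a ∈ Pu cs, ∃ j : ℤ, h = a * g ^ j ∧ pr cs h = pr cs g ^ j := by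
  obtain ⟨a, ha, b, hb, rfl⟩ := Pool.Agent.R941.FJ.mem_sup_normal.1 hh
  obtain ⟨j, rfl⟩ := Subgroup.mem_zpowers_iff.1 hb
  refine ⟨a, ha, j, rfl, ?_⟩
  rw [map_mul, map_zpow, (MonoidHom.mem_ker.1 ha), one_mul]

theorem orbit_fin (X : Set B) (g : Artin M) (u : {w : W // RMin cs X w}) {m : ℕ} (hm : 0 < m)
    (h : st X (g ^ m) u = u) : {u' | ∃ h ∈ Pu cs ⊔ Subgroup.zpowers g, st X h u = u'}.Finite := by
  refine (Set.finite_range fun i : Fin m => st X (g ^ (i : ℕ)) u).subset ?_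
  rintro _ ⟨h', hh, rfl⟩
  obtain ⟨a, ha, j, rfl, -⟩ := mem_pz cs hh
  have hz : ∀ q : ℤ, st X ((g ^ m) ^ q) u = u := by
    intro q
    induction q using Int.induction_on with
    | zero => rw [zpow_zero, st_one]
    | succ q ih => rw [zpow_add_one, st_mul, h, ih]
    | pred q ih =>
      rw [zpow_sub_one, st_mul]
      have h1 : st X (g ^ m)⁻¹ u = u := by
        conv_lhs => rw [← h]
        rw [← st_mul, inv_mul_cancel, st_one]
      rw [h1, ih]
  have hm' : (m : ℤ) ≠ 0 := by exact_mod_cast hm.ne'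
  refine ⟨⟨(j % m).toNat, ?_⟩, ?_⟩
  · have h1 := Int.emod_nonneg j hm'
    have h2 := Int.emod_lt_of_pos j (by exact_mod_cast hm : (0 : ℤ) < m)
    omega
  · have h1 := Int.emod_nonneg j hm'
    show st X (g ^ (j % m).toNat) u = st X (a * g ^ j) u
    rw [st_mul, st_pure X ha]
    have e : g ^ j = g ^ (j % m).toNat * (g ^ m) ^ (j / m) := by
      rw [← zpow_natCast, ← zpow_natCast, Int.toNat_of_nonneg h1, ← zpow_mul, ← zpow_add,
        Int.emod_add_mul_ediv]
    rw [e, st_mul, hz]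

/-- **elliptic elements** -/
theorem step_b {C : ∀ (G : Type) [Group G], Prop} (hCtr : S_CTR) (hEll : S_ELL) (hC : ClosedE C)
    (hM : ∀ (G : Type) [Group G], derivedSeries G 2 = ⊥ → C G) (X0 X1 : Set B)
    (hT : (csg (io M X0).range (io M X1).range).IsTree)
    (hTb : (csg (Par cs X0) (Par cs X1)).IsTree)
    (h0 : C (Artin (rs M X0))) (h1 : C (Artin (rs M X1))) (g : Artin M)
    (v0 : VB cs X0 X1) (hv0 : pr cs g • v0 = v0) : C ↥(Pu cs ⊔ Subgroup.zpowers g) := by
  obtain ⟨S, hS⟩ : ∃ S : Set (VB cs X0 X1), S = {v | ∃ m : ℕ, 0 < m ∧ pr cs g ^ m • v = v} :=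
    ⟨_, rfl⟩
  refine gen_step cs hCtr hC hM X0 X1 hT h0 h1 (Pu cs ⊔ Subgroup.zpowers g) S ?_ ?_ ?_ ?_
  · intro h hh v hv
    obtain ⟨a, -, j, -, e⟩ := mem_pz cs hh
    rw [hS] at hv ⊢
    obtain ⟨m, hm, hv⟩ := hv
    refine ⟨m, hm, ?_⟩
    rw [e, ← mul_smul, ← zpow_natCast, ← zpow_add, add_comm, zpow_add, mul_smul, zpow_natCast, hv]
  · intro z hz h hh hav
    obtain ⟨a, -, j, -, e⟩ := mem_pz cs hh
    by_cases hj : j = 0
    · rw [e, hj, zpow_zero]
    · exfalso
      rw [e, hS] at hav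
      refine hEll W (VB cs X0 X1) _ hTb (fun g u v h => csg_smul g u v h) (pr cs g) v0 hv0 z
        ?_ j hj hav
      intro m hm hzm
      apply hz
      rw [hS]
      exact ⟨m, hm, hzm⟩
  · intro u hu
    rw [hS] at hu
    obtain ⟨m, hm, hu⟩ := hu
    have h2 : st X0 (g ^ m) u = u := by
      apply st_eq
      have h3 : ((pr cs g ^ m * u : W) : W ⧸ Par cs X0) = ((u : W) : W ⧸ Par cs X0) :=
        Sum.inl_injective hu
      rw [map_pow]
      exact QuotientGroup.eq.1 h3.symm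
    obtain ⟨P, i, f, hP, hf⟩ := exists_wr cs hC.base X0 h0 _ u (orbit_fin cs X0 g u hm h2)
    exact ⟨P, i, f, hP, fun h _ hh => hf h hh⟩
  · intro u hu
    rw [hS] at hu
    obtain ⟨m, hm, hu⟩ := hu
    have h2 : st X1 (g ^ m) u = u := by
      apply st_eq
      have h3 : ((pr cs g ^ m * u : W) : W ⧸ Par cs X1) = ((u : W) : W ⧸ Par cs X1) :=
        Sum.inr_injective hu
      rw [map_pow]
      exact QuotientGroup.eq.1 h3.symm
    obtain ⟨P, i, f, hP, hf⟩ := exists_wr cs hC.base X1 h1 _ u (orbit_fin cs X1 g u hm h2)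
    exact ⟨P, i, f, hP, fun h _ hh => hf h hh⟩

end Pool.Agent.L7h59.AR
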