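import Pool.Agent.L7h59.AR.StepB

/-!
# Hyperbolic elements: the kernel of the labels of the fixed parabolic subgroup
-/

set_option autoImplicit false
set_option linter.unusedSectionVars false

namespace Pool.Agent.L7h59.AR

open CoxeterSystem Pool.Agent.Helper703.Cox Pool.Agent.TH5.BD
open Pool.Agent.Y110.FJ
open Pool.Agent.Helper270.Tree
open Pool.Agent.Y462.SS (Closed)

variable {B : Type} [Fintype B] [DecidableEq B] {M : CoxeterMatrix B} {W : Type} [Group W]
  (cs : CoxeterSystem M W)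

/-- the pure elements with trivial label at the base point -/
def KZ (Z : Set B) : Subgroup (Artin M) where
  carrier := {k | k ∈ Pu cs ∧ ka Z k (e1 cs Z) = 1}
  one_mem' := ⟨Subgroup.one_mem _, ka_one _ _⟩
  mul_mem' := by
    rintro a b ⟨ha, ha'⟩ ⟨hb, hb'⟩
    refine ⟨Subgroup.mul_mem _ ha hb, ?_⟩
    rw [ka_mul, st_pure Z hb, ha', hb', one_mul]
  inv_mem' := by
    rintro a ⟨ha, ha'⟩
    refine ⟨Subgroup.inv_mem _ ha, ?_⟩
    have h1 := ka_mul Z a⁻¹ a (e1 cs Z)
    rw [inv_mul_cancel, ka_one, st_pure Z ha, ha', mul_one] at h1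
    exact h1.symm

theorem KZ_le (Z : Set B) : KZ cs Z ≤ Pu cs := fun _ hk => hk.1

/-- elements of `K ⟨x⟩` -/
theorem mem_kz {G : Type} [Group G] {K : Subgroup G} {x : G}
    (hx : ∀ k ∈ K, ∀ n : ℤ, x ^ n * k * (x ^ n)⁻¹ ∈ K) {h : G} (hh : h ∈ K ⊔ Subgroup.zpowers x) :
    ∃ a ∈ K, ∃ j : ℤ, h = a * x ^ j := by
  let S : Subgroup G :=
    { carrier := {h | ∃ a ∈ K, ∃ j : ℤ, h = a * x ^ j}
      one_mem' := ⟨1, K.one_mem, 0, by simp⟩
      mul_mem' := by
        rintro _ _ ⟨a, ha, j, rfl⟩ ⟨b, hb, k, rfl⟩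
        refine ⟨a * (x ^ j * b * (x ^ j)⁻¹), K.mul_mem ha (hx b hb j), j + k, ?_⟩
        rw [zpow_add]
        group
      inv_mem' := by
        rintro _ ⟨a, ha, j, rfl⟩
        refine ⟨x ^ (-j) * a⁻¹ * (x ^ (-j))⁻¹, hx _ (K.inv_mem ha) _, -j, ?_⟩
        group }
  have h1 : K ⊔ Subgroup.zpowers x ≤ S := by
    refine sup_le (fun a ha => ⟨a, ha, 0, by simp⟩) ?_
    rw [Subgroup.zpowers_le]
    exact ⟨1, K.one_mem, 1, by simp⟩
  exact h1 hh

/-- conjugation of labels -/
theorem ka_conj (X : Set B) {k : Artin M} (hk : k ∈ Pu cs) (y : Artin M)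
    (u : {w : W // RMin cs X w}) :
    ka X (y * k * y⁻¹) u = (ka X y⁻¹ u)⁻¹ * ka X k (st X y⁻¹ u) * ka X y⁻¹ u := by
  rw [mul_assoc, ka_mul, st_mul, st_pure X hk, ka_mul X k, ← mul_assoc]
  have h1 := ka_mul X y y⁻¹ u
  rw [mul_inv_cancel, ka_one] at h1
  rw [eq_inv_of_mul_eq_one_left h1.symm]

theorem side_c {C : ∀ (G : Type) [Group G], Prop} (hC : ClosedE C) (hSh : S_SHIFT) (Z X : Set B)
    (hX : C (Artin (rs M X))) (x : Artin M)
    (hx : ∀ k ∈ KZ cs Z, ∀ n : ℤ, x ^ n * k * (x ^ n)⁻¹ ∈ KZ cs Z)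
    (hx0 : ∀ n : ℕ, 0 < n → x ^ n ∉ Pu cs) (u : {w : W // RMin cs X w})
    (hZ : ∀ z ∈ Z, ∀ n : ℤ, ((st X (x ^ n) u : {w : W // RMin cs X w}) : W)⁻¹ *
      (cs.simple z * (st X (x ^ n) u : {w : W // RMin cs X w})) ∈ Par cs X)
    (hfin : ∀ r : W, r ∉ Par cs Z → {n : ℤ | ((st X (x ^ n) u : {w : W // RMin cs X w}) : W)⁻¹ *
      (r * (st X (x ^ n) u : {w : W // RMin cs X w})) ∈ Par cs X}.Finite) :
    ∃ (P : Type) (_ : Group P) (f : ↥(KZ cs Z ⊔ Subgroup.zpowers x) →* P), C P ∧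
      ∀ k : ↥(KZ cs Z ⊔ Subgroup.zpowers x), (k : Artin M) ∈ KZ cs Z → f k = 1 →
        ka X (k : Artin M) u = 1 := by
  obtain ⟨E, hE⟩ : ∃ E : Subgroup (Artin M), E = KZ cs Z ⊔ Subgroup.zpowers x := ⟨_, rfl⟩
  rw [← hE]
  have hKE : KZ cs Z ≤ E := by rw [hE]; exact le_sup_left
  have hxE : x ∈ E := by rw [hE]; exact Subgroup.mem_sup_right (Subgroup.mem_zpowers x)
  have hnorm : E ≤ Subgroup.normalizer (KZ cs Z : Set (Artin M)) := by
    rw [hE]
    refine sup_le Subgroup.le_normalizer ?_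
    rw [Subgroup.zpowers_le, Subgroup.mem_normalizer_iff]
    intro k
    constructor
    · intro hk
      have := hx k hk 1
      rwa [zpow_one] at this
    · intro hk
      have := hx _ hk (-1)
      have e : x ^ (-1 : ℤ) * (x * k * x⁻¹) * (x ^ (-1 : ℤ))⁻¹ = k := by group
      rwa [e] at this
  have hN : ((KZ cs Z).subgroupOf E).Normal := Subgroup.normal_subgroupOf_of_le_normalizer hnorm
  obtain ⟨x', hx'⟩ : ∃ x' : E, x' = ⟨x, hxE⟩ := ⟨_, rfl⟩
  have hx'c : ((x' : E) : Artin M) = x := by rw [hx']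
  have htop : (KZ cs Z).subgroupOf E ⊔ Subgroup.zpowers x' = ⊤ := by
    apply Subgroup.map_injective E.subtype_injective
    rw [Subgroup.map_sup, Subgroup.map_subgroupOf_eq_of_le hKE, MonoidHom.map_zpowers,
      ← MonoidHom.range_eq_map, Subgroup.range_subtype]
    show KZ cs Z ⊔ Subgroup.zpowers ((x' : E) : Artin M) = E
    rw [hx'c, hE]
  let ρ : (KZ cs Z).subgroupOf E →* Artin (rs M X) :=
    { toFun := fun k => ka X ((k : E) : Artin M) u
      map_one' := ka_one _ _
      map_mul' := fun a b => by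
        have hb : ((b : E) : Artin M) ∈ Pu cs := (Subgroup.mem_subgroupOf.1 b.2).1
        show ka X (((a : E) : Artin M) * ((b : E) : Artin M)) u = _
        rw [ka_mul, st_pure X hb] }
  obtain ⟨P, i, f, hP, hf⟩ := hSh C hC (Artin (rs M X)) E hX ((KZ cs Z).subgroupOf E) x' (by
      intro n hn hh
      rw [Subgroup.mem_subgroupOf] at hh
      apply hx0 n hn
      have := hh.1
      rwa [Subgroup.coe_pow, hx'c] at this) htop ρ (by
      rintro ⟨⟨k, hkE⟩, hk⟩
      rw [Subgroup.mem_subgroupOf] at hk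
      have hk1 : k ∈ Pu cs := hk.1
      have hk2 : ka Z k (e1 cs Z) = 1 := hk.2
      obtain ⟨R, hR, hTr⟩ := exists_Tr (cs := cs) k
      have hfin2 : (⋃ r ∈ R, {n : ℤ | r ∉ Par cs Z ∧
          ((st X (x ^ (-n)) u : {w : W // RMin cs X w}) : W)⁻¹ *
            (r * (st X (x ^ (-n)) u : {w : W // RMin cs X w})) ∈ Par cs X}).Finite := by
        refine hR.biUnion fun r _ => ?_
        by_cases hr : r ∈ Par cs Z
        · convert Set.finite_empty
          ext n
          simp [hr]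
        · refine ((hfin r hr).preimage (f := fun n : ℤ => -n) neg_injective.injOn).subset ?_
          rintro n ⟨_, hn⟩
          exact hn
      refine hfin2.subset fun n hn => ?_
      by_contra hcon
      apply hn
      show ka X ((((x' : E) ^ n * ⟨k, hkE⟩ * ((x' : E) ^ n)⁻¹ : E) : Artin M)) u = 1
      have e0 : (((x' : E) ^ n * ⟨k, hkE⟩ * ((x' : E) ^ n)⁻¹ : E) : Artin M) =
          x ^ n * k * (x ^ n)⁻¹ := by
        rw [Subgroup.coe_mul, Subgroup.coe_mul, Subgroup.coe_inv, Subgroup.coe_zpow, hx'c]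
      rw [e0, ka_conj cs X hk1, ← zpow_neg]
      have hst : ∀ z : Z, ∃ t : X, cs.simple (z : B) *
          (st X (x ^ (-n)) u : {w : W // RMin cs X w}) =
          (st X (x ^ (-n)) u : {w : W // RMin cs X w}) * cs.simple (t : B) := by
        intro z
        obtain ⟨t, ht, h⟩ := stab_simple (st X (x ^ (-n)) u).2 (s := z) (hZ z z.2 (-n))
        exact ⟨⟨t, ht⟩, h⟩
      choose θ hθ using hst
      have h3 := (sync (st X (x ^ (-n)) u).2 θ hθ hTr (by
        intro r hr hrr
        by_contra hrZ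
        apply hcon
        rw [Set.mem_iUnion₂]
        refine ⟨r, hr, hrZ, ?_⟩
        rw [← mul_assoc]
        exact hrr)).2
      rw [hk2, map_one] at h3
      have h4 : ka X k (st X (x ^ (-n)) u) = 1 := h3
      rw [h4, mul_one, inv_mul_cancel])
  refine ⟨P, i, f, hP, fun k hk hfk => ?_⟩
  exact hf ⟨k, Subgroup.mem_subgroupOf.2 hk⟩ hfk

variable {cs} in
/-- stabilizers are parabolic -/
theorem isPb_stab (X0 X1 : Set B) (v : VB cs X0 X1) : IsPb cs (MulAction.stabilizer W v) := by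
  classical
  rcases v with v | v
  · obtain ⟨a, rfl⟩ := QuotientGroup.mk_surjective v
    refine ⟨a, X0.toFinite.toFinset, ?_⟩
    ext r
    rw [mem_Pb, Set.Finite.coe_toFinset, MulAction.mem_stabilizer_iff]
    constructor
    · intro h
      have h1 : ((r * a : W) : W ⧸ Par cs X0) = (a : W ⧸ Par cs X0) := Sum.inl_injective h
      rw [mul_assoc]
      exact QuotientGroup.eq.1 h1.symm
    · intro h
      rw [mul_assoc] at h
      exact congrArg Sum.inl (QuotientGroup.eq.2 h).symm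
  · obtain ⟨a, rfl⟩ := QuotientGroup.mk_surjective v
    refine ⟨a, X1.toFinite.toFinset, ?_⟩
    ext r
    rw [mem_Pb, Set.Finite.coe_toFinset, MulAction.mem_stabilizer_iff]
    constructor
    · intro h
      have h1 : ((r * a : W) : W ⧸ Par cs X1) = (a : W ⧸ Par cs X1) := Sum.inr_injective h
      rw [mul_assoc]
      exact QuotientGroup.eq.1 h1.symm
    · intro h
      rw [mul_assoc] at h
      exact congrArg Sum.inr (QuotientGroup.eq.2 h).symm

/-- only finitely many vertices of the axis are fixed by an element outside of the common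
stabilizer -/
theorem axis_fin (hDyn : S_DYN) (X0 X1 : Set B) (hTb : (csg (Par cs X0) (Par cs X1)).IsTree)
    (Z : Set B) (L : ℤ → VB cs X0 X1) (w : W) (l : ℕ)
    (hL : IsAxis (csg (Par cs X0) (Par cs X1)) w L l)
    (hP : ∀ r : W, r ∈ Par cs Z ↔ ∀ i, r • L i = L i) (r : W) (hr : r ∉ Par cs Z) :
    {i | r • L i = L i}.Finite := by
  by_contra hinf
  apply hr
  rw [hP]
  have hA := csg_treeAct hTb
  intro i
  refine hDyn B W M cs (fun i => MulAction.stabilizer W (L i)) w l hL.pos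
    (fun i => isPb_stab X0 X1 (L i)) ?_ ?_ r hinf i
  · intro i
    show (MulAction.stabilizer W (L i)).map (MulAut.conj w).toMonoidHom =
      MulAction.stabilizer W (L (i + l))
    rw [← hL.smul, MulAction.stabilizer_smul_eq_stabilizer_map_conj]
  · intro r i j k hij hjk hi hk
    refine hA.convex (u := L i) (v := L k) hi hk ?_
    rw [hL.line.dist hTb, hL.line.dist hTb, hL.line.dist hTb]
    omega

/-- **the kernel of the labels, extended by a hyperbolic element** -/
theorem step_c1 {C : ∀ (G : Type) [Group G], Prop} (hCtr : S_CTR) (hSh : S_SHIFT) (hHyl : S_HYL)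
    (hDyn : S_DYN) (hC : ClosedE C) (hM : ∀ (G : Type) [Group G], derivedSeries G 2 = ⊥ → C G)
    (X0 X1 : Set B) (hT : (csg (io M X0).range (io M X1).range).IsTree)
    (hTb : (csg (Par cs X0) (Par cs X1)).IsTree)
    (h0 : C (Artin (rs M X0))) (h1 : C (Artin (rs M X1)))
    (Z : Set B) (L : ℤ → VB cs X0 X1) (w : W) (l : ℕ)
    (hL : IsAxis (csg (Par cs X0) (Par cs X1)) w L l)
    (hP : ∀ r : W, r ∈ Par cs Z ↔ ∀ i, r • L i = L i)
    (x : Artin M) (j : ℤ) (hj : j ≠ 0) (hxw : pr cs x = w ^ j)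
    (hx : ∀ k ∈ KZ cs Z, ∀ n : ℤ, x ^ n * k * (x ^ n)⁻¹ ∈ KZ cs Z) :
    C ↥(KZ cs Z ⊔ Subgroup.zpowers x) := by
  have hA := csg_treeAct hTb
  have hLinj := hL.line.injective hTb
  have hl : (l : ℤ) ≠ 0 := by exact_mod_cast hL.pos.ne'
  have hprx : ∀ n : ℤ, pr cs (x ^ n) = w ^ (j * n) := by
    intro n
    rw [map_zpow, hxw, ← zpow_mul]
  have hwL : ∀ n i : ℤ, w ^ n • L i = L (i + n * l) := fun n i => hL.smul_zpow n i
  have hdec : ∀ h ∈ KZ cs Z ⊔ Subgroup.zpowers x, ∃ a ∈ KZ cs Z, ∃ k : ℤ, h = a * x ^ k ∧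
      pr cs h = w ^ (j * k) := by
    intro h hh
    obtain ⟨a, ha, k, rfl⟩ := mem_kz hx hh
    refine ⟨a, ha, k, rfl, ?_⟩
    rw [map_mul, hprx, MonoidHom.mem_ker.1 ha.1, one_mul]
  have hx0 : ∀ n : ℕ, 0 < n → x ^ n ∉ Pu cs := by
    intro n hn hh
    have h2 : w ^ (j * (n : ℤ)) = 1 := by
      rw [← hprx, zpow_natCast]
      exact hh
    have h3 := hwL (j * n) 0
    rw [h2, one_smul] at h3
    have h4 := hLinj h3
    have h5 : j * (n : ℤ) * l = 0 := by linarith
    rcases mul_eq_zero.1 h5 with h6 | h6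
    · rcases mul_eq_zero.1 h6 with h7 | h7
      · exact hj h7
      · omega
    · exact hl h6
  -- elements which fix a vertex of the axis
  have hfix : ∀ h ∈ KZ cs Z ⊔ Subgroup.zpowers x, ∀ i, pr cs h • L i = L i → h ∈ KZ cs Z := by
    intro h hh i hi
    obtain ⟨a, ha, k, rfl, e⟩ := hdec h hh
    rw [e, hwL] at hi
    have h4 := hLinj hi
    have h5 : j * k * l = 0 := by linarith
    have h6 : k = 0 := by
      rcases mul_eq_zero.1 h5 with h6 | h6
      · rcases mul_eq_zero.1 h6 with h7 | h7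
        · exact absurd h7 hj
        · exact h7
      · exact absurd h6 hl
    rw [h6, zpow_zero, mul_one]
    exact ha
  have hfinL : ∀ r : W, r ∉ Par cs Z → ∀ i0 : ℤ,
      {n : ℤ | r • L (i0 + j * n * l) = L (i0 + j * n * l)}.Finite := by
    intro r hr i0
    refine (axis_fin cs hDyn X0 X1 hTb Z L w l hL hP r hr).preimage
      (f := fun n : ℤ => i0 + j * n * l) ?_
    intro n _ n' _ hnn
    have h2 : i0 + j * n * l = i0 + j * n' * l := hnn
    have h3 : j * l * (n - n') = 0 := by linear_combination h2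
    rcases mul_eq_zero.1 h3 with h4 | h4
    · rcases mul_eq_zero.1 h4 with h5 | h5
      · exact absurd h5 hj
      · exact absurd h5 hl
    · linarith
  refine gen_step cs hCtr hC hM X0 X1 hT h0 h1 _ (Set.range L) ?_ ?_ ?_ ?_
  · rintro h hh _ ⟨i, rfl⟩
    obtain ⟨a, -, k, -, e⟩ := hdec h hh
    exact ⟨i + j * k * l, by rw [e, hwL]⟩
  · intro z hz h hh hav
    obtain ⟨a, -, k, -, e⟩ := hdec h hh
    by_cases hk : j * k = 0
    · rw [e, hk, zpow_zero]
    · exfalso
      rw [e] at hav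
      exact hHyl W (VB cs X0 X1) _ hA w L l hL z (j * k) hk hav
  · rintro u ⟨i0, hi0⟩
    have hu : ∀ n : ℤ, Sum.inl (((st X0 (x ^ n) u : {w : W // RMin cs X0 w}) : W) : W ⧸ Par cs X0) =
        L (i0 + j * n * l) := by
      intro n
      rw [coe_st, hprx, ← hwL, hi0]
      rfl
    have hr : ∀ (r : W) (n : ℤ), ((st X0 (x ^ n) u : {w : W // RMin cs X0 w}) : W)⁻¹ *
        (r * (st X0 (x ^ n) u : {w : W // RMin cs X0 w})) ∈ Par cs X0 ↔
        r • L (i0 + j * n * l) = L (i0 + j * n * l) := by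
      intro r n
      rw [← QuotientGroup.eq, ← hu n]
      constructor
      · intro h
        exact congrArg Sum.inl h.symm
      · intro h
        exact (Sum.inl_injective h).symm
    obtain ⟨P, i, f, hP', hf⟩ := side_c cs hC hSh Z X0 h0 x hx hx0 u
      (fun z hz n => (hr _ n).2 ((hP _).1 (simple_mem_par hz) _))
      (fun r hrZ => by
        have h2 := hfinL r hrZ i0
        convert h2 using 3 with n
        exact hr r n)
    refine ⟨P, i, f, hP', fun h hh hfh => hf h ?_ hfh⟩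
    refine hfix h h.2 i0 ?_
    rw [hi0]
    have h2 := coe_st cs X0 (h : Artin M) u
    rw [hh] at h2
    exact congrArg Sum.inl h2.symm
  · rintro u ⟨i0, hi0⟩
    have hu : ∀ n : ℤ, Sum.inr (((st X1 (x ^ n) u : {w : W // RMin cs X1 w}) : W) : W ⧸ Par cs X1) =
        L (i0 + j * n * l) := by
      intro n
      rw [coe_st, hprx, ← hwL, hi0]
      rfl
    have hr : ∀ (r : W) (n : ℤ), ((st X1 (x ^ n) u : {w : W // RMin cs X1 w}) : W)⁻¹ *
        (r * (st X1 (x ^ n) u : {w : W // RMin cs X1 w})) ∈ Par cs X1 ↔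
        r • L (i0 + j * n * l) = L (i0 + j * n * l) := by
      intro r n
      rw [← QuotientGroup.eq, ← hu n]
      constructor
      · intro h
        exact congrArg Sum.inr h.symm
      · intro h
        exact (Sum.inr_injective h).symm
    obtain ⟨P, i, f, hP', hf⟩ := side_c cs hC hSh Z X1 h1 x hx hx0 u
      (fun z hz n => (hr _ n).2 ((hP _).1 (simple_mem_par hz) _))
      (fun r hrZ => by
        have h2 := hfinL r hrZ i0
        convert h2 using 3 with n
        exact hr r n)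
    refine ⟨P, i, f, hP', fun h hh hfh => hf h ?_ hfh⟩
    refine hfix h h.2 i0 ?_
    rw [hi0]
    have h2 := coe_st cs X1 (h : Artin M) u
    rw [hh] at h2
    exact congrArg Sum.inr h2.symm

end Pool.Agent.L7h59.AR
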