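import Pool.Agent.L7h59.AR.StepC
import Pool.Agent.Y529.FJ.Ext

/-!
# Hyperbolic elements: the centralizing subgroup of finite index
-/

set_option autoImplicit false
set_option linter.unusedSectionVars false

namespace Pool.Agent.L7h59.AR

open CoxeterSystem Pool.Agent.Helper703.Cox Pool.Agent.TH5.BD
open Pool.Agent.Y110.FJ
open Pool.Agent.Helper270.Tree
open Pool.Agent.Y462.SS (Closed)

variable {B : Type} [Fintype B] [DecidableEq B] {M : CoxeterMatrix B} {W : Type} [Group W]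
  (cs : CoxeterSystem M W)

theorem par_comm {Z : Set B} {w : W} (h : ∀ z ∈ Z, cs.simple z * w = w * cs.simple z) {p : W}
    (hp : p ∈ Par cs Z) : p * w = w * p := by
  unfold Par at hp
  induction hp using Subgroup.closure_induction with
  | mem p hp =>
    obtain ⟨z, hz, rfl⟩ := hp
    exact h z hz
  | one => simp
  | mul a b _ _ ha hb => rw [mul_assoc, hb, ← mul_assoc, ha, mul_assoc]
  | inv a _ ha =>
    rw [inv_mul_eq_iff_eq_mul, ← mul_assoc, ha, mul_assoc, mul_inv_cancel, mul_one]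

/-- synchronization at a base point which centralizes the generators -/
theorem sync_id (Z : Set B) (u : {w : W // RMin cs Z w})
    (hu : ∀ z ∈ Z, cs.simple z * (u : W) = u * cs.simple z) (x : Artin M) :
    ((st Z x u : {w : W // RMin cs Z w}) : W) = (st Z x (e1 cs Z) : {w : W // RMin cs Z w}) * u ∧
      ka Z x u = ka Z x (e1 cs Z) := by
  obtain ⟨R, -, hTr⟩ := exists_Tr (cs := cs) x
  have h := sync (X := Z) u.2 (fun z : Z => z) (fun z => hu z z.2) hTr (by
    intro r _ hr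
    have h1 := par_comm cs hu hr
    have h2 : r = (u : W)⁻¹ * r * u := by
      have h3 : (u : W)⁻¹ * r * u * u = r * u := by
        rw [h1]; group
      exact (mul_right_cancel h3).symm
    rw [h2]
    exact hr)
  refine ⟨h.1, ?_⟩
  have h2 := h.2
  have h3 : mth (cs := cs) (w := (u : W)) (fun z : Z => z) (fun z => hu z z.2) =
      MonoidHom.id (Artin (rs M Z)) := by
    apply Artin.hom_ext
    intro t
    rw [mth_gen]
    rfl
  rw [h3] at h2
  exact h2

/-- the subgroup of the elements whose state centralizes the generators -/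
def Hc (Z : Set B) : Subgroup (Artin M) where
  carrier := {y | ∀ z ∈ Z, cs.simple z * (st Z y (e1 cs Z) : {w : W // RMin cs Z w}) =
    (st Z y (e1 cs Z) : {w : W // RMin cs Z w}) * cs.simple z}
  one_mem' := by
    intro z _
    rw [st_one]
    simp [e1]
  mul_mem' := by
    intro a b ha hb z hz
    rw [st_mul, (sync_id cs Z _ hb a).1, ← mul_assoc, ha z hz, mul_assoc, hb z hz, mul_assoc]
  inv_mem' := by
    intro a ha z hz
    have h1 := (sync_id cs Z _ ha a⁻¹).1
    rw [← st_mul, inv_mul_cancel, st_one] at h1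
    have h2 : ((st Z a⁻¹ (e1 cs Z) : {w : W // RMin cs Z w}) : W) =
        ((st Z a (e1 cs Z) : {w : W // RMin cs Z w}) : W)⁻¹ := by
      have h3 : (1 : W) = (st Z a⁻¹ (e1 cs Z) : {w : W // RMin cs Z w}) *
        (st Z a (e1 cs Z) : {w : W // RMin cs Z w}) := h1
      exact eq_inv_of_mul_eq_one_left h3.symm
    rw [h2]
    have h4 := ha z hz
    rw [mul_inv_eq_iff_eq_mul, mul_assoc, h4, inv_mul_cancel_left]

theorem Hc_mul {Z : Set B} (x : Artin M) {y : Artin M} (hy : y ∈ Hc cs Z) :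
    ((st Z (x * y) (e1 cs Z) : {w : W // RMin cs Z w}) : W) =
      (st Z x (e1 cs Z) : {w : W // RMin cs Z w}) * (st Z y (e1 cs Z) : {w : W // RMin cs Z w}) ∧
    ka Z (x * y) (e1 cs Z) = ka Z x (e1 cs Z) * ka Z y (e1 cs Z) := by
  rw [st_mul, ka_mul]
  obtain ⟨h1, h2⟩ := sync_id cs Z _ hy x
  rw [h1, h2]
  exact ⟨rfl, rfl⟩

theorem Pu_le_Hc (Z : Set B) : Pu cs ≤ Hc cs Z := by
  intro y hy z _
  rw [st_pure Z hy]
  simp [e1]

/-- the homomorphism of the labels -/
noncomputable def lam (Z : Set B) : Hc cs Z →* Artin (rs M Z) × W where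
  toFun y := (ka Z (y : Artin M) (e1 cs Z),
    ((st Z (y : Artin M) (e1 cs Z) : {w : W // RMin cs Z w}) : W))
  map_one' := by
    show (ka Z (1 : Artin M) (e1 cs Z), ((st Z (1 : Artin M) (e1 cs Z) :
      {w : W // RMin cs Z w}) : W)) = 1
    rw [ka_one, st_one]
    rfl
  map_mul' x y := by
    obtain ⟨h1, h2⟩ := Hc_mul cs (Z := Z) (x : Artin M) y.2
    exact Prod.ext h2 h1

theorem lam_ker {Z : Set B} {y : Hc cs Z} : lam cs Z y = 1 ↔ (y : Artin M) ∈ KZ cs Z := by
  constructor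
  · intro h
    have h1 : ka Z (y : Artin M) (e1 cs Z) = 1 := congrArg Prod.fst h
    have h2 : ((st Z (y : Artin M) (e1 cs Z) : {w : W // RMin cs Z w}) : W) = 1 :=
      congrArg Prod.snd h
    have h3 := th Z (y : Artin M) (e1 cs Z)
    rw [h1, h2, map_one, mul_one] at h3
    refine ⟨?_, h1⟩
    have h4 : (1 : W) = pr cs (y : Artin M) * 1 := h3
    rw [mul_one] at h4
    exact h4.symm
  · intro h
    refine Prod.ext h.2 ?_
    show ((st Z (y : Artin M) (e1 cs Z) : {w : W // RMin cs Z w}) : W) = 1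
    rw [st_pure Z h.1]
    rfl

theorem KZ_norm {Z : Set B} {x : Artin M} (hx : x ∈ Hc cs Z) :
    ∀ k ∈ KZ cs Z, ∀ n : ℤ, x ^ n * k * (x ^ n)⁻¹ ∈ KZ cs Z := by
  intro k hk n
  have h1 : k ∈ Hc cs Z := Pu_le_Hc cs Z hk.1
  have h2 : lam cs Z ⟨k, h1⟩ = 1 := (lam_ker cs).2 hk
  have h3 : lam cs Z (⟨x, hx⟩ ^ n * ⟨k, h1⟩ * (⟨x, hx⟩ ^ n)⁻¹) = 1 := by
    rw [map_mul, map_mul, h2, mul_one, ← map_mul, mul_inv_cancel, map_one]
  exact (lam_ker cs).1 h3

/-- a power which centralizes -/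
theorem exists_pow (Z : Set B) (g : Artin M)
    (hg : ∀ r : W, r ∈ Par cs Z ↔ (pr cs g)⁻¹ * r * pr cs g ∈ Par cs Z) :
    ∃ m : ℕ, 0 < m ∧ g ^ m ∈ Hc cs Z := by
  obtain ⟨φ, hφ⟩ : ∃ φ : {w : W // RMin cs Z w}, φ = st Z g (e1 cs Z) := ⟨_, rfl⟩
  obtain ⟨p, hp⟩ : ∃ p : W, p = prX cs Z (ka Z g (e1 cs Z)) := ⟨_, rfl⟩
  have hpm : p ∈ Par cs Z := by rw [hp]; exact prX_mem cs Z _
  have hw : pr cs g = φ * p := by
    rw [hφ, hp, th]
    show pr cs g = pr cs g * 1
    rw [mul_one]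
  have hn : ∀ r : W, r ∈ Par cs Z ↔ (φ : W)⁻¹ * r * φ ∈ Par cs Z := by
    intro r
    rw [hg, hw]
    have e : ((φ : W) * p)⁻¹ * r * (φ * p) = p⁻¹ * ((φ : W)⁻¹ * r * φ) * p := by group
    rw [e]
    constructor
    · intro h
      have h1 := Subgroup.mul_mem _ (Subgroup.mul_mem _ hpm h) (Subgroup.inv_mem _ hpm)
      have e2 : p * (p⁻¹ * ((φ : W)⁻¹ * r * φ) * p) * p⁻¹ = (φ : W)⁻¹ * r * φ := by group
      rwa [e2] at h1
    · intro h
      exact Subgroup.mul_mem _ (Subgroup.mul_mem _ (Subgroup.inv_mem _ hpm) h) hpm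
  have hst : ∀ z : Z, ∃ t : Z, cs.simple (z : B) * (φ : W) = φ * cs.simple (t : B) := by
    intro z
    obtain ⟨t, ht, h⟩ := stab_simple φ.2 (s := z) (by
      rw [← mul_assoc]
      exact (hn _).1 (simple_mem_par z.2))
    exact ⟨⟨t, ht⟩, h⟩
  choose θ hθ using hst
  have hθinj : Function.Injective θ := by
    intro z z' h
    have h1 := hθ z
    rw [h, ← hθ z'] at h1
    exact Subtype.ext (simple_injective cs (mul_right_cancel h1))
  -- powers
  have hpow : ∀ n : ℕ, ((st Z (g ^ n) (e1 cs Z) : {w : W // RMin cs Z w}) : W) = (φ : W) ^ n := by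
    intro n
    induction n with
    | zero => rw [pow_zero, st_one, pow_zero]; rfl
    | succ n ih =>
      rw [pow_succ, st_mul, ← hφ, pow_succ]
      obtain ⟨R, -, hTr⟩ := exists_Tr (cs := cs) (g ^ n)
      have h := (sync φ.2 θ hθ hTr (fun r _ hr => (hn r).2 hr)).1
      rw [ih] at h
      exact h
  obtain ⟨m, hm, hm'⟩ : ∃ m : ℕ, 0 < m ∧ θ^[m] = id := by
    let σ : Equiv.Perm Z := Equiv.ofBijective θ
      (Finite.injective_iff_bijective.1 hθinj)
    refine ⟨orderOf σ, orderOf_pos σ, ?_⟩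
    have h1 : σ ^ orderOf σ = 1 := pow_orderOf_eq_one σ
    have h2 : ∀ n : ℕ, ⇑(σ ^ n) = θ^[n] := by
      intro n
      rw [← Equiv.Perm.iterate_eq_pow]
      rfl
    rw [← h2, h1]
    rfl
  have hcomm : ∀ (n : ℕ) (z : Z), cs.simple (z : B) * (φ : W) ^ n =
      (φ : W) ^ n * cs.simple ((θ^[n] z : Z) : B) := by
    intro n
    induction n with
    | zero => intro z; simp
    | succ n ih =>
      intro z
      rw [pow_succ', ← mul_assoc, hθ, mul_assoc, ih, ← mul_assoc, Function.iterate_succ_apply]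
  refine ⟨m, hm, fun z hz => ?_⟩
  rw [hpow]
  have h1 := hcomm m ⟨z, hz⟩
  rw [hm'] at h1
  exact h1

/-- finite index -/
theorem fin_index (Z : Set B) (g : Artin M) {m : ℕ} (hm : 0 < m) (h : g ^ m ∈ Hc cs Z) :
    ((Hc cs Z).subgroupOf (Pu cs ⊔ Subgroup.zpowers g)).FiniteIndex := by
  obtain ⟨E, hE⟩ : ∃ E : Subgroup (Artin M), E = Pu cs ⊔ Subgroup.zpowers g := ⟨_, rfl⟩
  rw [← hE]
  have hgE : g ∈ E := by rw [hE]; exact Subgroup.mem_sup_right (Subgroup.mem_zpowers g)
  obtain ⟨F, hF⟩ : ∃ F : Fin m → E ⧸ (Hc cs Z).subgroupOf E,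
      F = fun i : Fin m => (((⟨g, hgE⟩ : E) ^ (i : ℕ) : E) : E ⧸ (Hc cs Z).subgroupOf E) := ⟨_, rfl⟩
  have hsurj : Function.Surjective F := by
    intro y
    obtain ⟨⟨y, hy⟩, rfl⟩ := QuotientGroup.mk_surjective y
    have hy' := hy
    rw [hE] at hy'
    obtain ⟨a, ha, j, rfl, -⟩ := mem_pz cs hy'
    have hm' : (m : ℤ) ≠ 0 := by exact_mod_cast hm.ne'
    have h1 := Int.emod_nonneg j hm'
    have h2 := Int.emod_lt_of_pos j (by exact_mod_cast hm : (0 : ℤ) < m)
    refine ⟨⟨(j % m).toNat, by omega⟩, ?_⟩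
    rw [hF]
    show (((⟨g, hgE⟩ : E) ^ (j % m).toNat : E) : E ⧸ (Hc cs Z).subgroupOf E) = _
    rw [QuotientGroup.eq, Subgroup.mem_subgroupOf]
    show (g ^ (j % m).toNat)⁻¹ * (a * g ^ j) ∈ Hc cs Z
    have e : g ^ j = g ^ (j % m).toNat * (g ^ m) ^ (j / m) := by
      rw [← zpow_natCast, ← zpow_natCast, Int.toNat_of_nonneg h1, ← zpow_mul, ← zpow_add,
        Int.emod_add_mul_ediv]
    rw [e]
    have e2 : (g ^ (j % m).toNat)⁻¹ * (a * (g ^ (j % m).toNat * (g ^ m) ^ (j / m))) =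
        ((g ^ (j % m).toNat)⁻¹ * a * ((g ^ (j % m).toNat)⁻¹)⁻¹) * (g ^ m) ^ (j / m) := by group
    rw [e2]
    exact Subgroup.mul_mem _ (Pu_le_Hc cs Z (Subgroup.Normal.conj_mem inferInstance a ha _))
      (Subgroup.zpow_mem _ h _)
  have hfin : Finite (E ⧸ (Hc cs Z).subgroupOf E) := Finite.of_surjective F hsurj
  exact Subgroup.finiteIndex_of_finite_quotient

/-- **hyperbolic elements** (the common stabilizer of the axis is standard) -/
theorem step_c2 {C : ∀ (G : Type) [Group G], Prop} (hCtr : S_CTR) (hSh : S_SHIFT) (hHyl : S_HYL)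
    (hDyn : S_DYN) (hC : ClosedE C) (hM : ∀ (G : Type) [Group G], derivedSeries G 2 = ⊥ → C G)
    (hW : C W)
    (X0 X1 : Set B) (hT : (csg (io M X0).range (io M X1).range).IsTree)
    (hTb : (csg (Par cs X0) (Par cs X1)).IsTree)
    (h0 : C (Artin (rs M X0))) (h1 : C (Artin (rs M X1)))
    (Z : Set B) (hZ : C (Artin (rs M Z))) (L : ℤ → VB cs X0 X1) (g : Artin M) (l : ℕ)
    (hL : IsAxis (csg (Par cs X0) (Par cs X1)) (pr cs g) L l)
    (hP : ∀ r : W, r ∈ Par cs Z ↔ ∀ i, r • L i = L i) :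
    C ↥(Pu cs ⊔ Subgroup.zpowers g) := by
  have hN : C (Pu cs) := C_pure cs hC X0 X1 hT h0 h1
  have hg : ∀ r : W, r ∈ Par cs Z ↔ (pr cs g)⁻¹ * r * pr cs g ∈ Par cs Z := by
    intro r
    rw [hP, hP]
    constructor
    · intro h i
      rw [mul_smul, mul_smul, hL.smul, h, ← hL.smul, inv_smul_smul]
    · intro h i
      have h2 := h (i - l)
      rw [mul_smul, mul_smul, hL.smul, inv_smul_eq_iff, hL.smul, sub_add_cancel] at h2
      exact h2
  obtain ⟨m, hm, hgm⟩ := exists_pow cs Z g hg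
  have hfi := fin_index cs Z g hm hgm
  refine hC.base.finiteIndex _ _ hfi ?_
  obtain ⟨D, hD⟩ : ∃ D : Subgroup (Hc cs Z), D = (Pu cs ⊔ Subgroup.zpowers g).subgroupOf (Hc cs Z) :=
    ⟨_, rfl⟩
  have hDm : ∀ t : Hc cs Z, t ∈ D → (t : Artin M) ∈ Pu cs ⊔ Subgroup.zpowers g := by
    intro t ht
    rw [hD] at ht
    exact Subgroup.mem_subgroupOf.1 ht
  have key : C D := by
    obtain ⟨N0, hN0⟩ : ∃ N0 : Subgroup D, N0 = ((lam cs Z).comp D.subtype).ker := ⟨_, rfl⟩
    have hmemN0 : ∀ x : D, x ∈ N0 ↔ (((x : D) : Hc cs Z) : Artin M) ∈ KZ cs Z := by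
      intro x
      rw [hN0, MonoidHom.mem_ker]
      exact lam_ker cs
    have hN0n : N0.Normal := by rw [hN0]; infer_instance
    have hemb : ∀ (K : Subgroup D) (E : Subgroup (Artin M)), C E →
        (∀ x ∈ K, (((x : D) : Hc cs Z) : Artin M) ∈ E) → C K := by
      intro K E hE hKE
      refine hC.base.of_injective K E
        { toFun := fun x => ⟨((((x : K) : D) : Hc cs Z) : Artin M), hKE x x.2⟩
          map_one' := rfl
          map_mul' := fun _ _ => rfl } ?_ hE
      intro a b hab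
      exact Subtype.ext (Subtype.ext (Subtype.ext (congrArg (fun y : E => (y : Artin M)) hab)))
    refine Pool.Agent.Y529.FJ.t_ext C hC D N0 ?_ ?_ ?_
    · exact hemb N0 (Pu cs) hN fun x hx => KZ_le cs Z ((hmemN0 x).1 hx)
    · have h2 : C (Artin (rs M Z) × W) := hC.base.prod _ _ hZ hW
      subst hN0
      exact hC.base.of_injective _ _ (QuotientGroup.kerLift ((lam cs Z).comp D.subtype))
        (QuotientGroup.kerLift_injective _) h2
    · intro x _
      obtain ⟨y, hy⟩ : ∃ y : Artin M, y = (((x : D) : Hc cs Z) : Artin M) := ⟨_, rfl⟩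
      have hyH : y ∈ Hc cs Z := by rw [hy]; exact (x : Hc cs Z).2
      have hyE : y ∈ Pu cs ⊔ Subgroup.zpowers g := by
        rw [hy]
        exact hDm _ x.2
      obtain ⟨a, ha, j, hyaj, hpry⟩ := mem_pz cs hyE
      by_cases hj : j = 0
      · refine hemb _ (Pu cs) hN ?_
        have h3 : N0 ⊔ Subgroup.zpowers x ≤
            (Pu cs).comap ((Hc cs Z).subtype.comp D.subtype) := by
          refine sup_le ?_ ?_
          · intro t ht
            exact KZ_le cs Z ((hmemN0 t).1 ht)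
          · rw [Subgroup.zpowers_le]
            show (((x : D) : Hc cs Z) : Artin M) ∈ Pu cs
            rw [← hy, hyaj, hj, zpow_zero, mul_one]
            exact ha
        exact fun t ht => h3 ht
      · refine hemb _ (KZ cs Z ⊔ Subgroup.zpowers y) ?_ ?_
        · exact step_c1 cs hCtr hSh hHyl hDyn hC hM X0 X1 hT hTb h0 h1 Z L (pr cs g) l hL hP y j hj
            hpry (KZ_norm cs hyH)
        · have h3 : N0 ⊔ Subgroup.zpowers x ≤
              (KZ cs Z ⊔ Subgroup.zpowers y).comap ((Hc cs Z).subtype.comp D.subtype) := by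
            refine sup_le ?_ ?_
            · intro t ht
              exact Subgroup.mem_sup_left ((hmemN0 t).1 ht)
            · rw [Subgroup.zpowers_le]
              have h4 : (((x : D) : Hc cs Z) : Artin M) ∈ KZ cs Z ⊔ Subgroup.zpowers y := by
                rw [← hy]
                exact Subgroup.mem_sup_right (Subgroup.mem_zpowers y)
              exact h4
          exact fun t ht => h3 ht
  refine hC.base.of_injective _ _
    { toFun := fun x : ↥((Hc cs Z).subgroupOf (Pu cs ⊔ Subgroup.zpowers g)) =>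
        (⟨⟨((x : ↥(Pu cs ⊔ Subgroup.zpowers g)) : Artin M), Subgroup.mem_subgroupOf.1 x.2⟩, by
          rw [hD, Subgroup.mem_subgroupOf]
          exact (x : ↥(Pu cs ⊔ Subgroup.zpowers g)).2⟩ : D)
      map_one' := rfl
      map_mul' := fun _ _ => rfl } ?_ key
  intro a b hab
  exact Subtype.ext (Subtype.ext (congrArg (fun y : D => (((y : D) : Hc cs Z) : Artin M)) hab))

end Pool.Agent.L7h59.AR
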