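import Pool.Agent.L7h59.AR.StepD

/-!
# Hyperbolic elements in general, the induction step
-/

set_option autoImplicit false
set_option linter.unusedSectionVars false

namespace Pool.Agent.L7h59.AR

open CoxeterSystem Pool.Agent.Helper703.Cox Pool.Agent.TH5.BD
open Pool.Agent.Y110.FJ
open Pool.Agent.Helper270.Tree
open Pool.Agent.Y462.SS (Closed)

section

variable {B : Type} [Fintype B] [DecidableEq B] {M : CoxeterMatrix B} {W : Type} [Group W]
  (cs : CoxeterSystem M W)

theorem pr_surjective : Function.Surjective (pr cs) := by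
  rw [← MonoidHom.range_eq_top, eq_top_iff, ← cs.subgroup_closure_range_simple,
    Subgroup.closure_le]
  rintro _ ⟨s, rfl⟩
  exact ⟨Artin.gen M s, pr_gen cs s⟩

theorem par_univ : Par cs Set.univ = ⊤ := by
  unfold Par
  rw [Set.image_univ]
  exact cs.subgroup_closure_range_simple

/-- **hyperbolic elements** -/
theorem step_c3 {C : ∀ (G : Type) [Group G], Prop} (hCtr : S_CTR) (hSh : S_SHIFT) (hHyl : S_HYL)
    (hDyn : S_DYN) (hC : ClosedE C) (hM : ∀ (G : Type) [Group G], derivedSeries G 2 = ⊥ → C G)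
    (hW : C W)
    (X0 X1 : Set B) (hT : (csg (io M X0).range (io M X1).range).IsTree)
    (hTb : (csg (Par cs X0) (Par cs X1)).IsTree)
    (h0 : C (Artin (rs M X0))) (h1 : C (Artin (rs M X1)))
    (hZ : ∀ Z : Set B, Z ≠ Set.univ → C (Artin (rs M Z))) (g : Artin M)
    (hg : ∀ v : VB cs X0 X1, pr cs g • v ≠ v) :
    C ↥(Pu cs ⊔ Subgroup.zpowers g) := by
  have hA := csg_treeAct hTb
  obtain ⟨L, l, hL⟩ := hA.exists_axis hg
  obtain ⟨d, Z, hd⟩ := chain (fun i => MulAction.stabilizer W (L i)) fun i => isPb_stab X0 X1 (L i)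
  obtain ⟨δ, hδ⟩ := pr_surjective cs d
  obtain ⟨g', hg'⟩ : ∃ g', g' = δ⁻¹ * g * δ := ⟨_, rfl⟩
  obtain ⟨L', hL'⟩ : ∃ L' : ℤ → VB cs X0 X1, L' = fun i => d⁻¹ • L i := ⟨_, rfl⟩
  have hprg' : pr cs g' = d⁻¹ * pr cs g * d := by
    rw [hg', map_mul, map_mul, map_inv, hδ]
  have hL2 : IsAxis (csg (Par cs X0) (Par cs X1)) (pr cs g') L' l := by
    refine ⟨⟨fun i => ?_, fun i => ?_⟩, hL.pos, fun i => ?_⟩
    · rw [hL']
      exact csg_smul _ _ _ (hL.line.adj i)
    · rw [hL']
      exact fun h => hL.line.nb i (smul_left_cancel _ h)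
    · rw [hL', hprg']
      show (d⁻¹ * pr cs g * d) • d⁻¹ • L i = d⁻¹ • L (i + l)
      rw [← mul_smul, mul_assoc, mul_inv_cancel, mul_one, mul_smul, hL.smul]
  have hP : ∀ r : W, r ∈ Par cs (Z : Set B) ↔ ∀ i, r • L' i = L' i := by
    intro r
    have e : r = d⁻¹ * (d * r * d⁻¹) * d := by group
    have h2 : r ∈ Par cs (Z : Set B) ↔ d * r * d⁻¹ ∈ Pb cs d Z := by
      rw [mem_Pb, ← e]
    rw [h2, ← hd, Subgroup.mem_iInf]
    refine forall_congr' fun i => ?_
    rw [MulAction.mem_stabilizer_iff, hL', mul_smul, mul_smul]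
    constructor
    · intro h
      exact smul_left_cancel d (by rw [h, smul_inv_smul])
    · intro h
      show d • r • d⁻¹ • L i = L i
      have h' : r • d⁻¹ • L i = d⁻¹ • L i := h
      rw [h', smul_inv_smul]
  have hZne : (Z : Set B) ≠ Set.univ := by
    intro h
    have h2 : pr cs g' ∈ Par cs (Z : Set B) := by
      rw [h, par_univ]
      trivial
    have h3 := (hP _).1 h2 0
    rw [hL2.smul] at h3
    have h4 := hL2.line.injective hTb h3
    have h5 := hL2.pos
    omega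
  have key := step_c2 cs hCtr hSh hHyl hDyn hC hM hW X0 X1 hT hTb h0 h1 Z (hZ _ hZne) L' g' l hL2 hP
  refine hC.base.of_injective _ _ (((MulAut.conj δ⁻¹).toMonoidHom.comp
    (Subgroup.subtype (Pu cs ⊔ Subgroup.zpowers g))).codRestrict
      (Pu cs ⊔ Subgroup.zpowers g') ?_) ?_ key
  · rintro ⟨x, hx⟩
    have h2 : Pu cs ⊔ Subgroup.zpowers g ≤
        (Pu cs ⊔ Subgroup.zpowers g').comap (MulAut.conj δ⁻¹).toMonoidHom := by
      refine sup_le ?_ ?_
      · intro t ht
        refine Subgroup.mem_sup_left ?_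
        show δ⁻¹ * t * (δ⁻¹)⁻¹ ∈ Pu cs
        exact Subgroup.Normal.conj_mem inferInstance t ht _
      · rw [Subgroup.zpowers_le]
        refine Subgroup.mem_sup_right ?_
        show δ⁻¹ * g * (δ⁻¹)⁻¹ ∈ Subgroup.zpowers g'
        rw [inv_inv, ← hg']
        exact Subgroup.mem_zpowers g'
    exact h2 hx
  · intro a b hab
    have h2 : (MulAut.conj δ⁻¹) (a : Artin M) = (MulAut.conj δ⁻¹) (b : Artin M) :=
      congrArg Subtype.val hab
    exact Subtype.ext ((MulAut.conj δ⁻¹).injective h2)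

include cs in
/-- **the step** -/
theorem step_main {C : ∀ (G : Type) [Group G], Prop} (hTree : S_TREE) (hCtr : S_CTR)
    (hSh : S_SHIFT) (hEll : S_ELL) (hHyl : S_HYL) (hDyn : S_DYN) (hAma : S_AMA) (hAmw : S_AMW)
    (hC : ClosedE C) (hM : ∀ (G : Type) [Group G], derivedSeries G 2 = ⊥ → C G)
    (hW : C W) (v v' : B) (hv : M v v' = 0)
    (hX : ∀ X : Set B, X ≠ Set.univ → C (Artin (rs M X))) : C (Artin M) := by
  have hT := hTree (Artin M) _ _ _ (hAma B M v v' hv)
  have hTb := hTree W _ _ _ (hAmw B W M cs v v' hv)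
  have hne : ∀ v : B, ({v}ᶜ : Set B) ≠ Set.univ := by
    intro v h
    have h2 : v ∈ ({v}ᶜ : Set B) := by rw [h]; trivial
    exact h2 rfl
  have h0 := hX _ (hne v)
  have h1 := hX _ (hne v')
  refine Pool.Agent.Y529.FJ.t_ext C hC (Artin M) (Pu cs) (C_pure cs hC _ _ hT h0 h1) ?_ ?_
  · exact hC.base.of_injective _ _ (QuotientGroup.kerLift (pr cs))
      (QuotientGroup.kerLift_injective _) hW
  · intro g _
    by_cases hg : ∃ v0 : VB cs ({v}ᶜ : Set B) ({v'}ᶜ : Set B), pr cs g • v0 = v0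
    · obtain ⟨v0, hv0⟩ := hg
      exact step_b cs hCtr hEll hC hM _ _ hT hTb h0 h1 g v0 hv0
    · push Not at hg
      exact step_c3 cs hCtr hSh hHyl hDyn hC hM hW _ _ hT hTb h0 h1 hX g hg

end

/-- restriction of a restriction -/
theorem C_rs_rs {C : ∀ (G : Type) [Group G], Prop} (hC : Closed C) {B : Type}
    (M : CoxeterMatrix B) (X : Set B) (Y : Set X)
    (h : C (Artin (rs M (Subtype.val '' Y)))) : C (Artin (rs (rs M X) Y)) := by
  have hb : ∀ t : ↥(Subtype.val '' Y), ∃ y : Y, ((y : X) : B) = t := by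
    rintro ⟨_, y, hy, rfl⟩
    exact ⟨⟨y, hy⟩, rfl⟩
  choose b hb using hb
  let f : Artin (rs (rs M X) Y) →* Artin (rs M (Subtype.val '' Y)) :=
    Artin.lift (fun t => Artin.gen (rs M (Subtype.val '' Y)) ⟨((t : X) : B), (t : X), t.2, rfl⟩)
      (fun i j => Artin.rel (M := rs M (Subtype.val '' Y)) ⟨((i : X) : B), (i : X), i.2, rfl⟩
        ⟨((j : X) : B), (j : X), j.2, rfl⟩)
  let f' : Artin (rs M (Subtype.val '' Y)) →* Artin (rs (rs M X) Y) :=
    Artin.lift (fun t => Artin.gen (rs (rs M X) Y) (b t)) (fun i j => by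
      have h1 := Artin.rel (M := rs (rs M X) Y) (b i) (b j)
      have h2 : (rs (rs M X) Y) (b i) (b j) = (rs M (Subtype.val '' Y)) i j := by
        show M ((b i : X) : B) ((b j : X) : B) = M i j
        rw [hb, hb]
      rw [h2] at h1
      exact h1)
  refine hC.of_injective _ _ f ?_ h
  have h1 : f'.comp f = MonoidHom.id _ := by
    apply Artin.hom_ext
    intro t
    rw [MonoidHom.comp_apply]
    have e1 : f (Artin.gen _ t) = Artin.gen _ ⟨((t : X) : B), (t : X), t.2, rfl⟩ :=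
      Artin.lift_gen _ _ _
    rw [e1]
    have e2 : f' (Artin.gen _ ⟨((t : X) : B), (t : X), t.2, rfl⟩) =
        Artin.gen _ (b ⟨((t : X) : B), (t : X), t.2, rfl⟩) := Artin.lift_gen _ _ _
    rw [e2]
    have e3 : b ⟨((t : X) : B), (t : X), t.2, rfl⟩ = t := by
      apply Subtype.ext
      apply Subtype.ext
      exact hb _
    rw [e3]
    rfl
  intro x y hxy
  have h2 := congrArg f' hxy
  have h3 : ∀ z, f' (f z) = z := fun z => DFunLike.congr_fun h1 z
  rwa [h3, h3] at h2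

/-- **the induction** -/
theorem finite_rank {C : ∀ (G : Type) [Group G], Prop} (hTree : S_TREE) (hCtr : S_CTR)
    (hSh : S_SHIFT) (hEll : S_ELL) (hHyl : S_HYL) (hDyn : S_DYN) (hAma : S_AMA) (hAmw : S_AMW)
    (hC : ClosedE C) (hM : ∀ (G : Type) [Group G], derivedSeries G 2 = ⊥ → C G)
    (hCox : ∀ (S : Type) (A : CoxeterMatrix S), Finite S → C A.Group)
    {B : Type} (M : CoxeterMatrix B)
    (hX : ∀ X : Set B, X.Finite → (∀ i ∈ X, ∀ j ∈ X, M i j ≠ 0) → C (Artin (rs M X))) :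
    ∀ (n : ℕ) (X : Set B), X.Finite → X.ncard = n → C (Artin (rs M X)) := by
  intro n
  induction n using Nat.strong_induction_on with
  | _ n ih =>
    intro X hXf hXn
    by_cases hcomp : ∀ i ∈ X, ∀ j ∈ X, M i j ≠ 0
    · exact hX X hXf hcomp
    · push Not at hcomp
      obtain ⟨v, hv, v', hv', hvv⟩ := hcomp
      classical
      have hF : Fintype X := hXf.fintype
      refine step_main (rs M X).toCoxeterSystem hTree hCtr hSh hEll hHyl hDyn hAma hAmw hC hM
        (hCox X (rs M X) inferInstance) ⟨v, hv⟩ ⟨v', hv'⟩ hvv fun Y hY => ?_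
      refine C_rs_rs hC.base M X Y ?_
      have h1 : (Subtype.val '' Y : Set B) ⊂ X := by
        refine Set.ssubset_iff_subset_ne.2 ⟨?_, fun h => hY ?_⟩
        · rintro _ ⟨y, _, rfl⟩
          exact y.2
        · ext y
          refine ⟨fun _ => trivial, fun _ => ?_⟩
          have h2 : (y : B) ∈ (Subtype.val '' Y : Set B) := by rw [h]; exact y.2
          obtain ⟨y', hy', h3⟩ := h2
          rwa [Subtype.ext h3] at hy'
      exact ih _ (by rw [← hXn]; exact Set.ncard_lt_ncard h1 hXf) _ (hXf.subset h1.subset) rfl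

end Pool.Agent.L7h59.AR
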