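import Pool.Agent.N509.TK.Loc2
import Pool.Agent.R941.FJ.Hyper

/-!
# Project AR: Farrell–Jones for Artin groups. Independent statements.

`ClosedE`, `Amg` are in `Pool.Agent.Y110.FJ.Stm`; the criterion for actions on trees with a
homomorphism for each edge is `Pool.Agent.N509.TK.hedges`.
-/

set_option autoImplicit false

namespace Pool.Agent.L7h59.AR

open Pool.Agent.Y110.FJ

/-- The Bass–Serre graph of two subgroups `A`, `B` of `G`: vertices are the left cosets `g A` and
`g B`; the cosets `g A` and `g B` of the same `g` are adjacent. -/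
def csg {G : Type} [Group G] (A B : Subgroup G) : SimpleGraph ((G ⧸ A) ⊕ (G ⧸ B)) where
  Adj x y := ∃ g : G, (x = Sum.inl (g : G ⧸ A) ∧ y = Sum.inr (g : G ⧸ B)) ∨
    (y = Sum.inl (g : G ⧸ A) ∧ x = Sum.inr (g : G ⧸ B))
  symm := ⟨by rintro x y ⟨g, h | h⟩; exacts [⟨g, Or.inr h⟩, ⟨g, Or.inl h⟩]⟩
  loopless := ⟨by
    rintro x ⟨g, ⟨h, h'⟩ | ⟨h, h'⟩⟩ <;> simp [h] at h'⟩

/-- The Bass–Serre graph of an amalgamated product is a tree. Connected: `A` and `B` generate `G`
(closure induction: if `x` is reachable from the base vertex then so is `g x`). Acyclic: for each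
`g0` there is `P : G → ZMod 2` with `P (g a) = P g` for `a ∈ A` and
`P (g b) + φ (g b) = P g + φ g` for `b ∈ B`, `φ` the indicator function of the coset `g0 K`: by the
universal property `Amg.univ` applied to the permutations `(g, e) ↦ (g a⁻¹, e)` for `a ∈ A` and
`(g, e) ↦ (g b⁻¹, e + φ g + φ (g b⁻¹))` for `b ∈ B` of `G × ZMod 2` (compare
`Pool.Agent.Q281.KG.Kurosh`, `rD`, `pot_inr`). So the two sides of the edge `g0` are separated:
every edge is a bridge (`SimpleGraph.isAcyclic_iff_forall_edge_isBridge`). -/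
def S_TREE : Prop := ∀ (G : Type) [Group G] (A B K : Subgroup G), Amg A B K → (csg A B).IsTree

/-- `u` and `v` are joined by a walk which avoids the set `S` -/
def Av {V : Type} (T : SimpleGraph V) (S : Set V) (u v : V) : Prop :=
  ∃ p : T.Walk u v, ∀ x ∈ p.support, x ∉ S

/-- Contraction of the components of the complement of an invariant set `S` of vertices. The
quotient of the tree `T` by the relation `u = v ∨ Av T S u v` is a tree on which `G` acts; each of
its edges has an end in `S`; apply `Pool.Agent.N509.TK.hedges` to it. -/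
def S_CTR : Prop := ∀ C : ∀ (G : Type) [Group G], Prop, ClosedE C →
  (∀ (G : Type) [Group G], derivedSeries G 2 = ⊥ → C G) →
  ∀ (G V : Type) [Group G] [MulAction G V] (T : SimpleGraph V), T.IsTree →
    (∀ (g : G) (u v : V), T.Adj u v → T.Adj (g • u) (g • v)) →
    ∀ S : Set V, (∀ (g : G), ∀ v ∈ S, g • v ∈ S) →
      (∀ v ∈ S, C ↥(MulAction.stabilizer G v)) →
      (∀ v ∉ S, ∀ K : Subgroup G, (∀ g ∈ K, Av T S v (g • v)) → C K) →
      (∀ v ∈ S, ∃ (P : Type) (_ : Group P) (f : G →* P), C P ∧
        ∀ x : G, x • v = v → f x = 1 → x = 1) → C G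

/-- A homomorphism `ρ` from a normal subgroup `K` with `H = K ⋊ ⟨x⟩` to a group in `C` such that for
each `k ∈ K` almost all values `ρ (x ^ n * k * x ^ (-n))` are trivial extends to `H` in the
following sense (the target is the restricted wreath product of `A` and `ℤ`, which is in `C`: see
`Pool.Agent.R941.FJ.Rdp`, `rdp`, or the colimit of HNN extensions). -/
def S_SHIFT : Prop := ∀ C : ∀ (G : Type) [Group G], Prop, ClosedE C →
  ∀ (A H : Type) [Group A] [Group H], C A → ∀ (K : Subgroup H) [K.Normal] (x : H),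
    (∀ n : ℕ, 0 < n → x ^ n ∉ K) → K ⊔ Subgroup.zpowers x = ⊤ → ∀ ρ : K →* A,
      (∀ k : K, {n : ℤ | ρ ⟨x ^ n * k * (x ^ n)⁻¹, Subgroup.Normal.conj_mem inferInstance _ k.2 _⟩
        ≠ 1}.Finite) →
      ∃ (P : Type) (_ : Group P) (f : H →* P), C P ∧ ∀ k : K, f k = 1 → ρ k = 1

end Pool.Agent.L7h59.AR
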