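import Pool.Agent.L7h59.AR.Stm
import Pool.Agent.L7h59.AR.Act2
import Pool.Agent.Helper270.Tree

/-!
# Project AR: further independent statements
-/

set_option autoImplicit false

namespace Pool.Agent.L7h59.AR

open Pool.Agent.Y110.FJ
open Pool.Agent.Y462.SS (Closed)
open Pool.Agent.Helper703.Cox Pool.Agent.TH5.BD
open Pool.Agent.Helper270.Tree

/-- The Artin group of any rank is the directed colimit of the Artin groups of the finite sets of
generators (`Closed.colim` with `I = Finset B`; an element of `Artin (rs M X)`, `X` finite, which is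
trivial in `Artin M` is trivial in `Artin (rs M Y)` for some finite `Y ⊇ X`, because membership in the
normal closure of the relators uses finitely many generators). -/
def S_ANY : Prop := ∀ C : ∀ (G : Type) [Group G], Prop, Closed C →
  ∀ (B : Type) (M : CoxeterMatrix B), (∀ X : Set B, X.Finite → C (Artin (rs M X))) → C (Artin M)

/-- Artin groups are amalgams if some label is infinite (coded `0`): universal property by
`Artin.lift`. -/
def S_AMA : Prop := ∀ (B : Type) [Fintype B] [DecidableEq B] (M : CoxeterMatrix B) (v v' : B),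
  M v v' = 0 → Amg (io M {v}ᶜ).range (io M {v'}ᶜ).range (io M ({v}ᶜ ∩ {v'}ᶜ)).range

/-- Coxeter groups are amalgams if some label is infinite: universal property by `cs.lift`. -/
def S_AMW : Prop := ∀ (B W : Type) [Group W] (M : CoxeterMatrix B) (cs : CoxeterSystem M W)
  (v v' : B), M v v' = 0 → Amg (Par cs {v}ᶜ) (Par cs {v'}ᶜ) (Par cs ({v}ᶜ ∩ {v'}ᶜ))

/-- Elliptic elements: let `w` fix the vertex `v0`, let `S` be the set of the vertices with finite
orbit under `w` and `z ∉ S`. No walk from `z` to `w ^ j z`, `j ≠ 0`, avoids `S`. (Replace `w ^ j` by a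
power which fixes the vertex `s` of `S` nearest to `z`; the path from `z` to `s` meets `S` only in `s`;
its last vertex `u` before `s` has an infinite orbit, `u` and `w ^ n u ≠ u` are both adjacent to `s`, and
the walk joins them avoiding `s`, but the unique path is `u, s, w ^ n u`.) -/
def S_ELL : Prop := ∀ (G V : Type) [Group G] [MulAction G V] (T : SimpleGraph V), T.IsTree →
  (∀ (g : G) (u v : V), T.Adj u v → T.Adj (g • u) (g • v)) → ∀ (w : G) (v0 : V), w • v0 = v0 →
    ∀ z : V, (∀ m : ℕ, 0 < m → w ^ m • z ≠ z) → ∀ j : ℤ, j ≠ 0 →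
      ¬ Av T {v | ∃ m : ℕ, 0 < m ∧ w ^ m • v = v} z (w ^ j • z)

/-- Hyperbolic elements: every walk from `z` to `w ^ j z`, `j ≠ 0`, meets the axis
(`TreeAct.proj_between` for `w ^ j`, and every walk contains the path). -/
def S_HYL : Prop := ∀ (G V : Type) [Group G] [MulAction G V] (T : SimpleGraph V), TreeAct G T →
  ∀ (w : G) (L : ℤ → V) (l : ℕ), IsAxis T w L l → ∀ (z : V) (j : ℤ), j ≠ 0 →
    ¬ Av T (Set.range L) z (w ^ j • z)

/-- Let `Q i` be parabolic subgroups (`IsPb`) of a Coxeter group of finite rank with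
`w (Q i) w⁻¹ = Q (i + l)`, such that the set of the `i` with `r ∈ Q i` is convex for all `r`. If it is
infinite then `r ∈ Q i` for all `i`. (Let `R i` be the intersection of the `Q k`, `k ≥ i`; it is
parabolic by `chain`, `R i ≤ R (i + l) = w (R i) w⁻¹`, so they are equal by `IsPb.eq_of_conj` and
`R i ≤ R k` for all `k`. The same with `w⁻¹` for the intersections of the `Q k`, `k ≤ i`.) -/
def S_DYN : Prop := ∀ (B W : Type) [Fintype B] [DecidableEq B] [Group W] (M : CoxeterMatrix B)
  (cs : CoxeterSystem M W) (Q : ℤ → Subgroup W) (w : W) (l : ℕ), 0 < l →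
    (∀ i, IsPb cs (Q i)) → (∀ i, (Q i).map (MulAut.conj w).toMonoidHom = Q (i + l)) →
    (∀ (r : W) (i j k : ℤ), i ≤ j → j ≤ k → r ∈ Q i → r ∈ Q k → r ∈ Q j) →
    ∀ r : W, {i | r ∈ Q i}.Infinite → ∀ i, r ∈ Q i

end Pool.Agent.L7h59.AR
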