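import Pool.Agent.L7h59.AR.Act2

/-!
# Synchronization of the labels for a smaller set of generators
-/

set_option autoImplicit false
set_option linter.unusedSectionVars false

namespace Pool.Agent.L7h59.AR

open CoxeterSystem Pool.Agent.Helper703.Cox Pool.Agent.TH5.BD

variable {B : Type} [Fintype B] [DecidableEq B] {M : CoxeterMatrix B} {W : Type} [Group W]
  {cs : CoxeterSystem M W}

variable (cs) in
/-- `g` has a word whose crossed reflections are in `R` -/
inductive Tr : Artin M → Set W → Prop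
  | one : Tr 1 ∅
  | pos (s : B) (g : Artin M) (R : Set W) : Tr g R →
      Tr (Artin.gen M s * g) (insert ((pr cs g)⁻¹ * cs.simple s * pr cs g) R)
  | neg (s : B) (g : Artin M) (R : Set W) : Tr g R →
      Tr ((Artin.gen M s)⁻¹ * g) (insert ((pr cs g)⁻¹ * cs.simple s * pr cs g) R)

theorem exists_Tr (g : Artin M) : ∃ R : Set W, R.Finite ∧ Tr cs g R := by
  have hg : g ∈ Subgroup.closure (Set.range (Artin.gen M)) := by
    rw [Artin.closure_range_gen]; trivial
  induction hg using Subgroup.closure_induction_left with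
  | one => exact ⟨∅, Set.finite_empty, Tr.one⟩
  | mul_left x hx y _ ih =>
    obtain ⟨s, rfl⟩ := hx
    obtain ⟨R, hR, h⟩ := ih
    exact ⟨_, hR.insert _, Tr.pos s y R h⟩
  | inv_mul_cancel x hx y _ ih =>
    obtain ⟨s, rfl⟩ := hx
    obtain ⟨R, hR, h⟩ := ih
    exact ⟨_, hR.insert _, Tr.neg s y R h⟩

/-- the homomorphism given by a map of the generators induced by a conjugation -/
noncomputable def mth {Z X : Set B} {w : W} (θ : Z → X)
    (hθ : ∀ z : Z, cs.simple z * w = w * cs.simple (θ z : B)) : Artin (rs M Z) →* Artin (rs M X) :=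
  Artin.lift (fun z => Artin.gen _ (θ z)) (fun i j => by
    by_cases hij : i = j
    · rw [hij]
    have hij' : (i : B) ≠ j := fun h => hij (Subtype.ext h)
    have hne : (θ i : B) ≠ θ j := by
      intro h
      have h1 := hθ i
      rw [h, ← hθ j] at h1
      exact hij' (simple_injective cs (mul_right_cancel h1))
    have h := label_eq (cs := cs) hij' hne (hθ i) (hθ j)
    have h1 := Artin.rel (M := rs M X) (θ i) (θ j)
    have h2 : (rs M X) (θ i) (θ j) = (rs M Z) i j := h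
    rw [h2] at h1
    exact h1)

theorem mth_gen {Z X : Set B} {w : W} (θ : Z → X)
    (hθ : ∀ z : Z, cs.simple z * w = w * cs.simple (θ z : B)) (z : Z) :
    mth θ hθ (Artin.gen _ z) = Artin.gen _ (θ z) := Artin.lift_gen _ _ _

theorem prX_mth {Z X : Set B} {w : W} (θ : Z → X)
    (hθ : ∀ z : Z, cs.simple z * w = w * cs.simple (θ z : B)) (a : Artin (rs M Z)) :
    prX cs Z a * w = w * prX cs X (mth θ hθ a) := by
  induction a using Artin.induction with
  | one => simp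
  | gen z => rw [mth_gen, prX_gen, prX_gen, hθ]
  | mul a b ha hb => rw [map_mul, map_mul, map_mul, mul_assoc, hb, ← mul_assoc, ha, mul_assoc]
  | inv a ha =>
    rw [map_inv, map_inv, map_inv, inv_mul_eq_iff_eq_mul, ← mul_assoc, ha, mul_assoc,
      mul_inv_cancel, mul_one]

theorem op_inv_apply (X : Set B) (s : B) (p : Sta cs X) :
    Ac X (Artin.gen M s)⁻¹ p = opi X s p := by
  rw [map_inv, Ac_gen]
  rfl

/-- states after one more letter -/
theorem step_min {X : Set B} {g : Artin M} {w : {w : W // RMin cs X w}} {s : B}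
    (h : RMin cs X (cs.simple s * (st X g w : {w : W // RMin cs X w}))) :
    (((st X (Artin.gen M s * g) w : {w : W // RMin cs X w}) : W) =
        cs.simple s * (st X g w : {w : W // RMin cs X w}) ∧
      ka X (Artin.gen M s * g) w = ka X g w) ∧
    (((st X ((Artin.gen M s)⁻¹ * g) w : {w : W // RMin cs X w}) : W) =
        cs.simple s * (st X g w : {w : W // RMin cs X w}) ∧
      ka X ((Artin.gen M s)⁻¹ * g) w = ka X g w) := by
  rw [st_mul, ka_mul, st_mul, ka_mul]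
  generalize st X g w = d at h ⊢
  obtain ⟨d, hd⟩ := d
  have e1 : Ac X (Artin.gen M s) (⟨d, hd⟩, 1) = (⟨cs.simple s * d, h⟩, 1) := by
    rw [Ac_gen, op_apply]; exact opf_min hd _ 1
  have e2 : Ac X (Artin.gen M s)⁻¹ (⟨d, hd⟩, 1) = (⟨cs.simple s * d, h⟩, 1) := by
    rw [op_inv_apply]; exact opi_min hd _ 1
  have s1 : st X (Artin.gen M s) ⟨d, hd⟩ = ⟨cs.simple s * d, h⟩ := by unfold st; rw [e1]
  have s2 : ka X (Artin.gen M s) ⟨d, hd⟩ = 1 := by unfold ka; rw [e1]
  have s3 : st X (Artin.gen M s)⁻¹ ⟨d, hd⟩ = ⟨cs.simple s * d, h⟩ := by unfold st; rw [e2]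
  have s4 : ka X (Artin.gen M s)⁻¹ ⟨d, hd⟩ = 1 := by unfold ka; rw [e2]
  rw [s1, s2, s3, s4, one_mul]
  exact ⟨⟨rfl, rfl⟩, ⟨rfl, rfl⟩⟩

theorem step_out {X : Set B} {g : Artin M} {w : {w : W // RMin cs X w}} {s : B} {t : X}
    (h : cs.simple s * (st X g w : {w : W // RMin cs X w}) =
      (st X g w : {w : W // RMin cs X w}) * cs.simple (t : B)) :
    (st X (Artin.gen M s * g) w = st X g w ∧
      ka X (Artin.gen M s * g) w = Artin.gen _ t * ka X g w) ∧
    (st X ((Artin.gen M s)⁻¹ * g) w = st X g w ∧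
      ka X ((Artin.gen M s)⁻¹ * g) w = (Artin.gen _ t)⁻¹ * ka X g w) := by
  rw [st_mul, ka_mul, st_mul, ka_mul]
  generalize st X g w = d at h ⊢
  obtain ⟨d, hd⟩ := d
  have e1 : Ac X (Artin.gen M s) (⟨d, hd⟩, 1) = (⟨d, hd⟩, Artin.gen _ t * 1) := by
    rw [Ac_gen, op_apply]; exact opf_out hd h 1
  have e2 : Ac X (Artin.gen M s)⁻¹ (⟨d, hd⟩, 1) = (⟨d, hd⟩, (Artin.gen _ t)⁻¹ * 1) := by
    rw [op_inv_apply]; exact opi_out hd h 1
  have s1 : st X (Artin.gen M s) ⟨d, hd⟩ = ⟨d, hd⟩ := by unfold st; rw [e1]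
  have s2 : ka X (Artin.gen M s) ⟨d, hd⟩ = Artin.gen _ t := by unfold ka; rw [e1, mul_one]
  have s3 : st X (Artin.gen M s)⁻¹ ⟨d, hd⟩ = ⟨d, hd⟩ := by unfold st; rw [e2]
  have s4 : ka X (Artin.gen M s)⁻¹ ⟨d, hd⟩ = (Artin.gen _ t)⁻¹ := by
    unfold ka; rw [e2, mul_one]
  rw [s1, s2, s3, s4]
  exact ⟨⟨rfl, rfl⟩, ⟨rfl, rfl⟩⟩

/-- **synchronization** -/
theorem sync {Z X : Set B} {w : W} (hw : RMin cs X w) (θ : Z → X)
    (hθ : ∀ z : Z, cs.simple z * w = w * cs.simple (θ z : B)) {g : Artin M} {R : Set W}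
    (h : Tr cs g R) (hR : ∀ r ∈ R, w⁻¹ * r * w ∈ Par cs X → r ∈ Par cs Z) :
    ((st X g ⟨w, hw⟩ : {w : W // RMin cs X w}) : W) =
      (st Z g (e1 cs Z) : {w : W // RMin cs Z w}) * w ∧
    ka X g ⟨w, hw⟩ = mth θ hθ (ka Z g (e1 cs Z)) := by
  have key : ∀ (s : B) (g : Artin M),
      (((pr cs g)⁻¹ * cs.simple s * pr cs g ∈ Par cs Z) ∨
        ¬ w⁻¹ * ((pr cs g)⁻¹ * cs.simple s * pr cs g) * w ∈ Par cs X) →
      ((st X g ⟨w, hw⟩ : {w : W // RMin cs X w}) : W) =
        (st Z g (e1 cs Z) : {w : W // RMin cs Z w}) * w →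
      ka X g ⟨w, hw⟩ = mth θ hθ (ka Z g (e1 cs Z)) →
      (((st X (Artin.gen M s * g) ⟨w, hw⟩ : {w : W // RMin cs X w}) : W) =
        (st Z (Artin.gen M s * g) (e1 cs Z) : {w : W // RMin cs Z w}) * w ∧
      ka X (Artin.gen M s * g) ⟨w, hw⟩ = mth θ hθ (ka Z (Artin.gen M s * g) (e1 cs Z))) ∧
      (((st X ((Artin.gen M s)⁻¹ * g) ⟨w, hw⟩ : {w : W // RMin cs X w}) : W) =
        (st Z ((Artin.gen M s)⁻¹ * g) (e1 cs Z) : {w : W // RMin cs Z w}) * w ∧
      ka X ((Artin.gen M s)⁻¹ * g) ⟨w, hw⟩ =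
        mth θ hθ (ka Z ((Artin.gen M s)⁻¹ * g) (e1 cs Z))) := by
    intro s g hr h1 h2
    rcases deo' (st Z g (e1 cs Z)).2 s with h3 | ⟨z, h3⟩
    · -- no label for `Z`
      have h4 : RMin cs X (cs.simple s * (st X g ⟨w, hw⟩ : {w : W // RMin cs X w})) := by
        rcases deo' (st X g ⟨w, hw⟩).2 s with h4 | ⟨t, h4⟩
        · exact h4
        exfalso
        -- the crossed reflection
        have t1 := th X g ⟨w, hw⟩
        have t2 := th Z g (e1 cs Z)
        have t2' : pr cs g = (st Z g (e1 cs Z) : {w : W // RMin cs Z w}) *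
            prX cs Z (ka Z g (e1 cs Z)) := by
          rw [t2]; show pr cs g = pr cs g * 1; rw [mul_one]
        have hX : w⁻¹ * ((pr cs g)⁻¹ * cs.simple s * pr cs g) * w ∈ Par cs X := by
          have e0 : w⁻¹ * ((pr cs g)⁻¹ * cs.simple s * pr cs g) * w =
              (pr cs g * w)⁻¹ * cs.simple s * (pr cs g * w) := by group
          have t1' : pr cs g * w = (st X g ⟨w, hw⟩ : {w : W // RMin cs X w}) *
            prX cs X (ka X g ⟨w, hw⟩) := t1.symm
          rw [e0, t1']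
          obtain ⟨d, hd⟩ : ∃ d : W, d = (st X g ⟨w, hw⟩ : {w : W // RMin cs X w}) := ⟨_, rfl⟩
          rw [← hd] at h4 ⊢
          have e3 : (d * prX cs X (ka X g ⟨w, hw⟩))⁻¹ * cs.simple s *
              (d * prX cs X (ka X g ⟨w, hw⟩)) =
              (prX cs X (ka X g ⟨w, hw⟩))⁻¹ * (d⁻¹ * (cs.simple s * d)) *
                prX cs X (ka X g ⟨w, hw⟩) := by group
          rw [e3, h4, ← mul_assoc d⁻¹, inv_mul_cancel, one_mul]
          exact Subgroup.mul_mem _ (Subgroup.mul_mem _ (Subgroup.inv_mem _ (prX_mem cs X _))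
            (simple_mem_par t.2)) (prX_mem cs X _)
        have hZ : (pr cs g)⁻¹ * cs.simple s * pr cs g ∈ Par cs Z :=
          hr.resolve_right fun hh => hh hX
        obtain ⟨d, hd⟩ : ∃ d : {w : W // RMin cs Z w}, d = st Z g (e1 cs Z) := ⟨_, rfl⟩
        rw [← hd] at t2' h3
        rw [t2'] at hZ
        have e4 : (d : W)⁻¹ * (cs.simple s * d) = prX cs Z (ka Z g (e1 cs Z)) *
            ((d * prX cs Z (ka Z g (e1 cs Z)))⁻¹ * cs.simple s *
              (d * prX cs Z (ka Z g (e1 cs Z)))) * (prX cs Z (ka Z g (e1 cs Z)))⁻¹ := by group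
        obtain ⟨z, hz, h5⟩ := stab_simple d.2 (s := s) (by
          rw [e4]
          exact Subgroup.mul_mem _ (Subgroup.mul_mem _ (prX_mem cs Z _) hZ)
            (Subgroup.inv_mem _ (prX_mem cs Z _)))
        exact not_rmin d.2 hz h5 h3
      obtain ⟨⟨a1, a2⟩, a3, a4⟩ := step_min h3
      obtain ⟨⟨b1, b2⟩, b3, b4⟩ := step_min h4
      rw [a1, a2, a3, a4, b1, b2, b3, b4]
      have h5 : cs.simple s * ((st X g ⟨w, hw⟩ : {w : W // RMin cs X w}) : W) =
          cs.simple s * (st Z g (e1 cs Z) : {w : W // RMin cs Z w}) * w := by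
        rw [h1, mul_assoc]
      exact ⟨⟨h5, h2⟩, ⟨h5, h2⟩⟩
    · -- a label
      have h4 : cs.simple s * (st X g ⟨w, hw⟩ : {w : W // RMin cs X w}) =
          (st X g ⟨w, hw⟩ : {w : W // RMin cs X w}) * cs.simple (θ z : B) := by
        rw [h1, ← mul_assoc, h3, mul_assoc, mul_assoc, hθ]
      obtain ⟨⟨a1, a2⟩, a3, a4⟩ := step_out h3
      obtain ⟨⟨b1, b2⟩, b3, b4⟩ := step_out h4
      rw [a1, a2, a3, a4, b1, b2, b3, b4]
      refine ⟨⟨h1, ?_⟩, ⟨h1, ?_⟩⟩
      · rw [map_mul, mth_gen, h2]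
      · rw [map_mul, map_inv, mth_gen, h2]
  induction h with
  | one => simp [e1]
  | pos s g R _ ih =>
    obtain ⟨h1, h2⟩ := ih fun r hr => hR r (Set.mem_insert_of_mem _ hr)
    refine (key s g ?_ h1 h2).1
    by_cases hX : w⁻¹ * ((pr cs g)⁻¹ * cs.simple s * pr cs g) * w ∈ Par cs X
    · exact Or.inl (hR _ (Set.mem_insert _ _) hX)
    · exact Or.inr hX
  | neg s g R _ ih =>
    obtain ⟨h1, h2⟩ := ih fun r hr => hR r (Set.mem_insert_of_mem _ hr)
    refine (key s g ?_ h1 h2).2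
    by_cases hX : w⁻¹ * ((pr cs g)⁻¹ * cs.simple s * pr cs g) * w ∈ Par cs X
    · exact Or.inl (hR _ (Set.mem_insert _ _) hX)
    · exact Or.inr hX

end Pool.Agent.L7h59.AR
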