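import Pool.Agent.L7h59.AR.Sync
import Pool.Agent.L7h59.AR.Stm2
import Pool.Agent.N509.TK.Loc

/-!
# The trees of an Artin group and of its Coxeter group
-/

set_option autoImplicit false
set_option linter.unusedSectionVars false

namespace Pool.Agent.L7h59.AR

open CoxeterSystem Pool.Agent.Helper703.Cox Pool.Agent.TH5.BD
open Pool.Agent.Y110.FJ
open Pool.Agent.Helper270.Tree

section csg

variable {G : Type} [Group G] {A A' : Subgroup G}

theorem csg_smul (g : G) (u v : (G ⧸ A) ⊕ (G ⧸ A')) (h : (csg A A').Adj u v) :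
    (csg A A').Adj (g • u) (g • v) := by
  obtain ⟨k, ⟨rfl, rfl⟩ | ⟨rfl, rfl⟩⟩ := h
  · exact ⟨g * k, Or.inl ⟨rfl, rfl⟩⟩
  · exact ⟨g * k, Or.inr ⟨rfl, rfl⟩⟩

theorem csg_treeAct (h : (csg A A').IsTree) : TreeAct G (csg A A') where
  isTree := h
  adj := csg_smul
  noInv := by
    rintro g u v ⟨k, ⟨rfl, rfl⟩ | ⟨rfl, rfl⟩⟩ ⟨h1, _⟩
    · exact absurd h1 Sum.inl_ne_inr
    · exact absurd h1 Sum.inr_ne_inl

end csg

variable {B : Type} [Fintype B] [DecidableEq B] {M : CoxeterMatrix B} {W : Type} [Group W]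
  (cs : CoxeterSystem M W)

/-- the minimal representative of the image of a coset -/
noncomputable def rep (X : Set B) : Artin M ⧸ (io M X).range → {w : W // RMin cs X w} :=
  Quotient.lift (fun g => st X g (e1 cs X)) (by
    intro a b h
    obtain ⟨c, hc⟩ : a⁻¹ * b ∈ (io M X).range := QuotientGroup.leftRel_apply.1 h
    have : b = a * io M X c := by rw [hc]; group
    show st X a (e1 cs X) = st X b (e1 cs X)
    rw [this, st_mul, st_io])

theorem rep_mk (X : Set B) (g : Artin M) :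
    rep cs X (g : Artin M ⧸ (io M X).range) = st X g (e1 cs X) := rfl

theorem rep_smul (X : Set B) (x : Artin M) (u : Artin M ⧸ (io M X).range) :
    rep cs X (x • u) = st X x (rep cs X u) := by
  obtain ⟨g, rfl⟩ := QuotientGroup.mk_surjective u
  rw [MulAction.Quotient.smul_coe, rep_mk, rep_mk, smul_eq_mul, st_mul]

/-- an element of a vertex stabilizer with trivial label is trivial -/
theorem lab_inj (X : Set B) (x : Artin M) (u : Artin M ⧸ (io M X).range) (h : x • u = u)
    (h1 : ka X x (rep cs X u) = 1) : x = 1 := by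
  obtain ⟨g, rfl⟩ := QuotientGroup.mk_surjective u
  rw [MulAction.Quotient.smul_coe, smul_eq_mul, eq_comm, QuotientGroup.eq] at h
  obtain ⟨c, hc⟩ := h
  have e : x * g = g * io M X c := by rw [hc]; group
  rw [rep_mk] at h1
  have h2 := ka_mul X x g (e1 cs X)
  have h3 := ka_mul X g (io M X c) (e1 cs X)
  rw [h1, one_mul, e, h3, st_io, ka_io] at h2
  have h4 : c = 1 := by
    have := congrArg ((ka X g (e1 cs X))⁻¹ * ·) h2
    simpa using this
  rw [h4, map_one, mul_one] at e
  have : x = x * g * g⁻¹ := by group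
  rw [this, e, mul_inv_cancel]

include cs in
/-- the homomorphism of a vertex stabilizer given by the labels -/
theorem C_stab {C : ∀ (G : Type) [Group G], Prop} (hC : Pool.Agent.Y462.SS.Closed C) (X : Set B)
    (hX : C (Artin (rs M X))) (E : Subgroup (Artin M)) (F : Subgroup E)
    (u : Artin M ⧸ (io M X).range) (hF : ∀ x ∈ F, (x : Artin M) • u = u) : C F := by
  have hst : ∀ x : F, st X ((x : E) : Artin M) (rep cs X u) = rep cs X u := by
    intro x
    rw [← rep_smul, hF x x.2]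
  refine hC.of_injective F (Artin (rs M X))
    { toFun := fun x => ka X ((x : E) : Artin M) (rep cs X u)
      map_one' := ka_one _ _
      map_mul' := fun x y => ?_ } ?_ hX
  · show ka X (((x : E) : Artin M) * ((y : E) : Artin M)) _ = _
    rw [ka_mul, hst]
  · rw [injective_iff_map_eq_one]
    intro x hx
    apply Subtype.ext
    apply Subtype.ext
    exact lab_inj cs X _ u (hF x x.2) hx

/-- vertices of the two trees -/
abbrev VT (M : CoxeterMatrix B) (X0 X1 : Set B) : Type :=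
  (Artin M ⧸ (io M X0).range) ⊕ (Artin M ⧸ (io M X1).range)

abbrev VB (X0 X1 : Set B) : Type := (W ⧸ Par cs X0) ⊕ (W ⧸ Par cs X1)

/-- the map of the vertices -/
noncomputable def qv (X : Set B) (u : Artin M ⧸ (io M X).range) : W ⧸ Par cs X :=
  ((rep cs X u : W) : W ⧸ Par cs X)

theorem coe_st (X : Set B) (x : Artin M) (u : {w : W // RMin cs X w}) :
    (((st X x u : {w : W // RMin cs X w}) : W) : W ⧸ Par cs X) = ((pr cs x * u : W) : W ⧸ Par cs X) := by
  rw [QuotientGroup.eq, ← th X x u, ← mul_assoc, inv_mul_cancel, one_mul]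
  exact prX_mem cs X _

theorem qv_smul (X : Set B) (x : Artin M) (u : Artin M ⧸ (io M X).range) :
    qv cs X (x • u) = pr cs x • qv cs X u := by
  unfold qv
  rw [rep_smul, coe_st]
  rfl

theorem qv_mk (X : Set B) (g : Artin M) :
    qv cs X (g : Artin M ⧸ (io M X).range) = (pr cs g : W ⧸ Par cs X) := by
  unfold qv
  rw [rep_mk, coe_st]
  show ((pr cs g * 1 : W) : W ⧸ Par cs X) = _
  rw [mul_one]

/-- the map of the trees -/
noncomputable def qq (X0 X1 : Set B) : VT M X0 X1 → VB cs X0 X1 :=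
  Sum.map (qv cs X0) (qv cs X1)

theorem qq_smul (X0 X1 : Set B) (x : Artin M) (u : VT M X0 X1) :
    qq cs X0 X1 (x • u) = pr cs x • qq cs X0 X1 u := by
  rcases u with u | u
  · exact congrArg Sum.inl (qv_smul cs X0 x u)
  · exact congrArg Sum.inr (qv_smul cs X1 x u)

theorem qq_adj (X0 X1 : Set B) (u v : VT M X0 X1)
    (h : (csg (io M X0).range (io M X1).range).Adj u v) :
    (csg (Par cs X0) (Par cs X1)).Adj (qq cs X0 X1 u) (qq cs X0 X1 v) := by
  obtain ⟨g, ⟨rfl, rfl⟩ | ⟨rfl, rfl⟩⟩ := h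
  · exact ⟨pr cs g, Or.inl ⟨congrArg Sum.inl (qv_mk cs X0 g), congrArg Sum.inr (qv_mk cs X1 g)⟩⟩
  · exact ⟨pr cs g, Or.inr ⟨congrArg Sum.inl (qv_mk cs X0 g), congrArg Sum.inr (qv_mk cs X1 g)⟩⟩

theorem qq_av (X0 X1 : Set B) (S : Set (VB cs X0 X1)) (u v : VT M X0 X1)
    (h : Av (csg (io M X0).range (io M X1).range) (qq cs X0 X1 ⁻¹' S) u v) :
    Av (csg (Par cs X0) (Par cs X1)) S (qq cs X0 X1 u) (qq cs X0 X1 v) := by
  obtain ⟨p, hp⟩ := h
  let f : (csg (io M X0).range (io M X1).range) →g (csg (Par cs X0) (Par cs X1)) :=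
    ⟨qq cs X0 X1, fun {a b} hab => qq_adj cs X0 X1 a b hab⟩
  refine ⟨p.map f, fun x hx => ?_⟩
  rw [SimpleGraph.Walk.support_map, List.mem_map] at hx
  obtain ⟨y, hy, rfl⟩ := hx
  exact hp y hy

/-- **the pure Artin group** -/
theorem C_pure {C : ∀ (G : Type) [Group G], Prop} (hC : ClosedE C) (X0 X1 : Set B)
    (hT : (csg (io M X0).range (io M X1).range).IsTree)
    (h0 : C (Artin (rs M X0))) (h1 : C (Artin (rs M X1))) : C (Pu cs) := by
  have hom : ∀ (X : Set B), C (Artin (rs M X)) → ∀ u : Artin M ⧸ (io M X).range,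
      ∃ (P : Type) (_ : Group P) (f : Pu cs →* P), C P ∧
        ∀ x : Pu cs, (x : Artin M) • u = u → f x = 1 → x = 1 := by
    intro X hX u
    refine ⟨Artin (rs M X), inferInstance,
      { toFun := fun x => ka X (x : Artin M) (rep cs X u)
        map_one' := ka_one _ _
        map_mul' := fun x y => ?_ }, hX, fun x hx hfx => ?_⟩
    · show ka X ((x : Artin M) * (y : Artin M)) _ = _
      rw [ka_mul, st_pure X y.2]
    · exact Subtype.ext (lab_inj cs X _ u hx hfx)
  refine Pool.Agent.N509.TK.edges (G := Pu cs) (V := VT M X0 X1) hC hT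
    (fun g u v h => csg_smul (g : Artin M) u v h) ?_ ?_
  · rintro (u | u)
    · exact C_stab cs hC.base X0 h0 (Pu cs) _ u fun x hx => Sum.inl_injective hx
    · exact C_stab cs hC.base X1 h1 (Pu cs) _ u fun x hx => Sum.inr_injective hx
  · intro u v _
    rcases u with u | u
    · obtain ⟨P, i, f, hP, hf⟩ := hom X0 h0 u
      exact ⟨P, i, f, hP, fun x hx _ hfx => hf x (Sum.inl_injective hx) hfx⟩
    · obtain ⟨P, i, f, hP, hf⟩ := hom X1 h1 u
      exact ⟨P, i, f, hP, fun x hx _ hfx => hf x (Sum.inr_injective hx) hfx⟩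

/-- **the general step** -/
theorem gen_step {C : ∀ (G : Type) [Group G], Prop} (hCtr : S_CTR) (hC : ClosedE C)
    (hM : ∀ (G : Type) [Group G], derivedSeries G 2 = ⊥ → C G) (X0 X1 : Set B)
    (hT : (csg (io M X0).range (io M X1).range).IsTree)
    (h0 : C (Artin (rs M X0))) (h1 : C (Artin (rs M X1)))
    (E : Subgroup (Artin M)) (S : Set (VB cs X0 X1))
    (hS : ∀ h ∈ E, ∀ v ∈ S, pr cs h • v ∈ S)
    (hav : ∀ z ∉ S, ∀ h ∈ E, Av (csg (Par cs X0) (Par cs X1)) S z (pr cs h • z) → pr cs h = 1)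
    (hf0 : ∀ u : {w : W // RMin cs X0 w}, Sum.inl ((u : W) : W ⧸ Par cs X0) ∈ S →
      ∃ (P : Type) (_ : Group P) (f : E →* P), C P ∧
        ∀ h : E, st X0 (h : Artin M) u = u → f h = 1 → ka X0 (h : Artin M) u = 1)
    (hf1 : ∀ u : {w : W // RMin cs X1 w}, Sum.inr ((u : W) : W ⧸ Par cs X1) ∈ S →
      ∃ (P : Type) (_ : Group P) (f : E →* P), C P ∧
        ∀ h : E, st X1 (h : Artin M) u = u → f h = 1 → ka X1 (h : Artin M) u = 1) : C E := by
  have hN : C (Pu cs) := C_pure cs hC X0 X1 hT h0 h1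
  refine hCtr C hC hM E (VT M X0 X1) _ hT (fun g u v h => csg_smul (g : Artin M) u v h)
    (qq cs X0 X1 ⁻¹' S) ?_ ?_ ?_ ?_
  · intro g v hv
    show qq cs X0 X1 ((g : Artin M) • v) ∈ S
    rw [qq_smul]
    exact hS g g.2 _ hv
  · rintro (u | u) _
    · exact C_stab cs hC.base X0 h0 E _ u fun x hx => Sum.inl_injective hx
    · exact C_stab cs hC.base X1 h1 E _ u fun x hx => Sum.inr_injective hx
  · intro z hz K hK
    have hK' : ∀ g ∈ K, (g : Artin M) ∈ Pu cs := by
      intro g hg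
      have h2 := qq_av cs X0 X1 S z ((g : Artin M) • z) (hK g hg)
      rw [qq_smul] at h2
      exact hav _ hz g g.2 h2
    refine hC.base.of_injective K (Pu cs)
      { toFun := fun x => ⟨((x : E) : Artin M), hK' x x.2⟩
        map_one' := rfl
        map_mul' := fun _ _ => rfl } ?_ hN
    intro a b hab
    exact Subtype.ext (Subtype.ext (congrArg (fun y : Pu cs => (y : Artin M)) hab))
  · rintro (u | u) hu
    · obtain ⟨P, i, f, hP, hf⟩ := hf0 (rep cs X0 u) hu
      refine ⟨P, i, f, hP, fun x hx hfx => ?_⟩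
      have hx' : (x : Artin M) • u = u := Sum.inl_injective hx
      have h2 := hf x (by rw [← rep_smul, hx']) hfx
      exact Subtype.ext (lab_inj cs X0 _ u hx' h2)
    · obtain ⟨P, i, f, hP, hf⟩ := hf1 (rep cs X1 u) hu
      refine ⟨P, i, f, hP, fun x hx hfx => ?_⟩
      have hx' : (x : Artin M) • u = u := Sum.inr_injective hx
      have h2 := hf x (by rw [← rep_smul, hx']) hfx
      exact Subtype.ext (lab_inj cs X1 _ u hx' h2)

end Pool.Agent.L7h59.AR
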